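import Pool.Agent.Lib.MP_ac5134_an.Lip.Defs

/-! LIP-B1 (bump functions).  Est. 0.4 h.

PROOF.  Let `χ0` be a smooth bump on `V d`, `= 1` on `closedBall 0 (1/2)`, supported in
`closedBall 0 1`, values in `[0,1]` (Mathlib `ContDiffBump (0 : V d)` with `rIn = 1/2`, `rOut = 1`;
`Fin d → ℝ` has `HasContDiffBump` because it is finite dimensional).  Its derivative is continuous with
compact support, hence bounded: `|pd χ0 l x| ≤ C` for all `l, x`.  Put `χ x = χ0 (r⁻¹ • (x - x0))`.
`pd χ l x = r⁻¹ pd χ0 l (..)` (chain rule).  `∫ χ ≥ ∫_{closedBall x0 (r/2)} 1 = (2 (r/2))^d = r^d`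
(`Real.volume_pi_closedBall`). -/

namespace Pool.Agent.MPac5134.Lip

open MeasureTheory
open scoped ENNReal

variable {d : ℕ}

theorem exists_bump (d : ℕ) : ∃ C : ℝ, 0 < C ∧ ∀ (x0 : V d) (r : ℝ), 0 < r → ∃ χ : V d → ℝ,
    ContDiff ℝ 2 χ ∧ HasCompactSupport χ ∧ tsupport χ ⊆ Metric.closedBall x0 r ∧
    (∀ x, 0 ≤ χ x) ∧ (∀ x, χ x ≤ 1) ∧ (∀ x l, |pd χ l x| ≤ C / r) ∧ r ^ d ≤ ∫ x, χ x := by
  let f : ContDiffBump (0 : V d) := ⟨1 / 2, 1, by norm_num, by norm_num⟩
  have hfc : ContDiff ℝ 2 (f : V d → ℝ) := f.contDiff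
  have hdc : Continuous (fderiv ℝ (f : V d → ℝ)) := hfc.continuous_fderiv (by norm_num)
  obtain ⟨C0, hC0⟩ := hdc.bounded_above_of_compact_support (f.hasCompactSupport.fderiv ℝ)
  have hC00 : 0 ≤ C0 := (norm_nonneg _).trans (hC0 0)
  refine ⟨C0 + 1, by linarith, ?_⟩
  intro x0 r hr
  set g : V d → V d := fun x => r⁻¹ • (x - x0) with hg
  have hgc : ContDiff ℝ 2 g := (contDiff_id.sub contDiff_const).const_smul r⁻¹
  have hgd : ∀ x, HasFDerivAt g (r⁻¹ • ContinuousLinearMap.id ℝ (V d)) x := fun x =>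
    ((hasFDerivAt_id x).sub_const x0).const_smul r⁻¹
  have hgn : ∀ x, ‖g x‖ = ‖x - x0‖ / r := by
    intro x
    rw [hg]
    show ‖r⁻¹ • (x - x0)‖ = _
    rw [norm_smul, Real.norm_eq_abs, abs_of_pos (inv_pos.2 hr)]
    ring
  have hsupp : Function.support (fun x => f (g x)) ⊆ Metric.closedBall x0 r := by
    intro x hx
    have h1 : g x ∈ Function.support (f : V d → ℝ) := hx
    rw [f.support_eq, Metric.mem_ball, dist_zero_right, hgn, div_lt_iff₀ hr] at h1
    rw [Metric.mem_closedBall, dist_eq_norm]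
    have h2 : ‖x - x0‖ < 1 * r := h1
    linarith
  have hcont : Continuous fun x => f (g x) := (hfc.comp hgc).continuous
  have hcs : HasCompactSupport fun x => f (g x) :=
    HasCompactSupport.of_support_subset_isCompact (isCompact_closedBall x0 r) hsupp
  refine ⟨fun x => f (g x), hfc.comp hgc, hcs, closure_minimal hsupp Metric.isClosed_closedBall,
    fun x => f.nonneg, fun x => f.le_one, ?_, ?_⟩
  · intro x l
    have h1 : HasFDerivAt (fun x => f (g x))
        ((fderiv ℝ (f : V d → ℝ) (g x)).comp (r⁻¹ • ContinuousLinearMap.id ℝ (V d))) x :=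
      ((hfc.differentiable (by norm_num)).differentiableAt.hasFDerivAt).comp x (hgd x)
    unfold pd
    rw [h1.fderiv]
    show |fderiv ℝ (f : V d → ℝ) (g x) (r⁻¹ • (Pi.single l (1 : ℝ) : V d))| ≤ _
    rw [map_smul, smul_eq_mul, abs_mul, abs_of_pos (inv_pos.2 hr), div_eq_inv_mul]
    refine mul_le_mul_of_nonneg_left ?_ (inv_pos.2 hr).le
    have h2 : ‖(Pi.single l (1 : ℝ) : V d)‖ ≤ 1 := by
      rw [pi_norm_le_iff_of_nonneg zero_le_one]
      intro i
      by_cases hi : i = l
      · rw [hi, Pi.single_eq_same, norm_one]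
      · rw [Pi.single_eq_of_ne hi, norm_zero]
        exact zero_le_one
    have h3 := (fderiv ℝ (f : V d → ℝ) (g x)).le_opNorm (Pi.single l (1 : ℝ) : V d)
    rw [Real.norm_eq_abs] at h3
    have h4 := hC0 (g x)
    have h5 : ‖fderiv ℝ (f : V d → ℝ) (g x)‖ * ‖(Pi.single l (1 : ℝ) : V d)‖ ≤ C0 * 1 :=
      mul_le_mul h4 h2 (norm_nonneg _) hC00
    linarith
  · have hvol : (volume : Measure (V d)).real (Metric.closedBall x0 (r / 2)) = r ^ d := by
      rw [Measure.real, Real.volume_pi_closedBall x0 (by positivity), Fintype.card_fin,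
        ENNReal.toReal_ofReal (by positivity)]
      congr 1
      ring
    have hms : MeasurableSet (Metric.closedBall x0 (r / 2)) := Metric.isClosed_closedBall.measurableSet
    have hfin : (volume : Measure (V d)) (Metric.closedBall x0 (r / 2)) ≠ ⊤ := by
      rw [Real.volume_pi_closedBall x0 (by positivity)]
      exact ENNReal.ofReal_ne_top
    have h1 : ∫ x, (Metric.closedBall x0 (r / 2)).indicator (fun _ => (1 : ℝ)) x = r ^ d := by
      rw [integral_indicator hms, setIntegral_const, smul_eq_mul, mul_one, hvol]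
    rw [← h1]
    refine integral_mono ?_ (hcont.integrable_of_hasCompactSupport hcs) ?_
    · exact (integrableOn_const hfin).integrable_indicator hms
    · intro x
      by_cases hx : x ∈ Metric.closedBall x0 (r / 2)
      · rw [Set.indicator_of_mem hx]
        show 1 ≤ f (g x)
        rw [f.one_of_mem_closedBall]
        rw [Metric.mem_closedBall, dist_zero_right, hgn]
        rw [Metric.mem_closedBall, dist_eq_norm] at hx
        show ‖x - x0‖ / r ≤ 1 / 2
        rw [div_le_iff₀ hr]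
        linarith
      · rw [Set.indicator_of_notMem hx]
        exact f.nonneg

end Pool.Agent.MPac5134.Lip
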