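import Mathlib

/-!
Definitions for the Hoelder Kakeya theorem (board LIP).
`V d` is `R^d` with the sup norm and Lebesgue measure; all balls `Metric.closedBall` are cubes.
-/

namespace Pool.Agent.MPac5134.Lip

open MeasureTheory
open scoped ENNReal

/-- `R^d`, with the sup norm and the product Lebesgue measure. -/
abbrev V (d : ℕ) := Fin d → ℝ

variable {d : ℕ}

/-- The `j`-th partial derivative of `u` at `x`. -/
noncomputable def pd (u : V d → ℝ) (j : Fin d) (x : V d) : ℝ := fderiv ℝ u x (Pi.single j 1)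

/-- The Jacobian matrix `(∂_j u_i)`. -/
noncomputable def jmat (u : Fin d → V d → ℝ) (x : V d) : Matrix (Fin d) (Fin d) ℝ :=
  Matrix.of fun i j => pd (u i) j x

/-- The Jacobian determinant. -/
noncomputable def jdet (u : Fin d → V d → ℝ) (x : V d) : ℝ := (jmat u x).det

/-- The cofactor of the entry `(k, j)` of the Jacobian matrix. -/
noncomputable def cof (u : Fin d → V d → ℝ) (k j : Fin d) (x : V d) : ℝ :=
  ((jmat u x).updateRow k (Pi.single j 1)).det

/-- The kernel `K_ρ(y) = y_j (|y|² + ρ²)^(-d/2)` (`|y|` Euclidean). -/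
noncomputable def ker (ρ : ℝ) (j : Fin d) (y : V d) : ℝ :=
  y j * (∑ i, y i ^ 2 + ρ ^ 2) ^ (-(d : ℝ) / 2)

/-- Its divergence `d ρ² (|y|² + ρ²)^(-d/2-1)`. -/
noncomputable def dker (ρ : ℝ) (y : V d) : ℝ :=
  d * ρ ^ 2 * (∑ i, y i ^ 2 + ρ ^ 2) ^ (-(d : ℝ) / 2 - 1)

/-- The total mass of `dker`. -/
noncomputable def kap (d : ℕ) : ℝ := ∫ y : V d, dker 1 y

/-- The field `ψ = K_ρ * 1_E`. -/
noncomputable def fld (ρ : ℝ) (E : Set (V d)) (j : Fin d) (y : V d) : ℝ :=
  ∫ z in E, ker ρ j (y - z)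

/-- `I(χ, u, w) = ∑_j ∫ w_j det(∇u_1, …, ∇χ [place j], …, ∇u_d)`. -/
noncomputable def Iint (χ : V d → ℝ) (u w : Fin d → V d → ℝ) : ℝ :=
  ∑ j, ∫ x, w j x * jdet (Function.update u j χ) x

/-- The components of the map `x ↦ F(x) - s x`. -/
noncomputable def shf (F : Fin d → V d → ℝ) (s : ℝ) : Fin d → V d → ℝ :=
  fun i x => F i x - s * x i

end Pool.Agent.MPac5134.Lip
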