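import Pool.Agent.Lib.MP_ac5134_an.Lip.Defs

/-! LIP-K1 (calculus of the kernel).  Est. 0.8 h.

`ker ρ j y = y_j Q^(-d/2)`, `Q = |y|² + ρ²` (Euclidean), `dker ρ y = d ρ² Q^(-d/2-1)`.

PROOF.  `Q > 0` everywhere (`ρ > 0`) and `Q` is a polynomial, so `Q^(-d/2)` is smooth
(`ContDiff.rpow_const_of_ne` or `ContDiffAt.rpow_const_of_ne`).  By `HasFDerivAt`/`HasDerivAt` along the
line (or `HasFDerivAt.rpow_const`, `HasFDerivAt.mul`):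
  `pd (ker ρ j) m y = δ_jm Q^(-d/2) - d y_j y_m Q^(-d/2-1)`     (lemma `pd_ker`).
* divergence: `∑_j = d Q^(-d/2) - d |y|² Q^(-d/2-1) = d Q^(-d/2-1) (Q - |y|²) = d ρ² Q^(-d/2-1)`
  (`Real.rpow_sub_one`/`rpow_add`).
* `|pd (ker ρ j) m y| ≤ Q^(-d/2) + d |y_j y_m| Q^(-d/2-1) ≤ (1+d) Q^(-d/2)` as `|y_j y_m| ≤ |y|² ≤ Q`.
  With `Q ≥ ρ²` this is `≤ (1+d) ρ^(-d)`; with `Q ≥ |y|² ≥ ‖y‖²` (sup norm) it is `≤ (1+d) ‖y‖^(-d)`, `y ≠ 0`.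
* `|ker ρ j y| ≤ ‖y‖ Q^(-d/2) ≤ ‖y‖ ‖y‖^(-d)`, `y ≠ 0`; at `y = 0` both sides are `0` if `d ≥ 2`
  (`Real.zero_rpow`). -/

namespace Pool.Agent.MPac5134.Lip

open MeasureTheory
open scoped ENNReal

variable {d : ℕ}

private lemma K1_Qpos {ρ : ℝ} (hρ : 0 < ρ) (y : V d) : 0 < ∑ i, y i ^ 2 + ρ ^ 2 := by
  have : 0 ≤ ∑ i, y i ^ 2 := Finset.sum_nonneg fun i _ => sq_nonneg _
  positivity

theorem ker_contDiff {ρ : ℝ} (hρ : 0 < ρ) (j : Fin d) : ContDiff ℝ 2 (ker ρ j) := by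
  unfold ker
  refine ContDiff.mul (contDiff_apply ℝ ℝ j) ?_
  refine ContDiff.rpow_const_of_ne ?_ fun y => (K1_Qpos hρ y).ne'
  refine ContDiff.add ?_ contDiff_const
  exact ContDiff.sum fun i _ => (contDiff_apply ℝ ℝ i).pow 2

private lemma K1_hasFDerivAt {ρ : ℝ} (hρ : 0 < ρ) (j : Fin d) (y : V d) :
    HasFDerivAt (ker ρ j)
      (y j • (((-(d : ℝ) / 2) * (∑ i, y i ^ 2 + ρ ^ 2) ^ (-(d : ℝ) / 2 - 1)) •
        ∑ i, (2 * y i) • (ContinuousLinearMap.proj i : V d →L[ℝ] ℝ)) +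
        (∑ i, y i ^ 2 + ρ ^ 2) ^ (-(d : ℝ) / 2) • (ContinuousLinearMap.proj j : V d →L[ℝ] ℝ)) y := by
  have h1 : HasFDerivAt (fun y : V d => ∑ i, y i ^ 2 + ρ ^ 2)
      (∑ i, (2 * y i) • (ContinuousLinearMap.proj i : V d →L[ℝ] ℝ)) y := by
    have h2 : ∀ i ∈ (Finset.univ : Finset (Fin d)), HasFDerivAt (fun y : V d => y i ^ 2)
        ((2 * y i) • (ContinuousLinearMap.proj i : V d →L[ℝ] ℝ)) y := by
      intro i _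
      have h3 := (hasFDerivAt_apply i y : HasFDerivAt (𝕜 := ℝ) (fun f : V d => f i) _ y).pow 2
      simpa using h3
    exact (HasFDerivAt.fun_sum h2).add_const _
  have h4 := h1.rpow_const (p := -(d : ℝ) / 2) (Or.inl (K1_Qpos hρ y).ne')
  have h5 := (hasFDerivAt_apply j y : HasFDerivAt (𝕜 := ℝ) (fun f : V d => f j) _ y).mul h4
  exact h5

theorem pd_ker {ρ : ℝ} (hρ : 0 < ρ) (j m : Fin d) (y : V d) :
    pd (ker ρ j) m y = (if j = m then (∑ i, y i ^ 2 + ρ ^ 2) ^ (-(d : ℝ) / 2) else 0) -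
      d * y j * y m * (∑ i, y i ^ 2 + ρ ^ 2) ^ (-(d : ℝ) / 2 - 1) := by
  unfold pd
  rw [(K1_hasFDerivAt hρ j y).fderiv]
  simp only [add_apply, smul_apply, sum_apply, ContinuousLinearMap.proj_apply, smul_eq_mul]
  have h1 : ∑ i, 2 * y i * (Pi.single m (1 : ℝ) : V d) i = 2 * y m := by
    rw [Finset.sum_eq_single m]
    · simp
    · intro i _ hi
      simp [Pi.single_eq_of_ne hi]
    · simp
  rw [h1]
  by_cases hjm : j = m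
  · subst hjm
    simp
    ring
  · simp [hjm, Pi.single_eq_of_ne hjm]
    ring

theorem ker_div {ρ : ℝ} (hρ : 0 < ρ) (y : V d) : ∑ j, pd (ker ρ j) j y = dker ρ y := by
  have hQ := K1_Qpos hρ y
  simp only [pd_ker hρ, if_true]
  rw [Finset.sum_sub_distrib]
  unfold dker
  have h1 : (∑ i, y i ^ 2 + ρ ^ 2) ^ (-(d : ℝ) / 2) =
      (∑ i, y i ^ 2 + ρ ^ 2) ^ (-(d : ℝ) / 2 - 1) * (∑ i, y i ^ 2 + ρ ^ 2) := by
    rw [← Real.rpow_add_one hQ.ne']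
    congr 1
    ring
  rw [h1]
  have h2 : ∑ x, (d : ℝ) * y x * y x * (∑ i, y i ^ 2 + ρ ^ 2) ^ (-(d : ℝ) / 2 - 1) =
      d * (∑ i, y i ^ 2) * (∑ i, y i ^ 2 + ρ ^ 2) ^ (-(d : ℝ) / 2 - 1) := by
    rw [Finset.mul_sum, Finset.sum_mul]
    exact Finset.sum_congr rfl fun i _ => by ring
  rw [h2, Finset.sum_const, Finset.card_univ, Fintype.card_fin, nsmul_eq_mul]
  ring

private lemma K1_abs_le {ρ : ℝ} (hρ : 0 < ρ) (j m : Fin d) (y : V d) :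
    |pd (ker ρ j) m y| ≤ (d + 1) * (∑ i, y i ^ 2 + ρ ^ 2) ^ (-(d : ℝ) / 2) := by
  have hQ := K1_Qpos hρ y
  have h0 : 0 < (∑ i, y i ^ 2 + ρ ^ 2) ^ (-(d : ℝ) / 2) := Real.rpow_pos_of_pos hQ _
  have h0' : 0 < (∑ i, y i ^ 2 + ρ ^ 2) ^ (-(d : ℝ) / 2 - 1) := Real.rpow_pos_of_pos hQ _
  have h1 : (∑ i, y i ^ 2 + ρ ^ 2) ^ (-(d : ℝ) / 2) =
      (∑ i, y i ^ 2 + ρ ^ 2) ^ (-(d : ℝ) / 2 - 1) * (∑ i, y i ^ 2 + ρ ^ 2) := by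
    rw [← Real.rpow_add_one hQ.ne']
    congr 1
    ring
  have hj : y j ^ 2 ≤ ∑ i, y i ^ 2 :=
    Finset.single_le_sum (f := fun i => y i ^ 2) (fun i _ => sq_nonneg _) (Finset.mem_univ j)
  have hm : y m ^ 2 ≤ ∑ i, y i ^ 2 :=
    Finset.single_le_sum (f := fun i => y i ^ 2) (fun i _ => sq_nonneg _) (Finset.mem_univ m)
  have hjm : |y j * y m| ≤ ∑ i, y i ^ 2 + ρ ^ 2 := by
    rw [abs_mul]
    nlinarith [sq_abs (y j), sq_abs (y m), sq_nonneg (|y j| - |y m|), sq_nonneg ρ]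
  rw [pd_ker hρ]
  have h2 : |(if j = m then (∑ i, y i ^ 2 + ρ ^ 2) ^ (-(d : ℝ) / 2) else 0)| ≤
      (∑ i, y i ^ 2 + ρ ^ 2) ^ (-(d : ℝ) / 2) := by
    split_ifs
    · rw [abs_of_pos h0]
    · simp [h0.le]
  have h3 : |d * y j * y m * (∑ i, y i ^ 2 + ρ ^ 2) ^ (-(d : ℝ) / 2 - 1)| ≤
      d * (∑ i, y i ^ 2 + ρ ^ 2) ^ (-(d : ℝ) / 2) := by
    have h4 : d * y j * y m * (∑ i, y i ^ 2 + ρ ^ 2) ^ (-(d : ℝ) / 2 - 1) =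
        d * ((y j * y m) * (∑ i, y i ^ 2 + ρ ^ 2) ^ (-(d : ℝ) / 2 - 1)) := by ring
    rw [h4, abs_mul, abs_mul, Nat.abs_cast, abs_of_pos h0', h1, mul_comm ((∑ i, y i ^ 2 + ρ ^ 2) ^ (-(d : ℝ) / 2 - 1)) (∑ i, y i ^ 2 + ρ ^ 2)]
    gcongr
  calc _ ≤ |(if j = m then (∑ i, y i ^ 2 + ρ ^ 2) ^ (-(d : ℝ) / 2) else 0)| +
        |d * y j * y m * (∑ i, y i ^ 2 + ρ ^ 2) ^ (-(d : ℝ) / 2 - 1)| := abs_sub _ _
    _ ≤ (∑ i, y i ^ 2 + ρ ^ 2) ^ (-(d : ℝ) / 2) + d * (∑ i, y i ^ 2 + ρ ^ 2) ^ (-(d : ℝ) / 2) :=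
        add_le_add h2 h3
    _ = _ := by ring

private lemma K1_rpow {a Q : ℝ} (ha : 0 < a) (h : a ^ 2 ≤ Q) :
    Q ^ (-(d : ℝ) / 2) ≤ a ^ (-(d : ℝ)) := by
  have h1 : a ^ (-(d : ℝ)) = (a ^ 2) ^ (-(d : ℝ) / 2) := by
    rw [← Real.rpow_natCast a 2, ← Real.rpow_mul ha.le]
    congr 1
    push_cast
    ring
  rw [h1]
  exact Real.rpow_le_rpow_of_nonpos (by positivity) h (by
    have : (0 : ℝ) ≤ d := Nat.cast_nonneg d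
    linarith)

private lemma K1_norm_sq (y : V d) : ‖y‖ ^ 2 ≤ ∑ i, y i ^ 2 := by
  rcases isEmpty_or_nonempty (Fin d) with he | hne
  · have : y = 0 := Subsingleton.elim _ _
    simp [this]
  · obtain ⟨i, hi⟩ := Finite.exists_max fun i => ‖y i‖
    have h1 : ‖y‖ ≤ ‖y i‖ := (pi_norm_le_iff_of_nonneg (norm_nonneg _)).2 hi
    have h2 : y i ^ 2 ≤ ∑ i, y i ^ 2 :=
      Finset.single_le_sum (f := fun i => y i ^ 2) (fun i _ => sq_nonneg _) (Finset.mem_univ i)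
    calc ‖y‖ ^ 2 ≤ ‖y i‖ ^ 2 := pow_le_pow_left₀ (norm_nonneg _) h1 2
      _ = y i ^ 2 := by rw [Real.norm_eq_abs, sq_abs]
      _ ≤ _ := h2

theorem abs_pd_ker_le {ρ : ℝ} (hρ : 0 < ρ) (j m : Fin d) (y : V d) :
    |pd (ker ρ j) m y| ≤ (d + 1) * ρ ^ (-(d : ℝ)) := by
  refine (K1_abs_le hρ j m y).trans ?_
  refine mul_le_mul_of_nonneg_left (K1_rpow hρ ?_) (by positivity)
  have : 0 ≤ ∑ i, y i ^ 2 := Finset.sum_nonneg fun i _ => sq_nonneg _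
  linarith

theorem abs_pd_ker_le_norm {ρ : ℝ} (hρ : 0 < ρ) (j m : Fin d) {y : V d} (hy : y ≠ 0) :
    |pd (ker ρ j) m y| ≤ (d + 1) * ‖y‖ ^ (-(d : ℝ)) := by
  refine (K1_abs_le hρ j m y).trans ?_
  refine mul_le_mul_of_nonneg_left (K1_rpow (norm_pos_iff.2 hy) ?_) (by positivity)
  have := K1_norm_sq y
  nlinarith [sq_nonneg ρ]

theorem abs_ker_le (hd : 2 ≤ d) {ρ : ℝ} (hρ : 0 < ρ) (j : Fin d) (y : V d) :
    |ker ρ j y| ≤ ‖y‖ ^ (1 - (d : ℝ)) := by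
  by_cases hy : y = 0
  · subst hy
    simp only [ker, Pi.zero_apply, zero_mul, abs_zero, norm_zero]
    exact Real.rpow_nonneg le_rfl _
  · have hn := norm_pos_iff.2 hy
    unfold ker
    rw [abs_mul, abs_of_pos (Real.rpow_pos_of_pos (K1_Qpos hρ y) _)]
    have h1 : |y j| ≤ ‖y‖ := norm_le_pi_norm y j
    have h2 : (∑ i, y i ^ 2 + ρ ^ 2) ^ (-(d : ℝ) / 2) ≤ ‖y‖ ^ (-(d : ℝ)) :=
      K1_rpow hn (by have := K1_norm_sq y; nlinarith [sq_nonneg ρ])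
    calc |y j| * (∑ i, y i ^ 2 + ρ ^ 2) ^ (-(d : ℝ) / 2) ≤ ‖y‖ * ‖y‖ ^ (-(d : ℝ)) :=
          mul_le_mul h1 h2 (Real.rpow_nonneg (K1_Qpos hρ y).le _) hn.le
      _ = ‖y‖ ^ (1 - (d : ℝ)) := by
          rw [sub_eq_add_neg, Real.rpow_add hn, Real.rpow_one]

end Pool.Agent.MPac5134.Lip
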