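import Pool.Agent.Lib.MP_ac5134_an.Lip.Defs

/-! LIP-K2 (the mass of `dker`).  Est. 0.8 h.

PROOF.  * `dker 1 y = d (|y|²+1)^(-d/2-1) ≤ d (1+‖y‖²)^(-(d+2)/2)` (`‖y‖` sup norm, `‖y‖² ≤ |y|²`), which is
integrable because `d + 2 > d = finrank` (Mathlib `integrable_rpow_neg_one_add_norm_sq`, file
Mathlib/Analysis/SpecialFunctions/JapaneseBracket.lean); `dker 1` is continuous.
* scaling: `dker ρ y = ρ^(-d) * dker 1 (ρ⁻¹ • y)`: `ρ^(-d) d (ρ^(-2)|y|² + 1)^(-d/2-1)
= ρ^(-d) d ρ^(d+2) (|y|²+ρ²)^(-d/2-1)`.  So `dker ρ` is integrable (`Integrable.comp_smul`) and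
`∫ dker ρ = ∫ dker 1` (`Measure.integral_comp_smul`, finrank (Fin d → ℝ) = d).
* `kap d > 0` for `d ≥ 1`: the integrand is positive and continuous (`integral_pos_iff_support_of_nonneg`,
the support is everything).
* tail: `∫_{closedBall 0 R} dker ρ = ∫_{closedBall 0 (R/ρ)} dker 1` (`Measure.setIntegral_comp_smul`), and
`∫_{closedBall 0 n} dker 1 → ∫ dker 1` (`tendsto_setIntegral_of_monotone`, or dominated convergence). -/

namespace Pool.Agent.MPac5134.Lip

open MeasureTheory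
open scoped ENNReal

variable {d : ℕ}

theorem dker_nonneg (ρ : ℝ) (y : V d) : 0 ≤ dker ρ y := by
  unfold dker
  have : 0 ≤ ∑ i, y i ^ 2 := Finset.sum_nonneg fun i _ => sq_nonneg _
  positivity

private lemma K2_Qpos {ρ : ℝ} (hρ : 0 < ρ) (y : V d) : 0 < ∑ i, y i ^ 2 + ρ ^ 2 := by
  have : 0 ≤ ∑ i, y i ^ 2 := Finset.sum_nonneg fun i _ => sq_nonneg _
  positivity

private lemma K2_norm_sq (y : V d) : ‖y‖ ^ 2 ≤ ∑ i, y i ^ 2 := by
  rcases isEmpty_or_nonempty (Fin d) with he | hne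
  · have : y = 0 := Subsingleton.elim _ _
    simp [this]
  · obtain ⟨i, hi⟩ := Finite.exists_max fun i => ‖y i‖
    have h1 : ‖y‖ ≤ ‖y i‖ := (pi_norm_le_iff_of_nonneg (norm_nonneg _)).2 hi
    have h2 : y i ^ 2 ≤ ∑ i, y i ^ 2 :=
      Finset.single_le_sum (f := fun i => y i ^ 2) (fun i _ => sq_nonneg _) (Finset.mem_univ i)
    calc ‖y‖ ^ 2 ≤ ‖y i‖ ^ 2 := pow_le_pow_left₀ (norm_nonneg _) h1 2
      _ = y i ^ 2 := by rw [Real.norm_eq_abs, sq_abs]
      _ ≤ _ := h2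

private lemma K2_cont {ρ : ℝ} (hρ : 0 < ρ) : Continuous (dker (d := d) ρ) := by
  unfold dker
  refine Continuous.mul continuous_const ?_
  refine Continuous.rpow_const ?_ fun y => Or.inl (K2_Qpos hρ y).ne'
  fun_prop

private lemma K2_one : Integrable (dker (d := d) 1) := by
  have h1 : Integrable (fun y : V d => (d : ℝ) * ((1 : ℝ) + ‖y‖ ^ 2) ^ (-((d : ℝ) + 2) / 2)) := by
    refine (integrable_rpow_neg_one_add_norm_sq ?_).const_mul _
    rw [Module.finrank_fin_fun]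
    linarith
  refine h1.mono' (K2_cont one_pos).aestronglyMeasurable (Filter.Eventually.of_forall fun y => ?_)
  rw [Real.norm_eq_abs, abs_of_nonneg (dker_nonneg 1 y)]
  unfold dker
  have h2 : -(d : ℝ) / 2 - 1 = -((d : ℝ) + 2) / 2 := by ring
  rw [h2, one_pow, mul_one]
  refine mul_le_mul_of_nonneg_left ?_ (by positivity)
  refine Real.rpow_le_rpow_of_nonpos (by positivity) ?_ ?_
  · have := K2_norm_sq y
    linarith
  · have : (0 : ℝ) ≤ d := Nat.cast_nonneg d
    linarith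

private lemma K2_scale {ρ : ℝ} (hρ : 0 < ρ) (y : V d) :
    dker ρ y = ρ ^ (-(d : ℝ)) * dker 1 (ρ⁻¹ • y) := by
  unfold dker
  have h1 : ∑ i, (ρ⁻¹ • y) i ^ 2 + 1 ^ 2 = ρ ^ (-2 : ℝ) * (∑ i, y i ^ 2 + ρ ^ 2) := by
    have h2 : ρ ^ (-2 : ℝ) = (ρ ^ 2)⁻¹ := by
      rw [Real.rpow_neg hρ.le]
      norm_cast
    rw [h2, mul_add, inv_mul_cancel₀ (by positivity), one_pow, Finset.mul_sum]
    congr 1
    refine Finset.sum_congr rfl fun i _ => ?_
    simp only [Pi.smul_apply, smul_eq_mul]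
    rw [mul_pow, inv_pow]
  rw [h1, Real.mul_rpow (Real.rpow_nonneg hρ.le _) (K2_Qpos hρ y).le, ← Real.rpow_mul hρ.le]
  have h3 : ρ ^ 2 = ρ ^ (-(d : ℝ)) * ρ ^ (-2 * (-(d : ℝ) / 2 - 1)) := by
    rw [← Real.rpow_add hρ, ← Real.rpow_natCast]
    congr 1
    push_cast
    ring
  rw [h3]
  ring

theorem dker_integrable {ρ : ℝ} (hρ : 0 < ρ) : Integrable (dker (d := d) ρ) := by
  have h1 : dker (d := d) ρ = fun y => ρ ^ (-(d : ℝ)) * dker 1 (ρ⁻¹ • y) := by
    funext y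
    exact K2_scale hρ y
  rw [h1]
  exact (K2_one.comp_smul (inv_ne_zero hρ.ne')).const_mul _

theorem integral_dker {ρ : ℝ} (hρ : 0 < ρ) : ∫ y : V d, dker ρ y = kap d := by
  have h1 : dker (d := d) ρ = fun y => ρ ^ (-(d : ℝ)) * dker 1 (ρ⁻¹ • y) := by
    funext y
    exact K2_scale hρ y
  rw [h1, integral_const_mul,
    Measure.integral_comp_inv_smul_of_nonneg volume (fun y : V d => dker 1 y) hρ.le,
    Module.finrank_fin_fun, smul_eq_mul, ← mul_assoc, Real.rpow_neg hρ.le, Real.rpow_natCast,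
    inv_mul_cancel₀ (pow_ne_zero d hρ.ne'), one_mul]
  rfl

theorem kap_pos (hd : 1 ≤ d) : 0 < kap d := by
  unfold kap
  rw [integral_pos_iff_support_of_nonneg (fun y => dker_nonneg 1 y) K2_one]
  have h1 : Function.support (fun y : V d => dker 1 y) = Set.univ := by
    ext y
    simp only [Function.mem_support, Set.mem_univ, iff_true]
    unfold dker
    have h2 := Real.rpow_pos_of_pos (K2_Qpos one_pos y) (-(d : ℝ) / 2 - 1)
    have h3 : (0 : ℝ) < d := by exact_mod_cast hd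
    positivity
  rw [h1]
  exact isOpen_univ.measure_pos volume ⟨0, trivial⟩

theorem dker_tail {R ε : ℝ} (hR : 0 < R) (hε : 0 < ε) :
    ∃ ρ : ℝ, 0 < ρ ∧ kap d - ε ≤ ∫ y in Metric.closedBall (0 : V d) R, dker ρ y := by
  have h1 : Filter.Tendsto (fun n : ℕ => ∫ y in Metric.closedBall (0 : V d) n, dker 1 y)
      Filter.atTop (nhds (kap d)) := by
    have h2 := tendsto_setIntegral_of_monotone (μ := (volume : Measure (V d)))
      (s := fun n : ℕ => Metric.closedBall (0 : V d) n) (f := fun y => dker 1 y)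
      (fun n => Metric.isClosed_closedBall.measurableSet)
      (fun m n hmn => Metric.closedBall_subset_closedBall (by exact_mod_cast hmn))
      K2_one.integrableOn
    rw [Metric.iUnion_closedBall_nat, setIntegral_univ] at h2
    exact h2
  have h3 : ∀ᶠ n : ℕ in Filter.atTop, kap d - ε < ∫ y in Metric.closedBall (0 : V d) n, dker 1 y :=
    h1.eventually (lt_mem_nhds (by linarith))
  obtain ⟨n, hn, hn1⟩ := (h3.and (Filter.eventually_ge_atTop 1)).exists
  have hnpos : (0 : ℝ) < n := by exact_mod_cast hn1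
  have hρ : 0 < R / n := div_pos hR hnpos
  refine ⟨R / n, hρ, hn.le.trans (le_of_eq ?_)⟩
  have h4 : dker (d := d) (R / n) = fun y => (R / n) ^ (-(d : ℝ)) * dker 1 ((R / n)⁻¹ • y) := by
    funext y
    exact K2_scale hρ y
  rw [h4, integral_const_mul,
    Measure.setIntegral_comp_smul_of_pos volume (fun y : V d => dker 1 y) _ (inv_pos.2 hρ),
    Module.finrank_fin_fun, smul_eq_mul, ← mul_assoc, Real.rpow_neg hρ.le, Real.rpow_natCast,
    inv_pow, inv_inv, inv_mul_cancel₀ (pow_ne_zero d hρ.ne'), one_mul,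
    smul_closedBall _ _ hR.le, smul_zero, norm_inv, Real.norm_eq_abs, abs_of_pos hρ]
  congr 3
  field_simp

end Pool.Agent.MPac5134.Lip
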