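import Pool.Agent.Lib.MP_ac5134_an.Lip.Defs

/-! LIP-K3 (Riesz potential bound).  Est. 0.8 h.

`∫_E ‖y - z‖^(γ-d) dz ≤ C |E|^(γ/d)` for `0 < γ < d` (sup norm).

PROOF.  Let `v = |E|` (finite).  If `v = 0` the integral is `0` (restrict measure zero).  Otherwise put
`R = v^(1/d) > 0` and split `E` at `‖y - z‖ < R`:
* on `‖y - z‖ ≥ R` the integrand is `≤ R^(γ-d)` (negative exponent), contribution `≤ R^(γ-d) v = R^γ`;
* on the ball: `∫_{‖y-z‖<R} ‖y-z‖^(γ-d) dz = ∫_{‖z‖<R} ‖z‖^(γ-d) dz` (translation and reflection,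
  `integral_sub_left_eq_self`) `= d 2^d ∫_0^R t^(d-1) t^(γ-d) dt = (d 2^d/γ) R^γ` by Mathlib
  `integral_fun_norm_addHaar` (file Mathlib/MeasureTheory/Constructions/HaarToSphere.lean) applied to
  `f t = if t < R then t^(γ-d) else 0`, and `integral_rpow`/`integral_Ioc_rpow..`; integrability from
  `integrable_fun_norm_addHaar` (same file).  (Alternative: dyadic shells
  `2^(-k-1) R ≤ ‖z‖ < 2^(-k) R`, each contributes `≤ (2^(-k-1)R)^(γ-d) (2·2^(-k) R)^d`, geometric series.)
So `C = d 2^d/γ + 1`, `R^γ = v^(γ/d)`. -/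

namespace Pool.Agent.MPac5134.Lip

open MeasureTheory
open scoped ENNReal

variable {d : ℕ}

private lemma K3_ball_int (hd : 1 ≤ d) {γ : ℝ} (hγ : 0 < γ) {R : ℝ} (hR : 0 < R) :
    Integrable ((Metric.ball (0 : V d) R).indicator fun x => ‖x‖ ^ (γ - d)) := by
  have : Nonempty (Fin d) := ⟨⟨0, by omega⟩⟩
  have : Nontrivial (V d) := inferInstance
  rw [integrable_indicator_iff Metric.isOpen_ball.measurableSet,
    integrableOn_fun_norm_addHaar volume (f := fun t : ℝ => t ^ (γ - d)), Module.finrank_fin_fun]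
  have h1 : IntegrableOn (fun x : ℝ => x ^ (γ - 1)) (Set.Ioo 0 R) := by
    have h2 := (intervalIntegral.intervalIntegrable_rpow' (a := 0) (b := R)
      (show (-1 : ℝ) < γ - 1 by linarith))
    rw [intervalIntegrable_iff_integrableOn_Ioc_of_le hR.le] at h2
    exact h2.mono_set Set.Ioo_subset_Ioc_self
  refine h1.congr_fun ?_ measurableSet_Ioo
  intro x hx
  simp only [smul_eq_mul]
  rw [← Real.rpow_natCast, ← Real.rpow_add hx.1]
  congr 1
  have : ((d - 1 : ℕ) : ℝ) = (d : ℝ) - 1 := by
    rw [Nat.cast_sub hd]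
    simp
  rw [this]
  ring

private lemma K3_ball_integral (hd : 1 ≤ d) {γ : ℝ} (hγ : 0 < γ) {R : ℝ} (hR : 0 < R) :
    ∫ x, (Metric.ball (0 : V d) R).indicator (fun x => ‖x‖ ^ (γ - d)) x =
      (d * (volume.real (Metric.ball (0 : V d) 1)) / γ) * R ^ γ := by
  have : Nonempty (Fin d) := ⟨⟨0, by omega⟩⟩
  have : Nontrivial (V d) := inferInstance
  have h1 : ∀ x : V d, (Metric.ball (0 : V d) R).indicator (fun x => ‖x‖ ^ (γ - d)) x =
      (Set.Iio R).indicator (fun t : ℝ => t ^ (γ - d)) ‖x‖ := by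
    intro x
    by_cases hx : ‖x‖ < R
    · rw [Set.indicator_of_mem (by simpa using hx), Set.indicator_of_mem (by simpa using hx)]
    · rw [Set.indicator_of_notMem (by simpa using hx), Set.indicator_of_notMem (by simpa using hx)]
  simp_rw [h1]
  rw [integral_fun_norm_addHaar volume ((Set.Iio R).indicator fun t : ℝ => t ^ (γ - d)),
    Module.finrank_fin_fun]
  have h2 : ∫ y in Set.Ioi (0 : ℝ), y ^ (d - 1) • (Set.Iio R).indicator (fun t : ℝ => t ^ (γ - d)) y =
      ∫ y in (0 : ℝ)..R, y ^ (γ - 1) := by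
    rw [intervalIntegral.integral_of_le hR.le, integral_Ioc_eq_integral_Ioo,
      ← integral_indicator measurableSet_Ioi, ← integral_indicator measurableSet_Ioo]
    congr 1
    funext y
    by_cases hy : 0 < y
    · by_cases hyR : y < R
      · rw [Set.indicator_of_mem (show y ∈ Set.Ioi (0 : ℝ) from hy),
          Set.indicator_of_mem (show y ∈ Set.Iio R from hyR),
          Set.indicator_of_mem (show y ∈ Set.Ioo 0 R from ⟨hy, hyR⟩), smul_eq_mul,
          ← Real.rpow_natCast, ← Real.rpow_add hy]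
        congr 1
        have : ((d - 1 : ℕ) : ℝ) = (d : ℝ) - 1 := by
          rw [Nat.cast_sub hd]
          simp
        rw [this]
        ring
      · rw [Set.indicator_of_mem (show y ∈ Set.Ioi (0 : ℝ) from hy),
          Set.indicator_of_notMem (show y ∉ Set.Iio R from hyR),
          Set.indicator_of_notMem (show y ∉ Set.Ioo 0 R from fun h => hyR h.2), smul_zero]
    · rw [Set.indicator_of_notMem (show y ∉ Set.Ioi (0 : ℝ) from hy),
        Set.indicator_of_notMem (show y ∉ Set.Ioo 0 R from fun h => hy h.1)]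
  rw [h2, integral_rpow (Or.inl (by linarith)), nsmul_eq_mul, smul_eq_mul, sub_add_cancel,
    Real.zero_rpow hγ.ne', sub_zero]
  field_simp

theorem riesz (hd : 1 ≤ d) {γ : ℝ} (hγ : 0 < γ) (hγd : γ < d) :
    ∃ C : ℝ, 0 < C ∧ ∀ E : Set (V d), MeasurableSet E → volume E ≠ ⊤ → ∀ y : V d,
      IntegrableOn (fun z => ‖y - z‖ ^ (γ - d)) E ∧
      ∫ z in E, ‖y - z‖ ^ (γ - d) ≤ C * (volume E).toReal ^ (γ / d) := by
  have hd' : (0 : ℝ) < d := by exact_mod_cast hd
  have hK : 0 ≤ d * (volume.real (Metric.ball (0 : V d) 1)) / γ := by positivity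
  refine ⟨d * (volume.real (Metric.ball (0 : V d) 1)) / γ + 1, by positivity, ?_⟩
  intro E hE hfin y
  by_cases hv : volume E = 0
  · have h1 : (volume : Measure (V d)).restrict E = 0 := Measure.restrict_eq_zero.2 hv
    refine ⟨?_, ?_⟩
    · unfold IntegrableOn
      rw [h1]
      exact integrable_zero_measure
    · rw [h1, integral_zero_measure, hv]
      simp only [ENNReal.toReal_zero]
      exact mul_nonneg (by positivity) (Real.rpow_nonneg le_rfl _)
  have hvpos : 0 < (volume E).toReal := ENNReal.toReal_pos hv hfin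
  set v := (volume E).toReal with hvdef
  set R : ℝ := v ^ (1 / (d : ℝ)) with hRdef
  have hR : 0 < R := Real.rpow_pos_of_pos hvpos _
  have hRd : R ^ (d : ℝ) = v := by
    rw [hRdef, ← Real.rpow_mul hvpos.le, one_div, inv_mul_cancel₀ hd'.ne', Real.rpow_one]
  set hb : V d → ℝ := (Metric.ball (0 : V d) R).indicator fun x => ‖x‖ ^ (γ - d) with hbdef
  have hbi : Integrable hb := K3_ball_int hd hγ hR
  have hb0 : ∀ x, 0 ≤ hb x := fun x => Set.indicator_nonneg
    (fun x _ => Real.rpow_nonneg (norm_nonneg _) _) x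
  have hbi' : Integrable fun z => hb (y - z) := hbi.comp_sub_left y
  have hc : IntegrableOn (fun _ : V d => R ^ (γ - d)) E := by
    rw [integrableOn_const_iff]
    exact Or.inr (lt_top_iff_ne_top.2 hfin)
  have hpt : ∀ z, ‖y - z‖ ^ (γ - d) ≤ hb (y - z) + R ^ (γ - d) := by
    intro z
    by_cases hz : ‖y - z‖ < R
    · have h1 : hb (y - z) = ‖y - z‖ ^ (γ - d) := by
        rw [hbdef, Set.indicator_of_mem (by simpa using hz)]
      rw [h1]
      have := Real.rpow_nonneg hR.le (γ - d)
      linarith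
    · have h1 : ‖y - z‖ ^ (γ - d) ≤ R ^ (γ - d) :=
        Real.rpow_le_rpow_of_nonpos hR (not_lt.1 hz) (by linarith)
      have := hb0 (y - z)
      linarith
  have hmeas : Measurable fun z : V d => ‖y - z‖ ^ (γ - d) :=
    (measurable_const.sub measurable_id).norm.pow_const _
  have hsum : IntegrableOn (fun z => hb (y - z) + R ^ (γ - d)) E :=
    hbi'.integrableOn.add hc
  have hint : IntegrableOn (fun z => ‖y - z‖ ^ (γ - d)) E := by
    refine hsum.mono' hmeas.aestronglyMeasurable (Filter.Eventually.of_forall fun z => ?_)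
    rw [Real.norm_eq_abs, abs_of_nonneg (Real.rpow_nonneg (norm_nonneg _) _)]
    exact hpt z
  refine ⟨hint, ?_⟩
  calc ∫ z in E, ‖y - z‖ ^ (γ - d) ≤ ∫ z in E, (hb (y - z) + R ^ (γ - d)) :=
        integral_mono hint hsum hpt
    _ = (∫ z in E, hb (y - z)) + ∫ z in E, R ^ (γ - d) := integral_add hbi'.integrableOn hc
    _ ≤ (∫ z, hb (y - z)) + v * R ^ (γ - d) := by
        refine add_le_add (setIntegral_le_integral hbi'
          (Filter.Eventually.of_forall fun z => hb0 _)) (le_of_eq ?_)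
        rw [setIntegral_const, smul_eq_mul]
        rfl
    _ = (d * (volume.real (Metric.ball (0 : V d) 1)) / γ) * R ^ γ + R ^ γ := by
        rw [integral_sub_left_eq_self hb volume y, hbdef, K3_ball_integral hd hγ hR]
        congr 1
        rw [← hRd, ← Real.rpow_add hR]
        congr 1
        ring
    _ = (d * (volume.real (Metric.ball (0 : V d) 1)) / γ + 1) * v ^ (γ / d) := by
        have h1 : R ^ γ = v ^ (γ / d) := by
          rw [hRdef, ← Real.rpow_mul hvpos.le]
          congr 1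
          ring
        rw [h1]
        ring

end Pool.Agent.MPac5134.Lip
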