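import Pool.Agent.Lib.MP_ac5134_an.Lip.K1

/-! LIP-K4 (difference of the kernel).  Est. 0.7 h.  Uses K1.

`|K(y) - K(y')| ≤ C ‖y-y'‖^β (‖y‖^(1-d-β) + ‖y'‖^(1-d-β))`, `C = C(d)`, uniformly in `ρ > 0`.

PROOF.  By symmetry let `‖y‖ ≤ ‖y'‖`.
Case 1: `‖y - y'‖ ≥ ‖y‖/2`.  Then `‖y‖ ≤ 2 ‖y-y'‖`, `‖y'‖ ≤ ‖y‖ + ‖y-y'‖ ≤ 3 ‖y-y'‖`.  By K1,
`|K(y)| ≤ ‖y‖^(1-d)`.  If `y ≠ 0` this is `‖y‖^β ‖y‖^(1-d-β) ≤ 3^β ‖y-y'‖^β ‖y‖^(1-d-β)`; if `y = 0`
then `K(y) = 0` and the right side is nonnegative.  The same for `y'`.  (`3^β ≤ 3`.)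
Case 2: `‖y - y'‖ < ‖y‖/2` (so `y ≠ 0`, `y' ≠ 0`).  On the segment from `y` to `y'` (a convex set) every
point `z` has `‖z‖ ≥ ‖y‖/2`, and by K1 all partial derivatives of `K` at `z` are
`≤ (d+1) (‖y‖/2)^(-d)`, so `‖fderiv K z‖ ≤ d (d+1) (‖y‖/2)^(-d)` (operator norm w.r.t. the sup norm:
`fderiv K z v = ∑_l v_l pd K l z`), and by the mean value inequality
(`Convex.norm_image_sub_le_of_norm_fderiv_le`)
`|K(y)-K(y')| ≤ d(d+1) 2^d ‖y‖^(-d) ‖y-y'‖ = d(d+1) 2^d ‖y‖^(-d) ‖y-y'‖^β ‖y-y'‖^(1-β)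
 ≤ d(d+1) 2^d ‖y-y'‖^β ‖y‖^(-d) ‖y‖^(1-β)`. -/

namespace Pool.Agent.MPac5134.Lip

open MeasureTheory
open scoped ENNReal

variable {d : ℕ}

/-- the operator norm of the derivative is at most `d` times the bound of the partial derivatives -/
theorem norm_fderiv_le_of_pd {u : V d → ℝ} {x : V d} {B : ℝ} (hB : 0 ≤ B)
    (h : ∀ j, |pd u j x| ≤ B) : ‖fderiv ℝ u x‖ ≤ d * B := by
  refine ContinuousLinearMap.opNorm_le_bound _ (by positivity) fun v => ?_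
  have h1 : (fderiv ℝ u x) v = ∑ l, v l * pd u l x := by
    conv_lhs => rw [← Finset.univ_sum_single v]
    rw [map_sum]
    refine Finset.sum_congr rfl fun l _ => ?_
    have h2 : (Pi.single l (v l) : V d) = v l • Pi.single l (1 : ℝ) := by
      rw [← Pi.single_smul, smul_eq_mul, mul_one]
    rw [h2, map_smul, smul_eq_mul]
    rfl
  rw [h1]
  calc ‖∑ l, v l * pd u l x‖ ≤ ∑ l, ‖v l * pd u l x‖ := norm_sum_le _ _
    _ ≤ ∑ _l : Fin d, ‖v‖ * B := by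
        refine Finset.sum_le_sum fun l _ => ?_
        rw [norm_mul]
        exact mul_le_mul (norm_le_pi_norm v l) (h l) (norm_nonneg _) (norm_nonneg _)
    _ = d * B * ‖v‖ := by
        rw [Finset.sum_const, Finset.card_univ, Fintype.card_fin, nsmul_eq_mul]
        ring

private lemma K4_one (hd : 2 ≤ d) {β ρ : ℝ} (hβ : 0 ≤ β) (hβ1 : β ≤ 1) (hρ : 0 < ρ) (j : Fin d)
    (z : V d) {n : ℝ} (hn : 0 ≤ n) (hz : ‖z‖ ≤ 3 * n) :
    |ker ρ j z| ≤ 3 * n ^ β * ‖z‖ ^ (1 - (d : ℝ) - β) := by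
  by_cases h0 : z = 0
  · subst h0
    simp only [ker, Pi.zero_apply, zero_mul, abs_zero, norm_zero]
    have h1 : 0 ≤ n ^ β := Real.rpow_nonneg hn _
    have h2 : 0 ≤ (0 : ℝ) ^ (1 - (d : ℝ) - β) := Real.rpow_nonneg le_rfl _
    positivity
  · have hz0 := norm_pos_iff.2 h0
    have h1 : 0 ≤ n ^ β := Real.rpow_nonneg hn _
    calc |ker ρ j z| ≤ ‖z‖ ^ (1 - (d : ℝ)) := abs_ker_le hd hρ j z
      _ = ‖z‖ ^ β * ‖z‖ ^ (1 - (d : ℝ) - β) := by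
          rw [← Real.rpow_add hz0]
          congr 1
          ring
      _ ≤ (3 * n) ^ β * ‖z‖ ^ (1 - (d : ℝ) - β) := by
          refine mul_le_mul_of_nonneg_right ?_ (Real.rpow_nonneg hz0.le _)
          exact Real.rpow_le_rpow hz0.le hz hβ
      _ = 3 ^ β * n ^ β * ‖z‖ ^ (1 - (d : ℝ) - β) := by
          rw [Real.mul_rpow (by norm_num) hn]
      _ ≤ 3 * n ^ β * ‖z‖ ^ (1 - (d : ℝ) - β) := by
          refine mul_le_mul_of_nonneg_right ?_ (Real.rpow_nonneg hz0.le _)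
          refine mul_le_mul_of_nonneg_right ?_ h1
          calc (3 : ℝ) ^ β ≤ 3 ^ (1 : ℝ) :=
                Real.rpow_le_rpow_of_exponent_le (by norm_num) hβ1
            _ = 3 := Real.rpow_one 3

private lemma K4_aux (hd : 2 ≤ d) {β ρ : ℝ} (hβ : 0 ≤ β) (hβ1 : β ≤ 1) (hρ : 0 < ρ) (j : Fin d)
    (y y' : V d) (hyy : ‖y‖ ≤ ‖y'‖) :
    |ker ρ j y - ker ρ j y'| ≤
      (d * (d + 1) * 2 ^ (d : ℝ)) * ‖y - y'‖ ^ β *
        (‖y‖ ^ (1 - (d : ℝ) - β) + ‖y'‖ ^ (1 - (d : ℝ) - β)) := by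
  have hd2 : (2 : ℝ) ≤ d := by exact_mod_cast hd
  have hp : (1 : ℝ) ≤ 2 ^ (d : ℝ) := Real.one_le_rpow (by norm_num) (by linarith)
  have hC : (3 : ℝ) ≤ d * (d + 1) * 2 ^ (d : ℝ) := by
    have h6 : (6 : ℝ) ≤ d * (d + 1) := by nlinarith
    nlinarith
  have hn : 0 ≤ ‖y - y'‖ := norm_nonneg _
  have hnβ : 0 ≤ ‖y - y'‖ ^ β := Real.rpow_nonneg hn _
  have ha : 0 ≤ ‖y‖ ^ (1 - (d : ℝ) - β) := Real.rpow_nonneg (norm_nonneg _) _
  have hb : 0 ≤ ‖y'‖ ^ (1 - (d : ℝ) - β) := Real.rpow_nonneg (norm_nonneg _) _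
  by_cases hc : ‖y‖ / 2 ≤ ‖y - y'‖
  · have h1 := K4_one hd hβ hβ1 hρ j y hn (by linarith)
    have h2 : ‖y'‖ ≤ ‖y‖ + ‖y - y'‖ := by
      have := norm_sub_norm_le y' y
      rw [norm_sub_rev] at this
      linarith
    have h3 := K4_one hd hβ hβ1 hρ j y' hn (by linarith)
    calc |ker ρ j y - ker ρ j y'| ≤ |ker ρ j y| + |ker ρ j y'| := abs_sub _ _
      _ ≤ 3 * ‖y - y'‖ ^ β * (‖y‖ ^ (1 - (d : ℝ) - β) + ‖y'‖ ^ (1 - (d : ℝ) - β)) := by
          rw [mul_add]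
          exact add_le_add h1 h3
      _ ≤ _ := by
          refine mul_le_mul_of_nonneg_right ?_ (by positivity)
          exact mul_le_mul_of_nonneg_right hC hnβ
  · push Not at hc
    have hy : 0 < ‖y‖ := by linarith
    have hball : ∀ z ∈ Metric.closedBall y ‖y - y'‖, ‖y‖ / 2 ≤ ‖z‖ := by
      intro z hz
      have h1 : ‖z - y‖ ≤ ‖y - y'‖ := by simpa [dist_eq_norm] using hz
      have h2 := norm_sub_norm_le y z
      rw [norm_sub_rev] at h2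
      linarith
    have hmv : ‖ker ρ j y' - ker ρ j y‖ ≤ (d * ((d + 1) * (‖y‖ / 2) ^ (-(d : ℝ)))) * ‖y' - y‖ := by
      refine Convex.norm_image_sub_le_of_norm_fderiv_le (𝕜 := ℝ)
        (s := Metric.closedBall y ‖y - y'‖) ?_ ?_ (convex_closedBall _ _) ?_ ?_
      · intro z _
        exact ((ker_contDiff hρ j).differentiable (by norm_num)).differentiableAt
      · intro z hz
        have hz2 := hball z hz
        have hz0 : z ≠ 0 := by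
          rintro rfl
          rw [norm_zero] at hz2
          linarith
        refine norm_fderiv_le_of_pd (by positivity) fun m => ?_
        refine (abs_pd_ker_le_norm hρ j m hz0).trans ?_
        refine mul_le_mul_of_nonneg_left ?_ (by positivity)
        exact Real.rpow_le_rpow_of_nonpos (by positivity) hz2 (by linarith)
      · exact Metric.mem_closedBall_self hn
      · rw [Metric.mem_closedBall, dist_eq_norm, norm_sub_rev]
    have h1 : (‖y‖ / 2) ^ (-(d : ℝ)) = 2 ^ (d : ℝ) * ‖y‖ ^ (-(d : ℝ)) := by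
      rw [div_eq_mul_inv, Real.mul_rpow hy.le (by norm_num), Real.inv_rpow (by norm_num),
        Real.rpow_neg (by norm_num : (0 : ℝ) ≤ 2), inv_inv]
      ring
    have h2 : ‖y - y'‖ ≤ ‖y - y'‖ ^ β * ‖y‖ ^ (1 - β) := by
      rcases hn.eq_or_lt with h0 | h0
      · rw [← h0]
        exact mul_nonneg (Real.rpow_nonneg le_rfl _) (Real.rpow_nonneg hy.le _)
      · calc ‖y - y'‖ = ‖y - y'‖ ^ β * ‖y - y'‖ ^ (1 - β) := by
              rw [← Real.rpow_add h0]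
              simp
          _ ≤ _ := by
              refine mul_le_mul_of_nonneg_left ?_ hnβ
              exact Real.rpow_le_rpow hn (by linarith) (by linarith)
    have h3 : ‖y‖ ^ (-(d : ℝ)) * ‖y‖ ^ (1 - β) = ‖y‖ ^ (1 - (d : ℝ) - β) := by
      rw [← Real.rpow_add hy]
      congr 1
      ring
    have hyd : 0 ≤ ‖y‖ ^ (-(d : ℝ)) := Real.rpow_nonneg hy.le _
    calc |ker ρ j y - ker ρ j y'| = ‖ker ρ j y' - ker ρ j y‖ := by
          rw [Real.norm_eq_abs, abs_sub_comm]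
      _ ≤ (d * ((d + 1) * (‖y‖ / 2) ^ (-(d : ℝ)))) * ‖y' - y‖ := hmv
      _ = (d * (d + 1) * 2 ^ (d : ℝ)) * ‖y‖ ^ (-(d : ℝ)) * ‖y - y'‖ := by
          rw [h1, norm_sub_rev]
          ring
      _ ≤ (d * (d + 1) * 2 ^ (d : ℝ)) * ‖y‖ ^ (-(d : ℝ)) * (‖y - y'‖ ^ β * ‖y‖ ^ (1 - β)) := by
          refine mul_le_mul_of_nonneg_left h2 ?_
          positivity
      _ = (d * (d + 1) * 2 ^ (d : ℝ)) * ‖y - y'‖ ^ β * ‖y‖ ^ (1 - (d : ℝ) - β) := by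
          rw [← h3]
          ring
      _ ≤ _ := by
          refine mul_le_mul_of_nonneg_left (by linarith) ?_
          positivity

theorem ker_diff (hd : 2 ≤ d) : ∃ C : ℝ, 0 < C ∧ ∀ (β ρ : ℝ), 0 ≤ β → β ≤ 1 → 0 < ρ →
    ∀ (j : Fin d) (y y' : V d),
      |ker ρ j y - ker ρ j y'| ≤
        C * ‖y - y'‖ ^ β * (‖y‖ ^ (1 - (d : ℝ) - β) + ‖y'‖ ^ (1 - (d : ℝ) - β)) := by
  have hd0 : (0 : ℝ) < d := by
    have : 0 < d := by omega
    exact_mod_cast this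
  refine ⟨d * (d + 1) * 2 ^ (d : ℝ), by positivity, ?_⟩
  intro β ρ hβ hβ1 hρ j y y'
  rcases le_total ‖y‖ ‖y'‖ with h | h
  · exact K4_aux hd hβ hβ1 hρ j y y' h
  · rw [abs_sub_comm, norm_sub_rev, add_comm (‖y‖ ^ _)]
    exact K4_aux hd hβ hβ1 hρ j y' y h

end Pool.Agent.MPac5134.Lip
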