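import Pool.Agent.Lib.MP_ac5134_an.Lip.K1
import Pool.Agent.Lib.MP_ac5134_an.Lip.K2

/-! LIP-K5 (calculus of the field `ψ = K_ρ * 1_E`).  Est. 0.8 h.  Uses K1, K2.

PROOF.  `fld ρ E j y = ∫_{z ∈ E} ker ρ j (y - z)`, `|E| < ∞`.  `ker` is bounded (`|y_j| Q^(-d/2)`: for the
integrability use continuity and `|ker ρ j y| ≤ ρ^(1-d)`: `|y_j| ≤ Q^(1/2)`, `Q^(1/2-d/2) ≤ ρ^(1-d)`, `d ≥ 1`),
its derivative is bounded (`abs_pd_ker_le`; operator norm `≤ d (d+1) ρ^(-d)`) and continuous.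
Differentiate under the integral sign: `hasFDerivAt_integral_of_dominated_of_fderiv_le` with a constant
bound (integrable because `|E| < ∞`), so `fderiv (fld ρ E j) y = ∫_{z ∈ E} fderiv (ker ρ j) (y - z)`;
the derivative is continuous by `continuous_of_dominated` (or `MeasureTheory.continuous_of_dominated`), so
`contDiff_one_iff_fderiv`.  Evaluate at `Pi.single m 1`
(`ContinuousLinearMap.integral_apply`): `pd (fld ρ E j) m y = ∫_{z ∈ E} pd (ker ρ j) m (y - z)`.
Sum `j = m`: `∑_j pd (fld ρ E j) j y = ∫_{z∈E} dker ρ (y - z)` by `ker_div` (and `integral_finsetSum`).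
Bounds: `dker ≥ 0` and `∫ dker ρ (y - z) dz = kap d` (`integral_sub_left_eq_self`), monotonicity of the set
integral of nonnegative functions (`setIntegral_mono_set`), and
`closedBall y R ⊆ E` gives `∫_{z∈E} dker ρ (y-z) ≥ ∫_{z ∈ closedBall y R} dker ρ (y - z)
= ∫_{closedBall 0 R} dker ρ` (change of variables `z ↦ y - z`). -/

namespace Pool.Agent.MPac5134.Lip

open MeasureTheory
open scoped ENNReal

variable {d : ℕ}

private theorem k5_opNorm_le (L : V d →L[ℝ] ℝ) : ‖L‖ ≤ ∑ m, |L (Pi.single m 1)| := by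
  refine L.opNorm_le_bound (Finset.sum_nonneg fun _ _ => abs_nonneg _) fun v => ?_
  have h1 : v = ∑ m, v m • (Pi.single m (1 : ℝ) : V d) := by
    funext i
    simp [Finset.sum_apply, Pi.single_apply]
  have h2 : L v = ∑ m, v m * L (Pi.single m 1) := by
    conv_lhs => rw [h1]
    rw [map_sum]
    simp [smul_eq_mul]
  rw [h2, Finset.sum_mul]
  refine (Finset.abs_sum_le_sum_abs _ _).trans (Finset.sum_le_sum fun m _ => ?_)
  rw [abs_mul, mul_comm]
  exact mul_le_mul_of_nonneg_left (norm_le_pi_norm v m) (abs_nonneg _)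

/-- bound of the derivative of the kernel -/
private theorem k5_fderiv_le {ρ : ℝ} (hρ : 0 < ρ) (j : Fin d) (y : V d) :
    ‖fderiv ℝ (ker ρ j) y‖ ≤ d * ((d + 1) * ρ ^ (-(d : ℝ))) := by
  refine (k5_opNorm_le _).trans ?_
  calc ∑ m, |fderiv ℝ (ker ρ j) y (Pi.single m 1)|
      ≤ ∑ _m : Fin d, ((d + 1) * ρ ^ (-(d : ℝ))) :=
        Finset.sum_le_sum fun m _ => abs_pd_ker_le hρ j m y
    _ = d * ((d + 1) * ρ ^ (-(d : ℝ))) := by simp

/-- bound of the kernel -/
private theorem k5_ker_le (hd : 1 ≤ d) {ρ : ℝ} (hρ : 0 < ρ) (j : Fin d) (y : V d) :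
    |ker ρ j y| ≤ (ρ ^ 2) ^ ((1 : ℝ) / 2 + -(d : ℝ) / 2) := by
  have hQ : ρ ^ 2 ≤ ∑ i, y i ^ 2 + ρ ^ 2 := by
    have : 0 ≤ ∑ i, y i ^ 2 := Finset.sum_nonneg fun i _ => sq_nonneg _
    linarith
  have hρ2 : 0 < ρ ^ 2 := by positivity
  have hQ0 : 0 < ∑ i, y i ^ 2 + ρ ^ 2 := hρ2.trans_le hQ
  have hy : |y j| ≤ (∑ i, y i ^ 2 + ρ ^ 2) ^ ((1 : ℝ) / 2) := by
    rw [← Real.sqrt_eq_rpow]
    apply Real.abs_le_sqrt
    have : y j ^ 2 ≤ ∑ i, y i ^ 2 :=
      Finset.single_le_sum (f := fun i => y i ^ 2) (fun i _ => sq_nonneg _) (Finset.mem_univ j)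
    linarith
  rw [ker, abs_mul, abs_of_pos (Real.rpow_pos_of_pos hQ0 _)]
  calc |y j| * (∑ i, y i ^ 2 + ρ ^ 2) ^ (-(d : ℝ) / 2)
      ≤ (∑ i, y i ^ 2 + ρ ^ 2) ^ ((1 : ℝ) / 2) * (∑ i, y i ^ 2 + ρ ^ 2) ^ (-(d : ℝ) / 2) :=
        mul_le_mul_of_nonneg_right hy (Real.rpow_nonneg hQ0.le _)
    _ = (∑ i, y i ^ 2 + ρ ^ 2) ^ ((1 : ℝ) / 2 + -(d : ℝ) / 2) := by
        rw [Real.rpow_add hQ0]
    _ ≤ (ρ ^ 2) ^ ((1 : ℝ) / 2 + -(d : ℝ) / 2) := by
        apply Real.rpow_le_rpow_of_nonpos hρ2 hQ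
        have : (1 : ℝ) ≤ d := by exact_mod_cast hd
        linarith

private theorem k5_ker_c1 {ρ : ℝ} (hρ : 0 < ρ) (j : Fin d) : ContDiff ℝ 1 (ker (d := d) ρ j) :=
  (ker_contDiff hρ j).of_le (by norm_num)

private theorem k5_fderiv_cont {ρ : ℝ} (hρ : 0 < ρ) (j : Fin d) :
    Continuous (fderiv ℝ (ker (d := d) ρ j)) := (k5_ker_c1 hρ j).continuous_fderiv (by norm_num)

private theorem k5_int_const {E : Set (V d)} (hEf : volume E ≠ ⊤) (c : ℝ) :
    Integrable (fun _ : V d => c) (volume.restrict E) := by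
  rw [integrable_const_iff]
  right
  rw [isFiniteMeasure_restrict]
  exact hEf

private theorem k5_int_fderiv {ρ : ℝ} (hρ : 0 < ρ) {E : Set (V d)} (hEf : volume E ≠ ⊤)
    (j : Fin d) (y : V d) :
    Integrable (fun z => fderiv ℝ (ker ρ j) (y - z)) (volume.restrict E) := by
  refine Integrable.mono' (k5_int_const hEf (d * ((d + 1) * ρ ^ (-(d : ℝ))))) ?_ ?_
  · exact ((k5_fderiv_cont hρ j).comp (continuous_const.sub continuous_id)).aestronglyMeasurable
  · exact Filter.Eventually.of_forall fun z => k5_fderiv_le hρ j (y - z)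

private theorem k5_hasFDerivAt (hd : 1 ≤ d) {ρ : ℝ} (hρ : 0 < ρ) {E : Set (V d)}
    (hEf : volume E ≠ ⊤) (j : Fin d) (y : V d) :
    HasFDerivAt (fld ρ E j) (∫ z in E, fderiv ℝ (ker ρ j) (y - z)) y := by
  have hcK : ∀ x : V d, AEStronglyMeasurable (fun z => ker ρ j (x - z)) (volume.restrict E) :=
    fun x => ((k5_ker_c1 hρ j).continuous.comp
      (continuous_const.sub continuous_id)).aestronglyMeasurable
  have h := hasFDerivAt_integral_of_dominated_of_fderiv_le (μ := volume.restrict E)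
    (F := fun y z => ker ρ j (y - z)) (F' := fun y z => fderiv ℝ (ker ρ j) (y - z)) (x₀ := y)
    (s := Set.univ) (bound := fun _ => d * ((d + 1) * ρ ^ (-(d : ℝ)))) Filter.univ_mem
    (Filter.Eventually.of_forall hcK) ?_ ?_ ?_ ?_ ?_
  · exact h
  · exact Integrable.mono' (k5_int_const hEf ((ρ ^ 2) ^ ((1 : ℝ) / 2 + -(d : ℝ) / 2))) (hcK y)
      (Filter.Eventually.of_forall fun z => k5_ker_le hd hρ j (y - z))
  · exact (k5_int_fderiv hρ hEf j y).aestronglyMeasurable
  · exact Filter.Eventually.of_forall fun z x _ => k5_fderiv_le hρ j (x - z)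
  · exact k5_int_const hEf _
  · refine Filter.Eventually.of_forall fun z x _ => ?_
    have h1 : HasFDerivAt (ker ρ j) (fderiv ℝ (ker ρ j) (x - z)) (x - z) :=
      ((k5_ker_c1 hρ j).differentiable (by norm_num) _).hasFDerivAt
    have h2 : HasFDerivAt (fun x : V d => x - z) (ContinuousLinearMap.id ℝ (V d)) x :=
      (hasFDerivAt_id x).sub_const z
    have h3 := HasFDerivAt.comp x h1 h2
    rwa [ContinuousLinearMap.comp_id] at h3

theorem fld_contDiff (hd : 1 ≤ d) {ρ : ℝ} (hρ : 0 < ρ) {E : Set (V d)} (hE : MeasurableSet E)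
    (hEf : volume E ≠ ⊤) (j : Fin d) : ContDiff ℝ 1 (fld ρ E j) := by
  rw [contDiff_one_iff_fderiv]
  refine ⟨fun y => (k5_hasFDerivAt hd hρ hEf j y).differentiableAt, ?_⟩
  have h1 : fderiv ℝ (fld ρ E j) = fun y => ∫ z in E, fderiv ℝ (ker ρ j) (y - z) :=
    funext fun y => (k5_hasFDerivAt hd hρ hEf j y).fderiv
  rw [h1]
  refine continuous_of_dominated (bound := fun _ => d * ((d + 1) * ρ ^ (-(d : ℝ)))) ?_ ?_ ?_ ?_
  · exact fun y => (k5_int_fderiv hρ hEf j y).aestronglyMeasurable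
  · exact fun y => Filter.Eventually.of_forall fun z => k5_fderiv_le hρ j (y - z)
  · exact k5_int_const hEf _
  · exact Filter.Eventually.of_forall fun z =>
      (k5_fderiv_cont hρ j).comp (continuous_id.sub continuous_const)

theorem fld_div (hd : 1 ≤ d) {ρ : ℝ} (hρ : 0 < ρ) {E : Set (V d)} (hE : MeasurableSet E)
    (hEf : volume E ≠ ⊤) (y : V d) :
    ∑ j, pd (fld ρ E j) j y = ∫ z in E, dker ρ (y - z) := by
  have h1 : ∀ j : Fin d, pd (fld ρ E j) j y = ∫ z in E, pd (ker ρ j) j (y - z) := by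
    intro j
    rw [pd, (k5_hasFDerivAt hd hρ hEf j y).fderiv,
      ContinuousLinearMap.integral_apply (k5_int_fderiv hρ hEf j y)]
    rfl
  rw [Finset.sum_congr rfl fun j _ => h1 j, ← integral_finsetSum]
  · refine integral_congr_ae (Filter.Eventually.of_forall fun z => ?_)
    exact ker_div hρ (y - z)
  · intro j _
    exact (k5_int_fderiv hρ hEf j y).apply_continuousLinearMap _

theorem fld_div_nonneg {ρ : ℝ} (E : Set (V d)) (y : V d) :
    0 ≤ ∫ z in E, dker ρ (y - z) := by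
  exact integral_nonneg fun z => dker_nonneg ρ (y - z)

theorem fld_div_le {ρ : ℝ} (hρ : 0 < ρ) (E : Set (V d)) (y : V d) :
    ∫ z in E, dker ρ (y - z) ≤ kap d := by
  have h1 : Integrable (fun z => dker ρ (y - z)) := (dker_integrable hρ).comp_sub_left y
  calc ∫ z in E, dker ρ (y - z) ≤ ∫ z, dker ρ (y - z) :=
        setIntegral_le_integral h1 (Filter.Eventually.of_forall fun z => dker_nonneg ρ (y - z))
    _ = ∫ z, dker ρ z := integral_sub_left_eq_self (fun z => dker ρ z) volume y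
    _ = kap d := integral_dker hρ

theorem le_fld_div {ρ : ℝ} (hρ : 0 < ρ) {E : Set (V d)} (hE : MeasurableSet E) {R : ℝ} (y : V d)
    (hy : Metric.closedBall y R ⊆ E) :
    ∫ z in Metric.closedBall (0 : V d) R, dker ρ z ≤ ∫ z in E, dker ρ (y - z) := by
  have h1 : Integrable (fun z => dker ρ (y - z)) := (dker_integrable hρ).comp_sub_left y
  have h2 : ∫ z in Metric.closedBall (0 : V d) R, dker ρ z =
      ∫ z in Metric.closedBall y R, dker ρ (y - z) := by
    rw [← integral_indicator Metric.isClosed_closedBall.measurableSet,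
      ← integral_indicator Metric.isClosed_closedBall.measurableSet,
      ← integral_sub_left_eq_self _ volume y]
    congr 1
    funext z
    by_cases hz : z ∈ Metric.closedBall y R
    · have hz' : y - z ∈ Metric.closedBall (0 : V d) R := by
        rw [Metric.mem_closedBall, dist_zero_right, ← dist_eq_norm, dist_comm]
        exact hz
      rw [Set.indicator_of_mem hz, Set.indicator_of_mem hz']
    · have hz' : y - z ∉ Metric.closedBall (0 : V d) R := by
        rw [Metric.mem_closedBall, dist_zero_right, ← dist_eq_norm, dist_comm]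
        exact hz
      rw [Set.indicator_of_notMem hz, Set.indicator_of_notMem hz']
  rw [h2]
  exact setIntegral_mono_set h1.integrableOn
    (Filter.Eventually.of_forall fun z => dker_nonneg ρ (y - z))
    (Filter.Eventually.of_forall hy)

end Pool.Agent.MPac5134.Lip
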