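import Pool.Agent.Lib.MP_ac5134_an.Lip.K3
import Pool.Agent.Lib.MP_ac5134_an.Lip.K4

/-! LIP-K6 (size and Hoelder bound of the field).  Est. 0.5 h.  Uses K1 (`abs_ker_le`), K3, K4.

PROOF.  `|fld ρ E j y| ≤ ∫_E ‖y-z‖^(1-d) dz ≤ C |E|^(1/d)` (K3 with `γ = 1 < d`).
`|fld ρ E j y - fld ρ E j y'| ≤ ∫_E |ker ρ j (y-z) - ker ρ j (y'-z)| dz
 ≤ C ‖y-y'‖^β (∫_E ‖y-z‖^(1-d-β) + ∫_E ‖y'-z‖^(1-d-β)) ≤ 2 C C' ‖y-y'‖^β |E|^((1-β)/d)`
(K4, then K3 with `γ = 1-β ∈ (0,1]`; note `(y-z) - (y'-z) = y - y'`).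
Integrability of `z ↦ ker ρ j (y - z)` on `E`: it is measurable and dominated by the integrable
`‖y-z‖^(1-d)` (K3). -/

namespace Pool.Agent.MPac5134.Lip

open MeasureTheory
open scoped ENNReal

variable {d : ℕ}

theorem fld_bounds (hd : 2 ≤ d) {β : ℝ} (hβ0 : 0 ≤ β) (hβ1 : β < 1) :
    ∃ C : ℝ, 0 < C ∧ ∀ (ρ : ℝ), 0 < ρ → ∀ E : Set (V d), MeasurableSet E → volume E ≠ ⊤ →
      ∀ j : Fin d, (∀ y, |fld ρ E j y| ≤ C * (volume E).toReal ^ (1 / (d : ℝ))) ∧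
      ∀ y y', |fld ρ E j y - fld ρ E j y'| ≤
        C * (volume E).toReal ^ ((1 - β) / d) * ‖y - y'‖ ^ β := by
  have hd2 : (2 : ℝ) ≤ d := by exact_mod_cast hd
  obtain ⟨C1, hC1, h1⟩ := riesz (d := d) (by omega) (γ := 1) one_pos (by linarith)
  obtain ⟨C2, hC2, h2⟩ := riesz (d := d) (by omega) (γ := 1 - β) (by linarith) (by linarith)
  obtain ⟨C3, hC3, h3⟩ := ker_diff hd
  refine ⟨C1 + 2 * (C3 * C2), by positivity, ?_⟩
  intro ρ hρ E hE hEt j
  have hmeas : ∀ y : V d, AEStronglyMeasurable (fun z => ker ρ j (y - z)) (volume.restrict E) := by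
    intro y
    exact ((ker_contDiff hρ j).continuous.comp
      (continuous_const.sub continuous_id)).aestronglyMeasurable
  have hint : ∀ y : V d, Integrable (fun z => ker ρ j (y - z)) (volume.restrict E) := by
    intro y
    refine Integrable.mono' (h1 E hE hEt y).1 (hmeas y) (Filter.Eventually.of_forall fun z => ?_)
    rw [Real.norm_eq_abs]
    exact abs_ker_le hd hρ j (y - z)
  have hv : 0 ≤ (volume E).toReal := ENNReal.toReal_nonneg
  constructor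
  · intro y
    unfold fld
    have h4 : ‖∫ z in E, ker ρ j (y - z)‖ ≤ ∫ z in E, ‖y - z‖ ^ (1 - (d : ℝ)) :=
      norm_integral_le_of_norm_le (h1 E hE hEt y).1 (Filter.Eventually.of_forall fun z => by
        rw [Real.norm_eq_abs]
        exact abs_ker_le hd hρ j (y - z))
    rw [Real.norm_eq_abs] at h4
    refine h4.trans ((h1 E hE hEt y).2.trans ?_)
    refine mul_le_mul_of_nonneg_right ?_ (Real.rpow_nonneg hv _)
    have : 0 ≤ C3 * C2 := by positivity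
    linarith
  · intro y y'
    have e : 1 - (d : ℝ) - β = 1 - β - d := by ring
    have hb : ∀ z, ‖ker ρ j (y - z) - ker ρ j (y' - z)‖
        ≤ C3 * ‖y - y'‖ ^ β * (‖y - z‖ ^ (1 - β - (d : ℝ)) + ‖y' - z‖ ^ (1 - β - (d : ℝ))) := by
      intro z
      have h4 := h3 β ρ hβ0 hβ1.le hρ j (y - z) (y' - z)
      rw [e, sub_sub_sub_cancel_right] at h4
      rw [Real.norm_eq_abs]
      exact h4
    obtain ⟨i1, b1⟩ := h2 E hE hEt y
    obtain ⟨i2, b2⟩ := h2 E hE hEt y'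
    have i3 : Integrable (fun z => C3 * ‖y - y'‖ ^ β *
        (‖y - z‖ ^ (1 - β - (d : ℝ)) + ‖y' - z‖ ^ (1 - β - (d : ℝ)))) (volume.restrict E) :=
      (i1.add i2).const_mul _
    have h5 : ‖∫ z in E, (ker ρ j (y - z) - ker ρ j (y' - z))‖ ≤ ∫ z in E, C3 * ‖y - y'‖ ^ β *
        (‖y - z‖ ^ (1 - β - (d : ℝ)) + ‖y' - z‖ ^ (1 - β - (d : ℝ))) :=
      norm_integral_le_of_norm_le i3 (Filter.Eventually.of_forall hb)
    rw [integral_sub (hint y) (hint y'), integral_const_mul, integral_add i1 i2,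
      Real.norm_eq_abs] at h5
    unfold fld
    refine h5.trans ?_
    have hn : 0 ≤ ‖y - y'‖ ^ β := Real.rpow_nonneg (norm_nonneg _) _
    have hvp : 0 ≤ (volume E).toReal ^ ((1 - β) / d) := Real.rpow_nonneg hv _
    calc C3 * ‖y - y'‖ ^ β * ((∫ z in E, ‖y - z‖ ^ (1 - β - (d : ℝ)))
          + ∫ z in E, ‖y' - z‖ ^ (1 - β - (d : ℝ)))
        ≤ C3 * ‖y - y'‖ ^ β * (C2 * (volume E).toReal ^ ((1 - β) / d)
          + C2 * (volume E).toReal ^ ((1 - β) / d)) :=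
          mul_le_mul_of_nonneg_left (add_le_add b1 b2) (by positivity)
      _ = (2 * (C3 * C2)) * (volume E).toReal ^ ((1 - β) / d) * ‖y - y'‖ ^ β := by ring
      _ ≤ _ := by
          refine mul_le_mul_of_nonneg_right (mul_le_mul_of_nonneg_right ?_ hvp) hn
          linarith

end Pool.Agent.MPac5134.Lip
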