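import Pool.Agent.Lib.MP_ac5134_an.Lip.Defs

/-! LIP-N1 (null Lagrangian, Piola identity).  Est. 1.0 h.

`∑_j ∂_j cof(u,k,j) = 0` for `C²` functions `u_i`.

PROOF.  (1) Expand the determinant: `det (updateRow M k (Pi.single j 1)) = ∑_σ sgn σ ∏_i (updateRow ..) i (σ i)`
(`Matrix.det_apply'` gives `∏ M (σ i) i`; use it on the transpose, `Matrix.det_transpose`, to get
`∏ M i (σ i)`).  The factor `i = k` is `1` if `σ k = j` and `0` otherwise, so
  `cof u k j x = ∑_{σ} if σ k = j then sgn σ * ∏_{i ∈ univ.erase k} pd (u i) (σ i) x else 0`.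
(2) `∑_j pd (cof u k j) j x = ∑_σ sgn σ * pd (fun y => ∏_{i ∈ univ.erase k} pd (u i) (σ i) y) (σ k) x`
  `= ∑_σ sgn σ ∑_{l ∈ univ.erase k} pd (pd (u l) (σ l)) (σ k) x * ∏_{i ∈ (univ.erase k).erase l} pd (u i) (σ i) x`
(product rule: `fderiv_finset_prod` or `HasFDerivAt.finset_prod`; each `pd (u i) j` is `C¹`, as `u i` is `C²`).
(3) Exchange the sums.  For fixed `l ≠ k` the involution `σ ↦ σ * Equiv.swap k l` changes the sign
(`Equiv.Perm.sign_mul`, `Equiv.Perm.sign_swap`), exchanges the values `σ k` and `σ l`, keeps `σ i` for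
`i ≠ k, l`, and `pd (pd (u l) a) b x = pd (pd (u l) b) a x` (symmetry of the second derivative:
`ContDiffAt.isSymmSndFDerivAt` / `second_derivative_symmetric`), so the sum over `σ` equals minus itself
(`Finset.sum_involution` or `Fintype.sum_equiv (Equiv.mulRight (Equiv.swap k l))`).
You may cut out further public lemmas.  Lemma `pd_contDiff` below is used by other modules too. -/

namespace Pool.Agent.MPac5134.Lip

open MeasureTheory
open scoped ENNReal

variable {d : ℕ}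

theorem pd_contDiff {u : V d → ℝ} (hu : ContDiff ℝ 2 u) (j : Fin d) : ContDiff ℝ 1 (pd u j) := by
  have h1 : ContDiff ℝ 1 (fderiv ℝ u) := hu.fderiv_right (by norm_num)
  exact h1.clm_apply contDiff_const

private theorem N1_pd_pd {u : V d → ℝ} (hu : ContDiff ℝ 2 u) (a b : Fin d) (x : V d) :
    pd (pd u a) b x = fderiv ℝ (fderiv ℝ u) x (Pi.single b 1) (Pi.single a 1) := by
  have h1 : ContDiff ℝ 1 (fderiv ℝ u) := hu.fderiv_right (by norm_num)
  have h2 : HasFDerivAt (fderiv ℝ u) (fderiv ℝ (fderiv ℝ u) x) x :=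
    (h1.differentiable (by norm_num) x).hasFDerivAt
  have h3 := h2.clm_apply (hasFDerivAt_const (Pi.single a (1 : ℝ) : V d) x)
  have h4 : pd (pd u a) b x = fderiv ℝ (fun y => fderiv ℝ u y (Pi.single a 1)) x
    (Pi.single b 1) := rfl
  rw [h4, h3.fderiv]
  simp

theorem pd_symm {u : V d → ℝ} (hu : ContDiff ℝ 2 u) (a b : Fin d) (x : V d) :
    pd (pd u a) b x = pd (pd u b) a x := by
  rw [N1_pd_pd hu, N1_pd_pd hu]
  have h : IsSymmSndFDerivAt ℝ u x := by
    refine (hu.contDiffAt (x := x)).isSymmSndFDerivAt ?_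
    simp
  exact h _ _

/-- the product in the expansion of the cofactor -/
private noncomputable def N1P (u : Fin d → V d → ℝ) (k : Fin d) (σ : Equiv.Perm (Fin d))
    (y : V d) : ℝ :=
  ∏ i ∈ Finset.univ.erase k, pd (u i) (σ i) y

private theorem N1_cof_eq (u : Fin d → V d → ℝ) (k j : Fin d) (x : V d) :
    cof u k j x = ∑ σ : Equiv.Perm (Fin d),
      if σ k = j then ((Equiv.Perm.sign σ : ℤ) : ℝ) * N1P u k σ x else 0 := by
  unfold cof
  rw [← Matrix.det_transpose, Matrix.det_apply']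
  refine Finset.sum_congr rfl fun σ _ => ?_
  have h1 : ∏ i, ((jmat u x).updateRow k (Pi.single j 1)).transpose (σ i) i =
      (if σ k = j then 1 else 0) * N1P u k σ x := by
    rw [← Finset.mul_prod_erase Finset.univ _ (Finset.mem_univ k)]
    congr 1
    · rw [Matrix.transpose_apply, Matrix.updateRow_self, Pi.single_apply]
    · unfold N1P
      refine Finset.prod_congr rfl fun i hi => ?_
      rw [Matrix.transpose_apply, Matrix.updateRow_ne (Finset.ne_of_mem_erase hi)]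
      rfl
  rw [h1]
  split_ifs <;> simp

private theorem N1P_contDiff {u : Fin d → V d → ℝ} {k : Fin d}
    (hu : ∀ i, i ≠ k → ContDiff ℝ 2 (u i)) (σ : Equiv.Perm (Fin d)) :
    ContDiff ℝ 1 (N1P u k σ) := by
  unfold N1P
  exact contDiff_prod fun i hi => pd_contDiff (hu i (Finset.ne_of_mem_erase hi)) (σ i)

theorem cof_contDiff (u : Fin d → V d → ℝ) (k : Fin d) (hu : ∀ i, i ≠ k → ContDiff ℝ 2 (u i))
    (j : Fin d) : ContDiff ℝ 1 (cof u k j) := by
  have h1 : cof u k j = fun x => ∑ σ : Equiv.Perm (Fin d),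
      if σ k = j then ((Equiv.Perm.sign σ : ℤ) : ℝ) * N1P u k σ x else 0 :=
    funext fun x => N1_cof_eq u k j x
  rw [h1]
  refine ContDiff.sum fun σ _ => ?_
  split_ifs
  · exact contDiff_const.mul (N1P_contDiff hu σ)
  · exact contDiff_const

private theorem N1_pd_cof (u : Fin d → V d → ℝ) (k : Fin d)
    (hu : ∀ i, i ≠ k → ContDiff ℝ 2 (u i)) (j : Fin d) (x : V d) :
    pd (cof u k j) j x = ∑ σ : Equiv.Perm (Fin d),
      if σ k = j then ((Equiv.Perm.sign σ : ℤ) : ℝ) * pd (N1P u k σ) j x else 0 := by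
  have h1 : cof u k j = fun x => ∑ σ : Equiv.Perm (Fin d),
      if σ k = j then ((Equiv.Perm.sign σ : ℤ) : ℝ) * N1P u k σ x else 0 :=
    funext fun x => N1_cof_eq u k j x
  have hd : ∀ σ : Equiv.Perm (Fin d), DifferentiableAt ℝ (N1P u k σ) x := fun σ =>
    (N1P_contDiff hu σ).differentiable (by norm_num) x
  have h2 : ∀ σ ∈ (Finset.univ : Finset (Equiv.Perm (Fin d))), HasFDerivAt
      (fun x => if σ k = j then ((Equiv.Perm.sign σ : ℤ) : ℝ) * N1P u k σ x else 0)
      (if σ k = j then ((Equiv.Perm.sign σ : ℤ) : ℝ) • fderiv ℝ (N1P u k σ) x else 0) x := by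
    intro σ _
    split_ifs
    · exact (hd σ).hasFDerivAt.const_mul _
    · exact hasFDerivAt_const _ _
  have h3 := HasFDerivAt.fun_sum h2
  unfold pd
  rw [h1, h3.fderiv, _root_.sum_apply]
  refine Finset.sum_congr rfl fun σ _ => ?_
  split_ifs
  · rfl
  · rfl

private theorem N1_pd_P (u : Fin d → V d → ℝ) (k : Fin d)
    (hu : ∀ i, i ≠ k → ContDiff ℝ 2 (u i)) (σ : Equiv.Perm (Fin d)) (b : Fin d) (x : V d) :
    pd (N1P u k σ) b x = ∑ l ∈ Finset.univ.erase k,
      (∏ i ∈ (Finset.univ.erase k).erase l, pd (u i) (σ i) x) * pd (pd (u l) (σ l)) b x := by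
  have h1 : ∀ i ∈ Finset.univ.erase k, HasFDerivAt (pd (u i) (σ i))
      (fderiv ℝ (pd (u i) (σ i)) x) x := fun i hi =>
    ((pd_contDiff (hu i (Finset.ne_of_mem_erase hi)) (σ i)).differentiable (by norm_num)
      x).hasFDerivAt
  have h2 := HasFDerivAt.finsetProd h1
  have h3 : pd (N1P u k σ) b x = fderiv ℝ (fun y => ∏ i ∈ Finset.univ.erase k,
    pd (u i) (σ i) y) x (Pi.single b 1) := rfl
  rw [h3, h2.fderiv, _root_.sum_apply]
  refine Finset.sum_congr rfl fun l _ => ?_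
  rfl

private theorem N1_zero (u : Fin d → V d → ℝ) (k : Fin d)
    (hu : ∀ i, i ≠ k → ContDiff ℝ 2 (u i)) (x : V d) {l : Fin d} (hl : l ≠ k) :
    ∑ σ : Equiv.Perm (Fin d), ((Equiv.Perm.sign σ : ℤ) : ℝ) *
      ((∏ i ∈ (Finset.univ.erase k).erase l, pd (u i) (σ i) x) *
        pd (pd (u l) (σ l)) (σ k) x) = 0 := by
  set T : Equiv.Perm (Fin d) → ℝ := fun σ => ((Equiv.Perm.sign σ : ℤ) : ℝ) *
      ((∏ i ∈ (Finset.univ.erase k).erase l, pd (u i) (σ i) x) *
        pd (pd (u l) (σ l)) (σ k) x) with hT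
  have h1 : ∀ σ, T (σ * Equiv.swap k l) = - T σ := by
    intro σ
    simp only [hT]
    rw [Equiv.Perm.sign_mul, Equiv.Perm.sign_swap hl.symm, Equiv.Perm.mul_apply,
      Equiv.Perm.mul_apply, Equiv.swap_apply_right, Equiv.swap_apply_left, pd_symm (hu l hl)]
    have h2 : ∏ i ∈ (Finset.univ.erase k).erase l, pd (u i) ((σ * Equiv.swap k l) i) x =
        ∏ i ∈ (Finset.univ.erase k).erase l, pd (u i) (σ i) x := by
      refine Finset.prod_congr rfl fun i hi => ?_
      have hil : i ≠ l := Finset.ne_of_mem_erase hi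
      have hik : i ≠ k := Finset.ne_of_mem_erase (Finset.mem_of_mem_erase hi)
      rw [Equiv.Perm.mul_apply, Equiv.swap_apply_of_ne_of_ne hik hil]
    rw [h2]
    push_cast
    ring
  have h3 : ∑ σ, T (σ * Equiv.swap k l) = ∑ σ, T σ :=
    Equiv.sum_comp (Equiv.mulRight (Equiv.swap k l)) T
  have h4 : ∑ σ, T (σ * Equiv.swap k l) = - ∑ σ, T σ := by
    rw [← Finset.sum_neg_distrib]
    exact Finset.sum_congr rfl fun σ _ => h1 σ
  have h5 : ∑ σ, T σ = 0 := by linarith
  exact h5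

theorem piola (u : Fin d → V d → ℝ) (k : Fin d) (hu : ∀ i, i ≠ k → ContDiff ℝ 2 (u i)) (x : V d) :
    ∑ j, pd (cof u k j) j x = 0 := by
  have h1 : ∑ j, pd (cof u k j) j x = ∑ σ : Equiv.Perm (Fin d),
      ((Equiv.Perm.sign σ : ℤ) : ℝ) * pd (N1P u k σ) (σ k) x := by
    simp only [N1_pd_cof u k hu]
    rw [Finset.sum_comm]
    refine Finset.sum_congr rfl fun σ _ => ?_
    rw [Finset.sum_ite_eq]
    simp
  rw [h1]
  have h2 : ∀ σ : Equiv.Perm (Fin d), ((Equiv.Perm.sign σ : ℤ) : ℝ) * pd (N1P u k σ) (σ k) x =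
      ∑ l ∈ Finset.univ.erase k, ((Equiv.Perm.sign σ : ℤ) : ℝ) *
        ((∏ i ∈ (Finset.univ.erase k).erase l, pd (u i) (σ i) x) *
          pd (pd (u l) (σ l)) (σ k) x) := by
    intro σ
    rw [N1_pd_P u k hu σ (σ k) x, Finset.mul_sum]
  rw [Finset.sum_congr rfl fun σ _ => h2 σ, Finset.sum_comm]
  refine Finset.sum_eq_zero fun l hl => ?_
  exact N1_zero u k hu x (Finset.ne_of_mem_erase hl)

end Pool.Agent.MPac5134.Lip
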