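import Pool.Agent.Lib.MP_ac5134_an.Lip.Defs

/-! LIP-N2 (linear algebra of the Jacobian).  Est. 0.7 h.

(a) `jdet (update u k v) x = ∑_j pd v j x * cof u k j x` (expansion along the row `k`).
(b) cofactors of row `k` do not see `u k`.
(c) chain rule: `(div ψ)(G x) * jdet G x = ∑_j jdet (update G j (ψ_j ∘ G)) x`.
(d) Hadamard-type bound: if the row `i` of the Jacobian matrix has entries `≤ B i` then `|jdet| ≤ d! ∏ B i`.

PROOF.  `jmat (update u k v) x = updateRow (jmat u x) k (fun j => pd v j x)` (ext, by_cases i = k).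
(a) `det (updateRow M k b) = ∑_j b j * det (updateRow M k (Pi.single j 1))`: write
`b = ∑_j b j • Pi.single j 1` and use linearity in the row (`Matrix.det_updateRow_sum`,
`Matrix.det_updateRow_smul`; or `Matrix.cramer_transpose_apply` with `Matrix.cramer_apply`/`map_sum`;
or `Matrix.detRowAlternating.toMultilinearMap.map_update_sum`).
(b) `updateRow (jmat (update u k v) x) k b = updateRow (jmat u x) k b` (`Matrix.updateRow_idem`, or ext).
(c) chain rule: `pd (ψ_j ∘ G) m x = ∑_l pd (ψ_j) l (G x) * pd (G l) m x`, where `G x` is the vector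
`fun i => G i x` (fderiv_comp, `fderiv_pi`, and write the vector `fun l => pd (G l) m x` as
`∑_l pd (G l) m x • Pi.single l 1`).  So row `j` of `jmat (update G j (ψ_j ∘ G)) x` is
`∑_l pd (ψ_j) l (G x) • row l of jmat G x`, and
`det (updateRow M j (∑_l c_l • M l)) = c_j * det M` (`Matrix.det_updateRow_sum` of Mathlib states
exactly this: `(A.updateRow j (∑ k, c k • A k)).det = c j • A.det`).
(d) `Matrix.det_apply`, `abs_sum_le`, `|sign| = 1`, `card (Perm (Fin d)) = d!`. -/

namespace Pool.Agent.MPac5134.Lip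

open MeasureTheory
open scoped ENNReal

variable {d : ℕ}

private theorem N2_jmat_update (u : Fin d → V d → ℝ) (k : Fin d) (v : V d → ℝ) (x : V d) :
    jmat (Function.update u k v) x = (jmat u x).updateRow k (fun j => pd v j x) := by
  ext i j
  by_cases h : i = k
  · subst h
    simp [jmat, Matrix.updateRow_self]
  · simp [jmat, Matrix.updateRow_ne h, Function.update_of_ne h]

private theorem N2_det_updateRow_sum' {ι : Type*} (s : Finset ι) (M : Matrix (Fin d) (Fin d) ℝ)
    (k : Fin d) (c : ι → ℝ) (b : ι → Fin d → ℝ) :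
    (M.updateRow k (∑ i ∈ s, c i • b i)).det = ∑ i ∈ s, c i * (M.updateRow k (b i)).det := by
  classical
  induction s using Finset.induction_on with
  | empty =>
    simp only [Finset.sum_empty]
    exact Matrix.det_eq_zero_of_row_eq_zero k (by simp [Matrix.updateRow_self])
  | insert a s ha ih =>
    rw [Finset.sum_insert ha, Finset.sum_insert ha, Matrix.det_updateRow_add,
      Matrix.det_updateRow_smul, ih]

theorem jdet_update (u : Fin d → V d → ℝ) (k : Fin d) (v : V d → ℝ) (x : V d) :
    jdet (Function.update u k v) x = ∑ j, pd v j x * cof u k j x := by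
  unfold jdet cof
  rw [N2_jmat_update]
  have h : (fun j => pd v j x) = ∑ j, pd v j x • (Pi.single j (1 : ℝ) : Fin d → ℝ) := by
    ext l
    simp [Finset.sum_apply, Pi.single_apply]
  rw [h, N2_det_updateRow_sum']

theorem cof_update (u : Fin d → V d → ℝ) (k : Fin d) (v : V d → ℝ) (j : Fin d) (x : V d) :
    cof (Function.update u k v) k j x = cof u k j x := by
  unfold cof
  rw [N2_jmat_update]
  congr 1
  ext i l
  by_cases h : i = k
  · subst h
    simp [Matrix.updateRow_self]
  · simp [Matrix.updateRow_ne h]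

private theorem N2_pd_comp (G : Fin d → V d → ℝ) (f : V d → ℝ) (x : V d) (m : Fin d)
    (hG : ∀ i, DifferentiableAt ℝ (G i) x)
    (hf : DifferentiableAt ℝ f (fun l => G l x)) :
    pd (fun y => f (fun l => G l y)) m x = ∑ l, pd f l (fun l => G l x) * pd (G l) m x := by
  have h1 : HasFDerivAt (fun y => (fun l => G l y))
      (ContinuousLinearMap.pi fun l => fderiv ℝ (G l) x) x :=
    hasFDerivAt_pi.2 fun l => (hG l).hasFDerivAt
  have h2 := hf.hasFDerivAt.comp x h1
  have h3 : fderiv ℝ (fun y => f (fun l => G l y)) x =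
      (fderiv ℝ f (fun l => G l x)).comp (ContinuousLinearMap.pi fun l => fderiv ℝ (G l) x) :=
    h2.fderiv
  unfold pd
  rw [h3, ContinuousLinearMap.comp_apply]
  have h4 : (ContinuousLinearMap.pi fun l => fderiv ℝ (G l) x) (Pi.single m 1) =
      ∑ l, (fderiv ℝ (G l) x (Pi.single m 1)) • (Pi.single l (1 : ℝ) : Fin d → ℝ) := by
    ext l
    simp [Finset.sum_apply, Pi.single_apply]
  rw [h4, map_sum]
  refine Finset.sum_congr rfl fun l _ => ?_
  rw [map_smul, smul_eq_mul, mul_comm]

theorem jdet_chain (G ψ : Fin d → V d → ℝ) (x : V d) (hG : ∀ i, DifferentiableAt ℝ (G i) x)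
    (hψ : ∀ i, DifferentiableAt ℝ (ψ i) (fun l => G l x)) :
    (∑ j, pd (ψ j) j (fun l => G l x)) * jdet G x =
      ∑ j, jdet (Function.update G j (fun y => ψ j (fun l => G l y))) x := by
  rw [Finset.sum_mul]
  refine Finset.sum_congr rfl fun j _ => ?_
  unfold jdet
  rw [N2_jmat_update]
  have h : (fun m => pd (fun y => ψ j (fun l => G l y)) m x) =
      ∑ l, pd (ψ j) l (fun l => G l x) • (jmat G x) l := by
    ext m
    rw [N2_pd_comp G (ψ j) x m hG (hψ j)]
    simp [Finset.sum_apply, jmat]
  rw [h, Matrix.det_updateRow_sum, smul_eq_mul]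

theorem abs_jdet_le (u : Fin d → V d → ℝ) (x : V d) (B : Fin d → ℝ)
    (hB : ∀ i j, |pd (u i) j x| ≤ B i) : |jdet u x| ≤ d.factorial * ∏ i, B i := by
  unfold jdet
  rw [Matrix.det_apply']
  refine (Finset.abs_sum_le_sum_abs _ _).trans ?_
  have h : ∀ σ : Equiv.Perm (Fin d), |((Equiv.Perm.sign σ : ℤ) : ℝ) * ∏ i, jmat u x (σ i) i| ≤
      ∏ i, B i := by
    intro σ
    rw [abs_mul]
    have h1 : |((Equiv.Perm.sign σ : ℤ) : ℝ)| = 1 := by
      rcases Int.units_eq_one_or (Equiv.Perm.sign σ) with h | h <;> rw [h] <;> simp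
    rw [h1, one_mul, Finset.abs_prod, ← Equiv.prod_comp σ B]
    exact Finset.prod_le_prod (fun i _ => abs_nonneg _) fun i _ => by
      simpa [jmat] using hB (σ i) i
  refine (Finset.sum_le_sum fun σ _ => h σ).trans ?_
  rw [Finset.sum_const, Finset.card_univ, Fintype.card_perm, Fintype.card_fin, nsmul_eq_mul]

/-- if `χ` sits in the place `j` and `|∂χ| ≤ M` and the other rows are bounded by `Λ`. -/
theorem abs_jdet_update_le (u : Fin d → V d → ℝ) (χ : V d → ℝ) (x : V d) (j : Fin d) {M Λ : ℝ}
    (hΛ : ∀ i l, |pd (u i) l x| ≤ Λ) (hM : ∀ l, |pd χ l x| ≤ M) :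
    |jdet (Function.update u j χ) x| ≤ d.factorial * M * Λ ^ (d - 1) := by
  have h := abs_jdet_le (Function.update u j χ) x (Function.update (fun _ => Λ) j M) (by
    intro i l
    by_cases hi : i = j
    · subst hi
      simpa using hM l
    · simpa [Function.update_of_ne hi] using hΛ i l)
  refine h.trans (le_of_eq ?_)
  rw [Finset.prod_update_of_mem (Finset.mem_univ j)]
  rw [Finset.prod_const, Finset.card_sdiff_of_subset (by simp), Finset.card_univ,
    Fintype.card_fin, Finset.card_singleton]
  ring

/-- two rows replaced -/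
theorem abs_jdet_update_update_le (u : Fin d → V d → ℝ) (χ w : V d → ℝ) (x : V d) (j k : Fin d)
    (hjk : k ≠ j) {M W Λ : ℝ} (hΛ : ∀ i l, |pd (u i) l x| ≤ Λ) (hM : ∀ l, |pd χ l x| ≤ M)
    (hW : ∀ l, |pd w l x| ≤ W) :
    |jdet (Function.update (Function.update u j χ) k w) x| ≤
      d.factorial * M * W * Λ ^ (d - 2) := by
  have h := abs_jdet_le (Function.update (Function.update u j χ) k w) x
    (Function.update (Function.update (fun _ => Λ) j M) k W) (by
    intro i l
    by_cases hk : i = k
    · subst hk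
      simpa using hW l
    · rw [Function.update_of_ne hk, Function.update_of_ne hk]
      by_cases hi : i = j
      · subst hi
        simpa using hM l
      · simpa [Function.update_of_ne hi] using hΛ i l)
  refine h.trans (le_of_eq ?_)
  rw [Finset.prod_update_of_mem (Finset.mem_univ k),
    Finset.prod_update_of_mem (by simp [hjk.symm])]
  rw [Finset.prod_const]
  have hc : ((Finset.univ \ {k}) \ {j} : Finset (Fin d)).card = d - 2 := by
    rw [Finset.card_sdiff_of_subset (by simp [hjk.symm]), Finset.card_sdiff_of_subset (by simp),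
      Finset.card_univ, Fintype.card_fin, Finset.card_singleton, Finset.card_singleton]
    omega
  rw [hc]
  ring

end Pool.Agent.MPac5134.Lip
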