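import Pool.Agent.Lib.MP_ac5134_an.Lip.N1
import Pool.Agent.Lib.MP_ac5134_an.Lip.N2

/-! LIP-N3 (integration by parts for Jacobians).  Est. 0.8 h.  Uses N1, N2 (already imported as stubs).

(a) `∫ ∂_j f = 0` for `C¹` `f` with compact support.
(b) `∫ w det(.., ∇v [place k], ..) = - ∫ v det(.., ∇w [place k], ..)` if `w`, or `v`, or one of the other
`u_i` has compact support.

PROOF.  (a) Mathlib `integral_mul_fderiv_eq_neg_fderiv_mul_of_integrable` (file
Mathlib/Analysis/Calculus/LineDeriv/IntegrationByParts.lean) with the second function `1`; `f` and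
`fderiv f` are continuous with compact support, hence integrable
(`Continuous.integrable_of_hasCompactSupport`, `HasCompactSupport.fderiv`).
(b) Let `f_j(x) = w x * v x * cof u k j x`; by N1 (`cof_contDiff`) it is `C¹`, and in each of the three
cases it has compact support (if `u i`, `i ≠ k`, has compact support then `cof u k j x` vanishes where
`∇ u_i` vanishes: row `i` of the matrix is zero).  Product rule:
  `∑_j pd f_j j x = ∑_j pd w j x * v x * cof + ∑_j w x * pd v j x * cof + w x * v x * ∑_j pd (cof u k j) j x`
  `= v x * jdet (update u k w) x + w x * jdet (update u k v) x + 0` by N2 `jdet_update` and N1 `piola`.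
Integrate and use (a); both summands are continuous with compact support, so integrable (`integral_add`).
Continuity of `x ↦ jdet (update u k w) x`: `∑_j pd w j x * cof u k j x`, `pd w j` continuous as `w` is `C¹`. -/

namespace Pool.Agent.MPac5134.Lip

open MeasureTheory
open scoped ENNReal

variable {d : ℕ}

private theorem N3_pd_continuous {f : V d → ℝ} (hf : ContDiff ℝ 1 f) (j : Fin d) :
    Continuous (pd f j) := by
  have h := hf.continuous_fderiv (by norm_num)
  exact h.clm_apply continuous_const

private theorem N3_pd_support {f : V d → ℝ} (hc : HasCompactSupport f) (j : Fin d) :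
    HasCompactSupport (pd f j) := by
  have h := hc.fderiv (𝕜 := ℝ)
  exact h.comp_left (g := fun L : V d →L[ℝ] ℝ => L (Pi.single j 1)) (by simp)

theorem integral_pd_eq_zero {f : V d → ℝ} (hf : ContDiff ℝ 1 f) (hc : HasCompactSupport f)
    (j : Fin d) : ∫ x, pd f j x = 0 := by
  have h1 : Integrable (pd f j) :=
    (N3_pd_continuous hf j).integrable_of_hasCompactSupport (N3_pd_support hc j)
  have h2 : Integrable f := hf.continuous.integrable_of_hasCompactSupport hc
  have h := integral_mul_fderiv_eq_neg_fderiv_mul_of_integrable (μ := volume)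
    (f := fun _ : V d => (1 : ℝ)) (g := f) (v := Pi.single j (1 : ℝ))
    (by simp) (by simp only [one_mul]; exact h1) (by simpa using h2)
    (fun _ _ => differentiableAt_const _) (fun x _ => hf.differentiable (by norm_num) x)
  simp only [one_mul, fderiv_fun_const, Pi.zero_apply] at h
  simpa [pd] using h

private theorem N3_jdet_eq (u : Fin d → V d → ℝ) (k : Fin d) (w : V d → ℝ) :
    (fun x => jdet (Function.update u k w) x) = fun x => ∑ j, pd w j x * cof u k j x := by
  funext x
  exact jdet_update u k w x

theorem jdet_update_continuous (u : Fin d → V d → ℝ) (k : Fin d)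
    (hu : ∀ i, i ≠ k → ContDiff ℝ 2 (u i)) {w : V d → ℝ} (hw : ContDiff ℝ 1 w) :
    Continuous fun x => jdet (Function.update u k w) x := by
  rw [N3_jdet_eq]
  exact continuous_finsetSum _ fun j _ =>
    (N3_pd_continuous hw j).mul (cof_contDiff u k hu j).continuous

private theorem N3_cof_support (u : Fin d → V d → ℝ) (k j : Fin d) {i : Fin d} (hik : i ≠ k)
    (hc : HasCompactSupport (u i)) : HasCompactSupport (cof u k j) := by
  have h := hc.fderiv (𝕜 := ℝ)
  refine HasCompactSupport.mono h ?_
  intro x hx
  rw [Function.mem_support] at hx ⊢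
  intro h0
  apply hx
  unfold cof
  refine Matrix.det_eq_zero_of_row_eq_zero i fun l => ?_
  rw [Matrix.updateRow_ne hik]
  show pd (u i) l x = 0
  rw [pd, h0]
  rfl

theorem parts (u : Fin d → V d → ℝ) (k : Fin d) (hu : ∀ i, i ≠ k → ContDiff ℝ 2 (u i))
    {v w : V d → ℝ} (hv : ContDiff ℝ 1 v) (hw : ContDiff ℝ 1 w)
    (hs : HasCompactSupport w ∨ HasCompactSupport v ∨ ∃ i, i ≠ k ∧ HasCompactSupport (u i)) :
    ∫ x, w x * jdet (Function.update u k v) x =
      - ∫ x, v x * jdet (Function.update u k w) x := by
  have hcof := fun j => cof_contDiff u k hu j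
  have hfC : ∀ j, ContDiff ℝ 1 fun x => w x * v x * cof u k j x := fun j =>
    (hw.mul hv).mul (hcof j)
  have hfS : ∀ j, HasCompactSupport fun x => w x * v x * cof u k j x := by
    intro j
    rcases hs with h | h | ⟨i, hik, h⟩
    · exact (h.mul_right (f' := v)).mul_right (f' := cof u k j)
    · exact (h.mul_left (f := w)).mul_right (f' := cof u k j)
    · exact (N3_cof_support u k j hik h).mul_left (f := fun x => w x * v x)
  -- the product rule
  have hpd : ∀ j x, pd (fun x => w x * v x * cof u k j x) j x =
      v x * (pd w j x * cof u k j x) + w x * (pd v j x * cof u k j x) +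
        w x * v x * pd (cof u k j) j x := by
    intro j x
    have hw1 : HasFDerivAt w (fderiv ℝ w x) x :=
      (hw.differentiable (by norm_num) x).hasFDerivAt
    have hv1 : HasFDerivAt v (fderiv ℝ v x) x :=
      (hv.differentiable (by norm_num) x).hasFDerivAt
    have hc1 : HasFDerivAt (cof u k j) (fderiv ℝ (cof u k j) x) x :=
      ((hcof j).differentiable (by norm_num) x).hasFDerivAt
    have h := ((hw1.mul hv1).mul hc1).fderiv
    have h' : pd (fun x => w x * v x * cof u k j x) j x =
        (fderiv ℝ (w * v * cof u k j) x) (Pi.single j 1) := rfl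
    rw [h', h]
    simp only [pd, add_apply, smul_apply, smul_eq_mul,
      Pi.mul_apply]
    ring
  have hsum : ∀ x, ∑ j, pd (fun x => w x * v x * cof u k j x) j x =
      v x * jdet (Function.update u k w) x + w x * jdet (Function.update u k v) x := by
    intro x
    rw [Finset.sum_congr rfl fun j _ => hpd j x, Finset.sum_add_distrib, Finset.sum_add_distrib,
      ← Finset.mul_sum, ← Finset.mul_sum, ← Finset.mul_sum, piola u k hu x, mul_zero, add_zero,
      jdet_update, jdet_update]
  have hzero : ∫ x, ∑ j, pd (fun x => w x * v x * cof u k j x) j x = 0 := by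
    rw [integral_finsetSum _ fun j _ => (N3_pd_continuous (hfC j) j).integrable_of_hasCompactSupport
      (N3_pd_support (hfS j) j)]
    exact Finset.sum_eq_zero fun j _ => integral_pd_eq_zero (hfC j) (hfS j) j
  -- integrability
  have hint : ∀ {a b : V d → ℝ}, ContDiff ℝ 1 a → ContDiff ℝ 1 b →
      (HasCompactSupport a ∨ HasCompactSupport b ∨ ∃ i, i ≠ k ∧ HasCompactSupport (u i)) →
      Integrable fun x => a x * jdet (Function.update u k b) x := by
    intro a b ha hb hab
    refine (ha.continuous.mul (jdet_update_continuous u k hu hb)).integrable_of_hasCompactSupport ?_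
    rcases hab with h | h | ⟨i, hik, h⟩
    · exact h.mul_right
    · refine HasCompactSupport.mul_left ?_
      rw [N3_jdet_eq]
      refine HasCompactSupport.mono (h.fderiv (𝕜 := ℝ)) ?_
      intro x hx
      rw [Function.mem_support] at hx ⊢
      intro h0
      apply hx
      refine Finset.sum_eq_zero fun j _ => ?_
      rw [pd, h0]
      simp
    · refine HasCompactSupport.mul_left ?_
      refine HasCompactSupport.mono (h.fderiv (𝕜 := ℝ)) ?_
      intro x hx
      rw [Function.mem_support] at hx ⊢
      intro h0
      apply hx
      unfold jdet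
      refine Matrix.det_eq_zero_of_row_eq_zero i fun l => ?_
      show pd (Function.update u k b i) l x = 0
      rw [Function.update_of_ne hik, pd, h0]
      rfl
  have h1 : Integrable fun x => v x * jdet (Function.update u k w) x :=
    hint hv hw (by tauto)
  have h2 : Integrable fun x => w x * jdet (Function.update u k v) x :=
    hint hw hv hs
  rw [integral_congr_ae (Filter.Eventually.of_forall hsum), integral_add h1 h2] at hzero
  linarith

end Pool.Agent.MPac5134.Lip
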