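import Pool.Agent.Lib.MP_ac5134_an.Lip.N3

/-! LIP-N4 (the identity behind everything).

`∫ χ (div ψ)(G) det DG = - I(χ, G, ψ∘G)`,  `I(χ,u,w) = ∑_j ∫ w_j det(.., ∇χ [place j], ..)` (= `Iint`).

PROOF.  By `jdet_chain`, `χ x * ((∑_j pd (ψ j) j (G x)) * jdet G x) = ∑_j χ x * jdet (update G j (ψ_j ∘ G)) x`.
Integrate and apply `parts` with `w = χ`, `v = ψ_j ∘ G`. -/

namespace Pool.Agent.MPac5134.Lip

open MeasureTheory
open scoped ENNReal

variable {d : ℕ}

theorem core_identity (χ : V d → ℝ) (hχ : ContDiff ℝ 1 χ) (hχs : HasCompactSupport χ)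
    (G : Fin d → V d → ℝ) (hG : ∀ i, ContDiff ℝ 2 (G i))
    (ψ : Fin d → V d → ℝ) (hψ : ∀ i, ContDiff ℝ 1 (ψ i)) :
    ∫ x, χ x * ((∑ j, pd (ψ j) j (fun l => G l x)) * jdet G x) =
      - Iint χ G (fun j x => ψ j (fun l => G l x)) := by
  have hG1 : ∀ i, ContDiff ℝ 1 (G i) := fun i => (hG i).of_le (by norm_num)
  have hv : ∀ j, ContDiff ℝ 1 (fun y => ψ j (fun l => G l y)) := fun j =>
    (hψ j).comp (contDiff_pi.2 fun l => hG1 l)
  have h1 : ∀ x, χ x * ((∑ j, pd (ψ j) j (fun l => G l x)) * jdet G x) =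
      ∑ j, χ x * jdet (Function.update G j (fun y => ψ j (fun l => G l y))) x := by
    intro x
    rw [jdet_chain G ψ x (fun i => (hG1 i).differentiable (by norm_num) x)
      (fun i => (hψ i).differentiable (by norm_num) _), Finset.mul_sum]
  have h2 : ∀ j, Integrable fun x =>
      χ x * jdet (Function.update G j (fun y => ψ j (fun l => G l y))) x := by
    intro j
    have hc := jdet_update_continuous G j (fun i _ => hG i) (hv j)
    exact (hχ.continuous.mul hc).integrable_of_hasCompactSupport hχs.mul_right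
  calc ∫ x, χ x * ((∑ j, pd (ψ j) j (fun l => G l x)) * jdet G x)
      = ∫ x, ∑ j, χ x * jdet (Function.update G j (fun y => ψ j (fun l => G l y))) x :=
        integral_congr_ae (Filter.Eventually.of_forall h1)
    _ = ∑ j, ∫ x, χ x * jdet (Function.update G j (fun y => ψ j (fun l => G l y))) x :=
        integral_finsetSum _ fun j _ => h2 j
    _ = ∑ j, -∫ x, ψ j (fun l => G l x) * jdet (Function.update G j χ) x := by
        refine Finset.sum_congr rfl fun j _ => ?_
        exact parts G j (fun i _ => hG i) (hv j) hχ (Or.inl hχs)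
    _ = - Iint χ G (fun j x => ψ j (fun l => G l x)) := by
        rw [Finset.sum_neg_distrib]
        rfl

end Pool.Agent.MPac5134.Lip
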