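import Pool.Agent.Lib.MP_ac5134_an.Lip.N3

/-! LIP-N5 (increments of `Iint`).  Est. 1.0 h.  Uses N2 (bounds), N3 (`parts`).

`χ ∈ C²` with support in the cube `closedBall x0 r` and `|∂χ| ≤ M` there.
(a) increment in `w`: `|I(χ,u,w) - I(χ,u,w')| ≤ d d! M Λ^(d-1) δ (2r)^d` if `|w_j - w'_j| ≤ δ`.
(a') in particular `|I(χ,u,w)| ≤ d d! M Λ^(d-1) δ (2r)^d` if `|w_j| ≤ δ`.
(b) increment in `u`: `|I(χ,u,w) - I(χ,u',w)| ≤ d² d! M W Λ^(d-2) δ (2r)^d` if `|u_i - u'_i| ≤ δ`,
`|∂w_j| ≤ W`, `|∂u_i|, |∂u'_i| ≤ Λ` (all these only on the cube `closedBall x0 r`).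

PROOF.  The functions `x ↦ jdet (update u j χ) x` vanish where `∇χ = 0`; the support of `pd χ l` is
contained in `tsupport χ ⊆ closedBall x0 r`, of measure `(2r)^d` (`Real.volume_pi_closedBall` or
`Real.volume_closedBall` on the product).
(a) linear in `w`; `abs_jdet_update_le` of N2; `norm_setIntegral_le_of_norm_le_const`.
(b) Let `u^(m)` be `u'` in the places `< m` and `u` in the places `≥ m` (`m ≤ d`).  Then
`I(χ,u^(m),w) - I(χ,u^(m+1),w) = ∑_j ∫ w_j [jdet(update u^(m) j χ) - jdet(update u^(m+1) j χ)]`.  For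
`j = m` both updates agree: zero.  For `j ≠ m` multilinearity (the two matrices differ in the row `m` only) gives
`jdet(update u^(m) j χ) - jdet(update u^(m+1) j χ) = jdet (update (update u^(m) j χ) m (u_m - u'_m))`, and
`parts` (with `k = m`, `χ` in the place `j ≠ m` has compact support) gives
`∫ w_j jdet (update (update u^(m) j χ) m (u_m - u'_m)) = - ∫ (u_m - u'_m) jdet (update (update u^(m) j χ) m w_j)`,
which is bounded by `δ d! M W Λ^(d-2) (2r)^d` (`abs_jdet_update_update_le`).  Sum over `j ≠ m` and `m`. -/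

namespace Pool.Agent.MPac5134.Lip

open MeasureTheory
open scoped ENNReal

variable {d : ℕ}

private theorem n5_pd_zero {χ : V d → ℝ} {x : V d} (hx : x ∉ tsupport χ) (l : Fin d) :
    pd χ l x = 0 := by
  unfold pd
  rw [fderiv_of_notMem_tsupport ℝ hx]
  rfl

private theorem n5_jdet_zero {χ : V d → ℝ} {x : V d} (hx : x ∉ tsupport χ)
    (U : Fin d → V d → ℝ) (j : Fin d) (hU : U j = χ) : jdet U x = 0 := by
  unfold jdet
  refine Matrix.det_eq_zero_of_row_eq_zero j fun l => ?_
  simp only [jmat, Matrix.of_apply, hU]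
  exact n5_pd_zero hx l

private theorem n5_bound (x0 : V d) {r C : ℝ} (hr : 0 < r) (f : V d → ℝ)
    (hf0 : ∀ x, x ∉ Metric.closedBall x0 r → f x = 0)
    (hfC : ∀ x ∈ Metric.closedBall x0 r, |f x| ≤ C) :
    |∫ x, f x| ≤ C * (2 * r) ^ d := by
  rw [← setIntegral_eq_integral_of_forall_compl_eq_zero hf0]
  have h1 : volume (Metric.closedBall x0 r) = ENNReal.ofReal ((2 * r) ^ d) := by
    rw [Real.volume_pi_closedBall x0 hr.le, Fintype.card_fin]
  have h2 := norm_setIntegral_le_of_norm_le_const (μ := volume) (s := Metric.closedBall x0 r)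
    (f := f) (C := C) (by rw [h1]; exact ENNReal.ofReal_lt_top)
    (fun x hx => by rw [Real.norm_eq_abs]; exact hfC x hx)
  rw [Real.norm_eq_abs, Measure.real, h1, ENNReal.toReal_ofReal (by positivity)] at h2
  exact h2

private theorem n5_integrable (x0 : V d) (r : ℝ) (f g : V d → ℝ) (hf : Continuous f)
    (hg : Continuous g) (hg0 : ∀ x, x ∉ Metric.closedBall x0 r → g x = 0) :
    Integrable fun x => f x * g x :=
  (hf.mul hg).integrable_of_hasCompactSupport
    (HasCompactSupport.intro (isCompact_closedBall x0 r) fun x hx => by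
      rw [Pi.mul_apply, hg0 x hx, mul_zero])

theorem Iint_sub_w (χ : V d → ℝ) (hχ : ContDiff ℝ 2 χ) (x0 : V d) {r M Λ δ : ℝ} (hr : 0 < r)
    (hΛ : 0 ≤ Λ) (hM : 0 ≤ M) (hδ : 0 ≤ δ)
    (hsupp : tsupport χ ⊆ Metric.closedBall x0 r) (hχM : ∀ x l, |pd χ l x| ≤ M)
    (u : Fin d → V d → ℝ) (hu : ∀ i, ContDiff ℝ 2 (u i))
    (huΛ : ∀ x ∈ Metric.closedBall x0 r, ∀ i l, |pd (u i) l x| ≤ Λ)
    (w w' : Fin d → V d → ℝ) (hw : ∀ i, Continuous (w i)) (hw' : ∀ i, Continuous (w' i))
    (hd : ∀ x ∈ Metric.closedBall x0 r, ∀ i, |w i x - w' i x| ≤ δ) :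
    |Iint χ u w - Iint χ u w'| ≤ d * d.factorial * M * Λ ^ (d - 1) * δ * (2 * r) ^ d := by
  have hB : ∀ x, x ∉ Metric.closedBall x0 r → x ∉ tsupport χ := fun x hx h => hx (hsupp h)
  have hcont : ∀ j, Continuous fun x => jdet (Function.update u j χ) x := fun j =>
    jdet_update_continuous u j (fun i _ => hu i) (hχ.of_le (by norm_num))
  have hz : ∀ j x, x ∉ Metric.closedBall x0 r → jdet (Function.update u j χ) x = 0 :=
    fun j x hx => n5_jdet_zero (hB x hx) _ j (Function.update_self j χ u)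
  have h1 : Iint χ u w - Iint χ u w' =
      ∑ j, ∫ x, (w j x - w' j x) * jdet (Function.update u j χ) x := by
    unfold Iint
    rw [← Finset.sum_sub_distrib]
    refine Finset.sum_congr rfl fun j _ => ?_
    rw [← integral_sub (n5_integrable x0 r _ _ (hw j) (hcont j) (hz j))
      (n5_integrable x0 r _ _ (hw' j) (hcont j) (hz j))]
    refine integral_congr_ae (ae_of_all _ fun x => ?_)
    simp only
    ring
  rw [h1]
  refine (Finset.abs_sum_le_sum_abs _ _).trans ?_
  have h2 : ∀ j ∈ (Finset.univ : Finset (Fin d)),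
      |∫ x, (w j x - w' j x) * jdet (Function.update u j χ) x| ≤
        δ * (d.factorial * M * Λ ^ (d - 1)) * (2 * r) ^ d := by
    intro j _
    refine n5_bound x0 hr _ (fun x hx => by rw [hz j x hx, mul_zero]) fun x hx => ?_
    rw [abs_mul]
    exact mul_le_mul (hd x hx j)
      (abs_jdet_update_le u χ x j (huΛ x hx) (hχM x)) (abs_nonneg _) hδ
  refine (Finset.sum_le_card_nsmul _ _ _ h2).trans ?_
  rw [Finset.card_univ, Fintype.card_fin, nsmul_eq_mul]
  apply le_of_eq
  ring

private theorem n5_step (χ : V d → ℝ) (hχ : ContDiff ℝ 2 χ) (x0 : V d) {r M Λ δ W : ℝ}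
    (hr : 0 < r) (_hΛ : 0 ≤ Λ) (_hM : 0 ≤ M) (hδ : 0 ≤ δ) (_hW : 0 ≤ W)
    (hsupp : tsupport χ ⊆ Metric.closedBall x0 r) (hχM : ∀ x l, |pd χ l x| ≤ M)
    (v : Fin d → V d → ℝ) (hv : ∀ i, ContDiff ℝ 2 (v i))
    (hvΛ : ∀ x ∈ Metric.closedBall x0 r, ∀ i l, |pd (v i) l x| ≤ Λ)
    (k : Fin d) (g : V d → ℝ) (hg : ContDiff ℝ 2 g)
    (hdg : ∀ x ∈ Metric.closedBall x0 r, |v k x - g x| ≤ δ)
    (w : Fin d → V d → ℝ) (hw : ∀ i, ContDiff ℝ 1 (w i))
    (hwW : ∀ x ∈ Metric.closedBall x0 r, ∀ i l, |pd (w i) l x| ≤ W) :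
    |Iint χ v w - Iint χ (Function.update v k g) w| ≤
      d * (δ * (d.factorial * M * W * Λ ^ (d - 2)) * (2 * r) ^ d) := by
  have hB : ∀ x, x ∉ Metric.closedBall x0 r → x ∉ tsupport χ := fun x hx h => hx (hsupp h)
  have hcs : HasCompactSupport χ :=
    (isCompact_closedBall x0 r).of_isClosed_subset (isClosed_tsupport χ) hsupp
  have hC : 0 ≤ δ * (d.factorial * M * W * Λ ^ (d - 2)) * (2 * r) ^ d := by positivity
  unfold Iint
  rw [← Finset.sum_sub_distrib]
  refine (Finset.abs_sum_le_sum_abs _ _).trans ?_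
  have h2 : ∀ j ∈ (Finset.univ : Finset (Fin d)),
      |(∫ x, w j x * jdet (Function.update v j χ) x) -
        ∫ x, w j x * jdet (Function.update (Function.update v k g) j χ) x| ≤
        δ * (d.factorial * M * W * Λ ^ (d - 2)) * (2 * r) ^ d := by
    intro j _
    by_cases hjk : j = k
    · subst hjk
      rw [Function.update_idem, sub_self, abs_zero]
      exact hC
    · have hkj : k ≠ j := fun h => hjk h.symm
      have hA : Function.update v j χ = Function.update (Function.update v j χ) k (v k) := by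
        have h3 : Function.update v j χ k = v k := Function.update_of_ne hkj χ v
        rw [← h3, Function.update_eq_self]
      have hA' : Function.update (Function.update v k g) j χ =
          Function.update (Function.update v j χ) k g := Function.update_comm hkj g χ v
      have hu2 : ∀ i, i ≠ k → ContDiff ℝ 2 (Function.update v j χ i) := by
        intro i _
        by_cases hij : i = j
        · subst hij
          rw [Function.update_self]
          exact hχ
        · rw [Function.update_of_ne hij]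
          exact hv i
      have hs2 : ∃ i, i ≠ k ∧ HasCompactSupport (Function.update v j χ i) :=
        ⟨j, hjk, by rw [Function.update_self]; exact hcs⟩
      have h12 : (1 : WithTop ℕ∞) ≤ 2 := by norm_num
      have hp1 := parts (Function.update v j χ) k hu2 ((hv k).of_le h12) (hw j)
        (Or.inr (Or.inr hs2))
      have hp2 := parts (Function.update v j χ) k hu2 (hg.of_le h12) (hw j)
        (Or.inr (Or.inr hs2))
      have hcont := jdet_update_continuous (Function.update v j χ) k hu2 (hw j)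
      have hz : ∀ x, x ∉ Metric.closedBall x0 r →
          jdet (Function.update (Function.update v j χ) k (w j)) x = 0 :=
        fun x hx => n5_jdet_zero (hB x hx) _ j (by
          rw [Function.update_of_ne hjk, Function.update_self])
      have hA1 : (∫ x, w j x * jdet (Function.update v j χ) x) =
          ∫ x, w j x * jdet (Function.update (Function.update v j χ) k (v k)) x := by
        rw [← hA]
      rw [hA', hA1, hp1, hp2]
      have h4 : -(∫ x, v k x * jdet (Function.update (Function.update v j χ) k (w j)) x) -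
          -(∫ x, g x * jdet (Function.update (Function.update v j χ) k (w j)) x) =
          -∫ x, (v k x - g x) * jdet (Function.update (Function.update v j χ) k (w j)) x := by
        rw [← neg_sub', ← integral_sub
          (n5_integrable x0 r _ _ (hv k).continuous hcont hz)
          (n5_integrable x0 r _ _ hg.continuous hcont hz)]
        congr 1
        refine integral_congr_ae (ae_of_all _ fun x => ?_)
        simp only
        ring
      rw [h4, abs_neg]
      refine n5_bound x0 hr _ (fun x hx => by rw [hz x hx, mul_zero]) fun x hx => ?_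
      rw [abs_mul]
      exact mul_le_mul (hdg x hx)
        (abs_jdet_update_update_le v χ (w j) x j k hkj (hvΛ x hx) (hχM x)
          (fun l => hwW x hx j l)) (abs_nonneg _) hδ
  refine (Finset.sum_le_card_nsmul _ _ _ h2).trans ?_
  rw [Finset.card_univ, Fintype.card_fin, nsmul_eq_mul]

theorem Iint_sub_u (χ : V d → ℝ) (hχ : ContDiff ℝ 2 χ) (x0 : V d) {r M Λ δ W : ℝ} (hr : 0 < r)
    (hΛ : 0 ≤ Λ) (hM : 0 ≤ M) (hδ : 0 ≤ δ) (hW : 0 ≤ W)
    (hsupp : tsupport χ ⊆ Metric.closedBall x0 r) (hχM : ∀ x l, |pd χ l x| ≤ M)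
    (u u' : Fin d → V d → ℝ) (hu : ∀ i, ContDiff ℝ 2 (u i)) (hu' : ∀ i, ContDiff ℝ 2 (u' i))
    (huΛ : ∀ x ∈ Metric.closedBall x0 r, ∀ i l, |pd (u i) l x| ≤ Λ)
    (huΛ' : ∀ x ∈ Metric.closedBall x0 r, ∀ i l, |pd (u' i) l x| ≤ Λ)
    (hd : ∀ x ∈ Metric.closedBall x0 r, ∀ i, |u i x - u' i x| ≤ δ)
    (w : Fin d → V d → ℝ) (hw : ∀ i, ContDiff ℝ 1 (w i))
    (hwW : ∀ x ∈ Metric.closedBall x0 r, ∀ i l, |pd (w i) l x| ≤ W) :
    |Iint χ u w - Iint χ u' w| ≤
      d ^ 2 * d.factorial * M * W * Λ ^ (d - 2) * δ * (2 * r) ^ d := by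
  obtain ⟨U, hU⟩ : ∃ U : ℕ → Fin d → V d → ℝ, U = fun m (i : Fin d) =>
      if (i : ℕ) < m then u' i else u i := ⟨_, rfl⟩
  have hU0 : U 0 = u := by
    funext i
    rw [hU]
    simp
  have hUd : U d = u' := by
    funext i
    rw [hU]
    simp [i.2]
  have hUc : ∀ m i, ContDiff ℝ 2 (U m i) := by
    intro m i
    rw [hU]
    by_cases h : (i : ℕ) < m
    · simp only [h, if_true]
      exact hu' i
    · simp only [h, if_false]
      exact hu i
  have hUΛ : ∀ m, ∀ x ∈ Metric.closedBall x0 r, ∀ i l, |pd (U m i) l x| ≤ Λ := by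
    intro m x hx i l
    rw [hU]
    by_cases h : (i : ℕ) < m
    · simp only [h, if_true]
      exact huΛ' x hx i l
    · simp only [h, if_false]
      exact huΛ x hx i l
  have h1 : Iint χ u w - Iint χ u' w =
      ∑ m ∈ Finset.range d, (Iint χ (U m) w - Iint χ (U (m + 1)) w) := by
    rw [Finset.sum_range_sub' (fun m => Iint χ (U m) w) d, hU0, hUd]
  rw [h1]
  refine (Finset.abs_sum_le_sum_abs _ _).trans ?_
  have h2 : ∀ m ∈ Finset.range d, |Iint χ (U m) w - Iint χ (U (m + 1)) w| ≤
      d * (δ * (d.factorial * M * W * Λ ^ (d - 2)) * (2 * r) ^ d) := by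
    intro m hm
    have hm' : m < d := Finset.mem_range.1 hm
    have h3 : U (m + 1) = Function.update (U m) ⟨m, hm'⟩ (u' ⟨m, hm'⟩) := by
      funext i
      by_cases hi : i = ⟨m, hm'⟩
      · subst hi
        rw [Function.update_self, hU]
        simp
      · rw [Function.update_of_ne hi, hU]
        have h4 : (i : ℕ) ≠ m := fun h => hi (Fin.ext h)
        by_cases h5 : (i : ℕ) < m
        · have h6 : (i : ℕ) < m + 1 := by omega
          simp only [h5, h6, if_true]
        · have h6 : ¬ (i : ℕ) < m + 1 := by omega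
          simp only [h5, h6, if_false]
    rw [h3]
    refine n5_step χ hχ x0 hr hΛ hM hδ hW hsupp hχM (U m) (hUc m) (hUΛ m) ⟨m, hm'⟩ _
      (hu' _) (fun x hx => ?_) w hw hwW
    have h4 : U m ⟨m, hm'⟩ = u ⟨m, hm'⟩ := by
      rw [hU]
      simp
    rw [h4]
    exact hd x hx _
  refine (Finset.sum_le_card_nsmul _ _ _ h2).trans ?_
  rw [Finset.card_range, nsmul_eq_mul]
  apply le_of_eq
  ring

end Pool.Agent.MPac5134.Lip
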