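import Pool.Agent.Lib.MP_ac5134_an.Lip.Defs

/-! LIP-P1 (finite differences of the characteristic polynomial).  Est. 0.7 h.

(a) `∑_{i ≤ d} (-1)^(d-i) C(d,i) det(M - (s0 + i h) 1) = (-1)^d d! h^d`.
(b) If `|∫ χ det D(F - s x)| ≤ τ` for the `d+1` values `s = s0 + i h` then `h^d ∫ χ ≤ 2^d τ`.

PROOF.  (a) `det(M - s 1) = (-1)^d det(s 1 - M) = (-1)^d (charpoly M).eval s`
(`Matrix.eval_charpoly`, `Matrix.det_neg`), and `charpoly M` is monic of degree `d`
(`Matrix.charpoly_monic`, `Matrix.charpoly_natDegree_eq_dim`).  The `d`-th finite difference with step `h`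
of a monic polynomial of degree `d` is `d! h^d`: for step `1` this is Mathlib's
`Polynomial.fwdDiff_iter_degree_eq_factorial` + `fwdDiff_iter_eq_sum_shift`
(file Mathlib/Algebra/Group/ForwardDiff.lean); for a general `h` apply it to `P(t) = p(s0 + h t)`, i.e.
`p.comp (C s0 + C h * X)`, of degree `≤ d` with leading coefficient `h^d`
(for `h = 0` both sides vanish if `d ≥ 1`: `∑ (-1)^(d-i) C(d,i) = 0`; if `d = 0` both sides are `1`); or prove by
linearity from `∑ (-1)^(d-i) C(d,i) i^k = 0` for `k < d`, `= d!` for `k = d`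
(same Mathlib file, `sum_..`).
(b) `pd (fun x => F i x - s * x i) j x = pd (F i) j x - s * (if i = j then 1 else 0)`, so
`jmat (shf F s) x = jmat F x - s • 1`.  Multiply (a) by `χ x` and integrate (`χ` continuous with compact
support, `F` is `C²`, so all integrands are continuous with compact support): 
`∑_i (-1)^(d-i) C(d,i) ∫ χ jdet (shf F (s0+ih)) = (-1)^d d! h^d ∫ χ`.  So
`d! h^d |∫ χ| ≤ ∑_i C(d,i) τ = 2^d τ` and `d! ≥ 1`. -/

namespace Pool.Agent.MPac5134.Lip

open MeasureTheory
open scoped ENNReal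

variable {d : ℕ}

open Polynomial in
private theorem P1_poly (P : ℝ[X]) (hP : P.natDegree ≤ d) :
    ∑ i ∈ Finset.range (d + 1), (-1 : ℝ) ^ (d - i) * (d.choose i) * P.eval (i : ℝ) =
      d.factorial * P.coeff d := by
  have h1 := fwdDiff_iter_eq_sum_shift (1 : ℝ) (fun x => P.eval x) d 0
  have h2 : ∑ i ∈ Finset.range (d + 1), (-1 : ℝ) ^ (d - i) * (d.choose i) * P.eval (i : ℝ) =
      (fwdDiff (1 : ℝ))^[d] (fun x => P.eval x) 0 := by
    rw [h1]
    refine Finset.sum_congr rfl fun i _ => ?_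
    rw [zero_add, nsmul_eq_mul, mul_one, zsmul_eq_mul]
    push_cast
    rfl
  rw [h2]
  rcases lt_or_eq_of_le hP with h | h
  · rw [Polynomial.fwdDiff_iter_eq_zero_of_degree_lt h, Polynomial.coeff_eq_zero_of_natDegree_lt h,
      mul_zero]
    rfl
  · subst h
    rw [Polynomial.fwdDiff_iter_degree_eq_factorial, Pi.smul_apply, Polynomial.leadingCoeff,
      smul_eq_mul, mul_comm]
    rfl

theorem sum_det_shift (M : Matrix (Fin d) (Fin d) ℝ) (s0 h : ℝ) :
    ∑ i ∈ Finset.range (d + 1), (-1 : ℝ) ^ (d - i) * (d.choose i) *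
      (M - (s0 + i * h) • (1 : Matrix (Fin d) (Fin d) ℝ)).det =
      (-1) ^ d * d.factorial * h ^ d := by
  have hdet : ∀ t : ℝ, (M - t • (1 : Matrix (Fin d) (Fin d) ℝ)).det =
      (-1) ^ d * M.charpoly.eval t := by
    intro t
    rw [Matrix.eval_charpoly]
    have h1 : M - t • (1 : Matrix (Fin d) (Fin d) ℝ) = -(Matrix.scalar (Fin d) t - M) := by
      rw [neg_sub, Matrix.scalar_apply, Matrix.smul_one_eq_diagonal]
    rw [h1, Matrix.det_neg, Fintype.card_fin]
  obtain ⟨q, hq⟩ : ∃ q : Polynomial ℝ, q = Polynomial.C s0 + Polynomial.C h * Polynomial.X :=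
    ⟨_, rfl⟩
  have hqd : q.natDegree ≤ 1 := by
    rw [hq, add_comm]
    exact Polynomial.natDegree_linear_le
  have hMd : M.charpoly.natDegree = d := by
    rw [Matrix.charpoly_natDegree_eq_dim, Fintype.card_fin]
  have hev : ∀ i : ℕ, (M.charpoly.comp q).eval (i : ℝ) = M.charpoly.eval (s0 + i * h) := by
    intro i
    rw [Polynomial.eval_comp, hq, Polynomial.eval_add, Polynomial.eval_mul, Polynomial.eval_C,
      Polynomial.eval_C, Polynomial.eval_X, mul_comm h]
  have hdeg : (M.charpoly.comp q).natDegree ≤ d := by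
    refine Polynomial.natDegree_comp_le.trans ?_
    rw [hMd]
    calc d * q.natDegree ≤ d * 1 := Nat.mul_le_mul_left _ hqd
      _ = d := mul_one _
  have hcoeff : (M.charpoly.comp q).coeff d = h ^ d := by
    rcases eq_or_ne h 0 with h0 | h0
    · have h1 : q = Polynomial.C s0 := by rw [hq, h0]; simp
      rw [h1, Polynomial.comp_C, h0]
      rcases Nat.eq_zero_or_pos d with hd | hd
      · subst hd
        rw [Polynomial.coeff_C_zero, pow_zero,
          Polynomial.eq_one_of_monic_natDegree_zero (Matrix.charpoly_monic M) hMd, Polynomial.eval_one]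
      · rw [Polynomial.coeff_C_of_ne_zero hd.ne', zero_pow hd.ne']
    · have h1 : q.natDegree = 1 := by
        rw [hq, add_comm]
        exact Polynomial.natDegree_linear h0
      have h2 := Polynomial.coeff_comp_degree_mul_degree (p := M.charpoly) (q := q) (by
        rw [h1]
        exact one_ne_zero)
      rw [h1, hMd, mul_one] at h2
      rw [h2, (Matrix.charpoly_monic M).leadingCoeff, one_mul]
      congr 1
      rw [hq, add_comm]
      exact Polynomial.leadingCoeff_linear h0
  have key := P1_poly (M.charpoly.comp q) hdeg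
  rw [hcoeff] at key
  calc ∑ i ∈ Finset.range (d + 1), (-1 : ℝ) ^ (d - i) * (d.choose i) *
      (M - (s0 + i * h) • (1 : Matrix (Fin d) (Fin d) ℝ)).det
      = (-1) ^ d * ∑ i ∈ Finset.range (d + 1), (-1 : ℝ) ^ (d - i) * (d.choose i) *
          (M.charpoly.comp q).eval (i : ℝ) := by
        rw [Finset.mul_sum]
        refine Finset.sum_congr rfl fun i _ => ?_
        rw [hdet, hev]
        ring
    _ = (-1) ^ d * d.factorial * h ^ d := by
        rw [key]
        ring

theorem shf_contDiff {F : Fin d → V d → ℝ} {n : WithTop ℕ∞} (hF : ∀ i, ContDiff ℝ n (F i)) (s : ℝ)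
    (i : Fin d) : ContDiff ℝ n (shf F s i) := by
  unfold shf
  exact (hF i).sub (contDiff_const.mul (contDiff_apply ℝ ℝ i))

theorem pd_shf {F : Fin d → V d → ℝ} (x : V d) (i : Fin d) (hF : DifferentiableAt ℝ (F i) x)
    (s : ℝ) (j : Fin d) :
    pd (shf F s i) j x = pd (F i) j x - s * (if i = j then 1 else 0) := by
  have h1 : HasFDerivAt (shf F s i)
      (fderiv ℝ (F i) x - s • (ContinuousLinearMap.proj (R := ℝ) (φ := fun _ : Fin d => ℝ) i)) x := by
    unfold shf
    exact hF.hasFDerivAt.sub ((hasFDerivAt_apply (𝕜 := ℝ) i x).const_mul s)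
  unfold pd
  rw [h1.fderiv, sub_apply, smul_apply,
    ContinuousLinearMap.proj_apply, smul_eq_mul, Pi.single_apply]

private theorem P1_jmat {F : Fin d → V d → ℝ} (hF : ∀ i, ContDiff ℝ 1 (F i)) (s : ℝ) (x : V d) :
    jmat (shf F s) x = jmat F x - s • (1 : Matrix (Fin d) (Fin d) ℝ) := by
  ext i j
  rw [Matrix.sub_apply, Matrix.smul_apply, Matrix.one_apply, smul_eq_mul]
  exact pd_shf x i ((hF i).differentiable one_ne_zero x) s j

private theorem P1_cont {u : Fin d → V d → ℝ} (hu : ∀ i, ContDiff ℝ 1 (u i)) :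
    Continuous (jdet u) := by
  unfold jdet jmat
  refine Continuous.matrix_det ?_
  refine continuous_matrix fun i j => ?_
  show Continuous fun x => pd (u i) j x
  unfold pd
  exact ((hu i).continuous_fderiv one_ne_zero).clm_apply continuous_const

theorem mass_le (χ : V d → ℝ) (hχ : Continuous χ) (hχs : HasCompactSupport χ)
    (F : Fin d → V d → ℝ) (hF : ∀ i, ContDiff ℝ 1 (F i)) {s0 h τ : ℝ} (hh : 0 ≤ h)
    (hτ : ∀ i ≤ d, |∫ x, χ x * jdet (shf F (s0 + i * h)) x| ≤ τ) :
    h ^ d * |∫ x, χ x| ≤ 2 ^ d * τ := by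
  have hint : ∀ s : ℝ, Integrable fun x => χ x * jdet (shf F s) x := fun s =>
    (hχ.mul (P1_cont (shf_contDiff hF s))).integrable_of_hasCompactSupport hχs.mul_right
  have h1 : ∑ i ∈ Finset.range (d + 1), (-1 : ℝ) ^ (d - i) * (d.choose i) *
      ∫ x, χ x * jdet (shf F (s0 + i * h)) x = (-1) ^ d * d.factorial * h ^ d * ∫ x, χ x := by
    have h2 : ∀ i ∈ Finset.range (d + 1), (-1 : ℝ) ^ (d - i) * (d.choose i) *
        ∫ x, χ x * jdet (shf F (s0 + i * h)) x =
        ∫ x, (-1 : ℝ) ^ (d - i) * (d.choose i) * (χ x * jdet (shf F (s0 + i * h)) x) :=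
      fun i _ => (integral_const_mul _ _).symm
    rw [Finset.sum_congr rfl h2, ← integral_finsetSum _ (fun i _ => (hint _).const_mul _),
      ← integral_const_mul]
    refine integral_congr_ae (Filter.Eventually.of_forall fun x => ?_)
    simp only
    rw [← sum_det_shift (jmat F x) s0 h, Finset.sum_mul]
    refine Finset.sum_congr rfl fun i _ => ?_
    unfold jdet
    rw [P1_jmat hF]
    ring
  have h2 : |(-1 : ℝ) ^ d * d.factorial * h ^ d * ∫ x, χ x| =
      d.factorial * (h ^ d * |∫ x, χ x|) := by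
    rw [abs_mul, abs_mul, abs_mul, abs_pow, abs_neg, abs_one, one_pow, one_mul, Nat.abs_cast,
      abs_of_nonneg (pow_nonneg hh d)]
    ring
  have h3 : |∑ i ∈ Finset.range (d + 1), (-1 : ℝ) ^ (d - i) * (d.choose i) *
      ∫ x, χ x * jdet (shf F (s0 + i * h)) x| ≤ 2 ^ d * τ := by
    refine (Finset.abs_sum_le_sum_abs _ _).trans ?_
    have h4 : ∀ i ∈ Finset.range (d + 1), |(-1 : ℝ) ^ (d - i) * (d.choose i) *
        ∫ x, χ x * jdet (shf F (s0 + i * h)) x| ≤ (d.choose i) * τ := by
      intro i hi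
      rw [abs_mul, abs_mul, abs_pow, abs_neg, abs_one, one_pow, one_mul, Nat.abs_cast]
      exact mul_le_mul_of_nonneg_left (hτ i (Nat.lt_succ_iff.1 (Finset.mem_range.1 hi)))
        (Nat.cast_nonneg _)
    refine (Finset.sum_le_sum h4).trans (le_of_eq ?_)
    rw [← Finset.sum_mul, ← Nat.cast_sum, Nat.sum_range_choose]
    push_cast
    rfl
  rw [h1, h2] at h3
  have h4 : (1 : ℝ) ≤ d.factorial := by exact_mod_cast Nat.factorial_pos d
  have h5 : 0 ≤ h ^ d * |∫ x, χ x| := mul_nonneg (pow_nonneg hh d) (abs_nonneg _)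
  nlinarith

end Pool.Agent.MPac5134.Lip
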