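import Pool.Agent.Lib.MP_ac5134_an.Lip.Defs

/-! LIP-T1 (un-thickening).  Est. 0.5 h.

`|⋃_{x ∈ S} closedBall x R| ≤ (R/r + 1)^d |⋃_{x ∈ S} closedBall x r|` for cubes.

PROOF.  Let `n = ⌈R/r⌉₊ ≥ 1` if `R > 0` (if `R = 0` the left set is contained in the right one; or take `n = max 1 ..`), `n ≤ R/r + 1`.
The interval `[-R, R]` is covered by the `n` intervals `[a_m - r, a_m + r]`, `a_m = -R + (2m+1) r`, `m < n` (as `2 n r ≥ 2R`), so
`closedBall 0 R ⊆ ⋃_{m ∈ (Fin n)^d} closedBall (a_m) r`, `a_m = (a_{m_1}, …, a_{m_d})`, and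
`⋃_{x∈S} closedBall x R ⊆ ⋃_m (a_m + ⋃_{x∈S} closedBall x r)` — `n^d` translates; translation invariance
(`measure_preimage_add`, `MeasureTheory.measure_vadd`-like; holds for all sets). -/

namespace Pool.Agent.MPac5134.Lip

open MeasureTheory
open scoped ENNReal

variable {d : ℕ}

private theorem T1_cover {r R : ℝ} (hr : 0 < r) {n : ℕ} (hn : 1 ≤ n) (hnR : R ≤ n * r)
    {t : ℝ} (ht : |t| ≤ R) : ∃ m : Fin n, |t - (-R + (2 * (m : ℕ) + 1) * r)| ≤ r := by
  obtain ⟨h1, h2⟩ := abs_le.1 ht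
  have h2r : 0 < 2 * r := by linarith
  have h0 : 0 ≤ (t + R) / (2 * r) := div_nonneg (by linarith) h2r.le
  by_cases hc : ⌊(t + R) / (2 * r)⌋₊ < n
  · refine ⟨⟨⌊(t + R) / (2 * r)⌋₊, hc⟩, ?_⟩
    have h3 := Nat.floor_le h0
    have h4 := Nat.lt_floor_add_one ((t + R) / (2 * r))
    rw [le_div_iff₀ h2r] at h3
    rw [div_lt_iff₀ h2r] at h4
    rw [abs_le]
    constructor <;> simp only [] <;> nlinarith
  · have h5 : (n : ℝ) ≤ (t + R) / (2 * r) := by
      rw [not_lt] at hc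
      exact le_trans (by exact_mod_cast hc) (Nat.floor_le h0)
    rw [le_div_iff₀ h2r] at h5
    refine ⟨⟨n - 1, by omega⟩, ?_⟩
    have h6 : ((n - 1 : ℕ) : ℝ) = n - 1 := by
      rw [Nat.cast_sub hn]; simp
    simp only [h6]
    rw [abs_le]
    constructor <;> nlinarith

theorem thicken (S : Set (V d)) {r R : ℝ} (hr : 0 < r) (hR : 0 ≤ R) :
    volume (⋃ x ∈ S, Metric.closedBall x R) ≤
      ENNReal.ofReal ((R / r + 1) ^ d) * volume (⋃ x ∈ S, Metric.closedBall x r) := by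
  set n : ℕ := max 1 ⌈R / r⌉₊ with hn
  have hRr : 0 ≤ R / r := div_nonneg hR hr.le
  have hn1 : 1 ≤ n := le_max_left _ _
  have hnR : R ≤ n * r := by
    rw [← div_le_iff₀ hr]
    refine (Nat.le_ceil _).trans ?_
    exact_mod_cast le_max_right _ _
  have hnle : (n : ℝ) ≤ R / r + 1 := by
    rw [hn, Nat.cast_max]
    refine max_le (by simpa using hRr) (Nat.ceil_lt_add_one hRr).le
  have hsub : (⋃ x ∈ S, Metric.closedBall x R) ⊆
      ⋃ m : Fin d → Fin n, (fun y : V d => y + (fun i => -(-R + (2 * ((m i : Fin n) : ℕ) + 1) * r))) ⁻¹'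
        (⋃ x ∈ S, Metric.closedBall x r) := by
    intro y hy
    simp only [Set.mem_iUnion, exists_prop] at hy
    obtain ⟨x, hx, hy⟩ := hy
    rw [Metric.mem_closedBall, dist_pi_le_iff hR] at hy
    choose m hm using fun i => T1_cover hr hn1 hnR (t := y i - x i)
      (by simpa [Real.dist_eq] using hy i)
    simp only [Set.mem_iUnion]
    refine ⟨m, ?_⟩
    simp only [Set.mem_preimage, Set.mem_iUnion, exists_prop]
    refine ⟨x, hx, ?_⟩
    rw [Metric.mem_closedBall, dist_pi_le_iff hr.le]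
    intro i
    rw [Real.dist_eq]
    refine le_trans (le_of_eq ?_) (hm i)
    congr 1
    simp only [Pi.add_apply]
    ring
  refine (measure_mono hsub).trans ?_
  refine (measure_iUnion_fintype_le _ _).trans ?_
  simp_rw [measure_preimage_add_right]
  rw [Finset.sum_const, Finset.card_univ, Fintype.card_fun, Fintype.card_fin, Fintype.card_fin,
    nsmul_eq_mul]
  gcongr
  rw [ENNReal.ofReal_pow (by linarith)]
  push_cast
  gcongr
  rw [← ENNReal.ofReal_natCast]
  exact ENNReal.ofReal_le_ofReal hnle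

end Pool.Agent.MPac5134.Lip
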