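import Pool.Agent.Lib.MP_ac5134_an.Geom
import Pool.Agent.Lib.MP_ac5134_an.Lip.Defs

/-! LIP-T2 (horizontal sections of a tube).

At the height `h`, `|h - c_n| ≤ N²/10`, the tube contains the cube of half side `N/(4d)` centred at
`c' - 2 (h - c_n) ω`.

PROOF.  `x - c = (h - c_n) • normalVec ω + (u, 0)`, `u_k = y_k - c_k + 2 (h-c_n) ω_k`, `|u_k| ≤ N/(4d)`, so
`‖(u,0)‖ ≤ N/4`.  The frame vectors `i < d` are orthogonal to `normalVec ω`, and
`‖normalVec‖² = 1 + 4|ω|² ≤ 5`. -/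

namespace Pool.Agent.MPac5134.Lip

open MeasureTheory
open scoped ENNReal InnerProductSpace

variable {d : ℕ}

theorem section_mem (hd : 1 ≤ d) {N : ℝ} (hN : 1 ≤ N) (θ : Cap d) (c : Sp d) (h : ℝ)
    (hh : |h - c (Fin.last d)| ≤ N ^ 2 / 10) (y : V d)
    (hy : ∀ k : Fin d, |y k - (c k.castSucc - 2 * (h - c (Fin.last d)) * θ.foot k)| ≤
      N / (4 * d)) :
    (WithLp.toLp 2 (Fin.snoc y h : Fin (d + 1) → ℝ) : Sp d) ∈ tube N θ c := by
  obtain ⟨s, hs⟩ : ∃ s : ℝ, s = h - c (Fin.last d) := ⟨_, rfl⟩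
  rw [← hs] at hh
  rw [← hs] at hy
  obtain ⟨u, hu⟩ : ∃ u : Fin d → ℝ, ∀ k, u k = y k - (c k.castSucc - 2 * s * θ.foot k) :=
    ⟨_, fun k => rfl⟩
  obtain ⟨w, hw⟩ : ∃ w : Sp d, w = WithLp.toLp 2 (Fin.snoc u 0 : Fin (d + 1) → ℝ) := ⟨_, rfl⟩
  have hwc : ∀ k : Fin d, w k.castSucc = u k := by intro k; rw [hw]; simp
  have hwl : w (Fin.last d) = 0 := by rw [hw]; simp
  have hd0 : (1 : ℝ) ≤ d := by exact_mod_cast hd
  have hN0 : 0 < N := by linarith
  have hxc : (WithLp.toLp 2 (Fin.snoc y h : Fin (d + 1) → ℝ) : Sp d) - c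
      = s • normalVec θ.foot + w := by
    ext i
    refine Fin.lastCases ?_ (fun k => ?_) i
    · simp only [PiLp.sub_apply, PiLp.add_apply, PiLp.smul_apply, normalVec_last, hwl, smul_eq_mul,
        Fin.snoc_last]
      rw [hs]
      ring
    · simp only [PiLp.sub_apply, PiLp.add_apply, PiLp.smul_apply, normalVec_castSucc, hwc,
        smul_eq_mul, Fin.snoc_castSucc]
      rw [hu]
      ring
  have hwn : ‖w‖ ≤ N / 4 := by
    refine (sq_le_sq₀ (norm_nonneg _) (by positivity)).1 ?_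
    rw [EuclideanSpace.norm_sq_eq, Fin.sum_univ_castSucc, hwl]
    have h1 : ∀ k : Fin d, ‖w k.castSucc‖ ^ 2 ≤ (N / (4 * d)) ^ 2 := by
      intro k
      rw [hwc, Real.norm_eq_abs, hu]
      exact pow_le_pow_left₀ (abs_nonneg _) (hy k) 2
    calc ∑ k : Fin d, ‖w k.castSucc‖ ^ 2 + ‖(0 : ℝ)‖ ^ 2
        ≤ ∑ _k : Fin d, (N / (4 * d)) ^ 2 + 0 := by
          refine add_le_add (Finset.sum_le_sum fun k _ => h1 k) ?_
          simp
      _ = (N / 4) ^ 2 / d := by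
          rw [Finset.sum_const, Finset.card_univ, Fintype.card_fin, nsmul_eq_mul, add_zero]
          field_simp
      _ ≤ (N / 4) ^ 2 := div_le_self (by positivity) hd0
  obtain ⟨a, ha, ha3⟩ := θ.exists_scalar
  have ha0 : a ≠ 0 := by
    intro h0
    rw [h0, abs_zero] at ha3
    norm_num at ha3
  have hfn : ∀ i, ‖θ.frame i‖ = 1 := fun i => θ.frame.orthonormal.1 i
  have hnv : ‖normalVec θ.foot‖ ≤ 9 / 4 := by
    refine (sq_le_sq₀ (norm_nonneg _) (by norm_num)).1 ?_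
    rw [norm_normalVec_sq]
    have := θ.foot_mem
    norm_num
    linarith
  rw [tube, Set.mem_ofPred_eq, hxc]
  constructor
  · intro i
    have h0 : ⟪θ.frame i.castSucc, normalVec θ.foot⟫_ℝ = 0 := by
      have h1 : ⟪θ.frame i.castSucc, θ.frame (Fin.last d)⟫_ℝ = 0 :=
        θ.frame.orthonormal.2 (Fin.castSucc_lt_last i).ne
      rw [ha, inner_smul_right] at h1
      exact (mul_eq_zero.1 h1).resolve_left ha0
    rw [inner_add_right, inner_smul_right, h0, mul_zero, zero_add]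
    calc |⟪θ.frame i.castSucc, w⟫_ℝ| ≤ ‖θ.frame i.castSucc‖ * ‖w‖ := abs_real_inner_le_norm _ _
      _ ≤ 1 * (N / 4) := by
          rw [hfn]
          exact mul_le_mul_of_nonneg_left hwn zero_le_one
      _ ≤ N / 2 := by linarith
  · rw [inner_add_right, inner_smul_right]
    have h1 : |⟪θ.frame (Fin.last d), normalVec θ.foot⟫_ℝ| ≤ 9 / 4 := by
      refine (abs_real_inner_le_norm _ _).trans ?_
      rw [hfn, one_mul]
      exact hnv
    have h2 : |⟪θ.frame (Fin.last d), w⟫_ℝ| ≤ N / 4 := by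
      refine (abs_real_inner_le_norm _ _).trans ?_
      rw [hfn, one_mul]
      exact hwn
    calc |s * ⟪θ.frame (Fin.last d), normalVec θ.foot⟫_ℝ + ⟪θ.frame (Fin.last d), w⟫_ℝ|
        ≤ |s * ⟪θ.frame (Fin.last d), normalVec θ.foot⟫_ℝ| + |⟪θ.frame (Fin.last d), w⟫_ℝ| :=
          abs_add_le _ _
      _ ≤ N ^ 2 / 10 * (9 / 4) + N / 4 := by
          refine add_le_add ?_ h2
          rw [abs_mul]
          exact mul_le_mul hh h1 (abs_nonneg _) (by positivity)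
      _ ≤ N ^ 2 / 2 := by nlinarith

end Pool.Agent.MPac5134.Lip
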