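import Pool.Agent.Lib.MP_ac5134_an.Defs
import Pool.Agent.Lib.MP_ac5134_an.Lip.Defs

/-! LIP-T3 (Lebesgue measure of `Sp d = EuclideanSpace ℝ (Fin (d+1))` as a product).  Est. 0.5 h.

PROOF.  `EuclideanSpace.volume_preserving_symm_measurableEquiv_toLp`-type lemma (name in Mathlib: search
`volume_preserving` + `toLp`/`ofLp`, e.g. `PiLp.volume_preserving_ofLp`, `EuclideanSpace.volume_preserving_measurableEquiv`) and
`MeasureTheory.volume_preserving_piFinSuccAbove (fun _ => ℝ) (Fin.last d)`
(`(MeasurableEquiv.piFinSuccAbove _ (Fin.last d)) f = (f (last d), fun j => f (j.castSucc))`, its inverse is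
`Fin.insertNth (last d)`, `Fin.insertNth_last'` / `Fin.insertNth_last` = `Fin.snoc`), then swap the factors
(`Measure.prod_swap`).  (See how Pool/Agent/Lib/MP_ac5134_an/Shear.lean proves `volume_shearBox_le`.)
(b) from (a) by `Measure.prod_apply_symm`. -/

namespace Pool.Agent.MPac5134.Lip

open MeasureTheory
open scoped ENNReal

variable {d : ℕ}

/-- The point of `Sp d` with horizontal part `y` and height `h`. -/
noncomputable def pt (p : V d × ℝ) : Sp d := WithLp.toLp 2 (Fin.snoc p.1 p.2 : Fin (d + 1) → ℝ)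

theorem continuous_pt : Continuous (pt : V d × ℝ → Sp d) := by
  unfold pt
  refine (PiLp.continuous_toLp 2 _).comp ?_
  exact Continuous.finSnoc continuous_fst continuous_snd

private lemma T3_mp : MeasurePreserving (pt : V d × ℝ → Sp d) volume volume := by
  have h1 : MeasurePreserving (Prod.swap : V d × ℝ → ℝ × V d) volume volume :=
    Measure.measurePreserving_swap
  have h2 := (volume_preserving_piFinSuccAbove (fun _ : Fin (d + 1) => ℝ) (Fin.last d)).symm
  have h3 := PiLp.volume_preserving_toLp (Fin (d + 1))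
  have h4 := h3.comp (h2.comp h1)
  have h5 : (pt : V d × ℝ → Sp d) = (@WithLp.toLp 2 (Fin (d + 1) → ℝ)) ∘
      ((MeasurableEquiv.piFinSuccAbove (fun _ : Fin (d + 1) => ℝ) (Fin.last d)).symm ∘
        (Prod.swap : V d × ℝ → ℝ × V d)) := by
    funext p
    show WithLp.toLp 2 (Fin.snoc p.1 p.2 : Fin (d + 1) → ℝ) =
      WithLp.toLp 2 (Fin.insertNth (Fin.last d) p.2 p.1 : Fin (d + 1) → ℝ)
    rw [Fin.insertNth_last']
  rw [h5]
  exact h4

theorem volume_eq_prod_pt (U : Set (Sp d)) (hU : MeasurableSet U) :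
    volume U = volume (pt ⁻¹' U : Set (V d × ℝ)) :=
  (T3_mp.measure_preimage hU.nullMeasurableSet).symm

theorem volume_eq_lintegral_pt (U : Set (Sp d)) (hU : MeasurableSet U) :
    volume U = ∫⁻ h : ℝ, volume {y : V d | pt (y, h) ∈ U} := by
  rw [volume_eq_prod_pt U hU, Measure.volume_eq_prod,
    Measure.prod_apply_symm (continuous_pt.measurable hU)]
  rfl

theorem measurable_section (U : Set (Sp d)) (hU : MeasurableSet U) :
    Measurable fun h : ℝ => volume {y : V d | pt (y, h) ∈ U} :=
  measurable_measure_prodMk_right (continuous_pt.measurable hU)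

end Pool.Agent.MPac5134.Lip
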