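import Pool.Agent.Lib.MP_ac5134_an.Geom
import Pool.Agent.Lib.MP_ac5134_an.Lip.Defs

/-! LIP-T4 (number of caps and total volume).  Est. 0.4 h.  `volume_tube` is in Geom.lean.

PROOF.  Every foot satisfies `|foot k| ≤ 1`, so the entries of its cell `⌊N foot k⌋` lie in `[-⌈N⌉, N]`, at most
`2N + 2 ≤ 4N` integers (`Finset.Icc (-⌈N⌉) ⌊N⌋`); the number of cells is `≤ (4N)^d`, each contains `≤ K` feet (overlap):
`card ι ≤ K (4N)^d` (`Finset.card_le_mul_card_image` / `Finset.card_eq_sum_card_fiberwise` with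
`Fintype.piFinset`).  Each tube has volume `N^(d+2)`. -/

namespace Pool.Agent.MPac5134.Lip

open MeasureTheory
open scoped ENNReal

variable {d : ℕ}

theorem card_le {ι : Type*} [Fintype ι] {K : ℕ} {N : ℝ} (hN : 1 ≤ N) (θ : ι → Cap d)
    (hov : ∀ z : Fin d → ℤ, ∀ s : Finset ι, (∀ i ∈ s, cell N (θ i) = z) → s.card ≤ K) :
    (Fintype.card ι : ℝ) ≤ K * (4 * N) ^ d := by
  classical
  have hmaps : ∀ i ∈ (Finset.univ : Finset ι), cell N (θ i) ∈
      Fintype.piFinset (fun _ : Fin d => Finset.Icc (-⌈N⌉) ⌊N⌋) := by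
    intro i _
    rw [Fintype.mem_piFinset]
    intro k
    have h1 : (θ i).foot k ^ 2 ≤ 1 :=
      (Finset.single_le_sum (f := fun k => (θ i).foot k ^ 2) (fun j _ => sq_nonneg _)
        (Finset.mem_univ k)).trans (θ i).foot_mem
    have h2 : -1 ≤ (θ i).foot k ∧ (θ i).foot k ≤ 1 := by
      constructor <;> nlinarith
    rw [Finset.mem_Icc]
    unfold cell
    constructor
    · rw [Int.le_floor]
      push_cast
      have h3 := Int.le_ceil N
      nlinarith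
    · exact Int.floor_le_floor (by nlinarith)
  have h1 := Finset.card_le_mul_card_image_of_maps_to hmaps K (fun z _ =>
    hov z _ fun i hi => (Finset.mem_filter.1 hi).2)
  rw [Finset.card_univ, Fintype.card_piFinset, Finset.prod_const, Finset.card_univ,
    Fintype.card_fin, Int.card_Icc] at h1
  have h2 : (((⌊N⌋ + 1 - -⌈N⌉).toNat : ℕ) : ℝ) ≤ 4 * N := by
    have h3 : 0 ≤ ⌊N⌋ + 1 - -⌈N⌉ := by
      have h4 : 0 ≤ ⌊N⌋ := Int.floor_nonneg.2 (by linarith)
      have h5 : 0 ≤ ⌈N⌉ := Int.ceil_nonneg (by linarith)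
      omega
    have h6 : (((⌊N⌋ + 1 - -⌈N⌉).toNat : ℕ) : ℝ) = ((⌊N⌋ + 1 - -⌈N⌉ : ℤ) : ℝ) := by
      have h7 := Int.toNat_of_nonneg h3
      exact_mod_cast h7
    rw [h6]
    push_cast
    have h8 := Int.floor_le N
    have h9 := Int.ceil_lt_add_one N
    linarith
  calc (Fintype.card ι : ℝ) ≤ ((K * (⌊N⌋ + 1 - -⌈N⌉).toNat ^ d : ℕ) : ℝ) := by exact_mod_cast h1
    _ = K * ((((⌊N⌋ + 1 - -⌈N⌉).toNat : ℕ) : ℝ)) ^ d := by push_cast; ring
    _ ≤ _ := mul_le_mul_of_nonneg_left (pow_le_pow_left₀ (Nat.cast_nonneg _) h2 d)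
        (Nat.cast_nonneg _)

theorem sum_volume_le {ι : Type*} [Fintype ι] {K : ℕ} {N : ℝ} (hN : 1 ≤ N) (θ : ι → Cap d)
    (c : ι → Sp d)
    (hov : ∀ z : Fin d → ℤ, ∀ s : Finset ι, (∀ i ∈ s, cell N (θ i) = z) → s.card ≤ K) :
    ∑ i, volume (tube N (θ i) (c i)) ≤ ENNReal.ofReal (K * 4 ^ d * N ^ (2 * d + 2)) := by
  have hN0 : 0 ≤ N := by linarith
  simp_rw [volume_tube hN0]
  rw [Finset.sum_const, Finset.card_univ, nsmul_eq_mul, ← ENNReal.ofReal_natCast,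
    ← ENNReal.ofReal_mul (Nat.cast_nonneg _)]
  refine ENNReal.ofReal_le_ofReal ?_
  calc (Fintype.card ι : ℝ) * N ^ (d + 2) ≤ K * (4 * N) ^ d * N ^ (d + 2) :=
        mul_le_mul_of_nonneg_right (card_le hN θ hov) (by positivity)
    _ = _ := by
        rw [mul_pow]
        ring

end Pool.Agent.MPac5134.Lip
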