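import Pool.Agent.Lib.MP_ac5134_an.Lip.Defs

/-! LIP-X1 (McShane extension of Hoelder functions with an additive error).  Est. 0.5 h.

PROOF.  `F x = ⨅ i, (f i + H ‖x - w i‖^α)`.  Subadditivity: for `0 < α ≤ 1`, `s, t ≥ 0`:
`(s+t)^α ≤ s^α + t^α` (`Real.rpow_add_le_add_rpow` or `NNReal.rpow_add_le_add_rpow`), so
`‖x-z‖^α ≤ ‖x-y‖^α + ‖y-z‖^α`.
Bounded below: fix `i0`; `f i + H‖x-w i‖^α ≥ f i0 - H‖w i - w i0‖^α - a + H‖x - w i‖^α ≥ f i0 - a - H‖x-w i0‖^α`.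
`F x ≤ F y + H‖x-y‖^α`: for every `i`, `F x ≤ f i + H‖x-w i‖^α ≤ f i + H‖y-w i‖^α + H‖x-y‖^α`.
`F (w j) ≤ f j` (`i = j`, `0^α = 0`), and `f i + H‖w j - w i‖^α ≥ f j - a` for all `i`, so `F (w j) ≥ f j - a`. -/

namespace Pool.Agent.MPac5134.Lip

open MeasureTheory
open scoped ENNReal

variable {d : ℕ}

theorem mcshane {α H a : ℝ} (hα : 0 < α) (hα1 : α ≤ 1) (hH : 0 ≤ H) (ha : 0 ≤ a)
    {ι : Type*} [Nonempty ι] (w : ι → V d) (f : ι → ℝ)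
    (hf : ∀ i j, |f i - f j| ≤ H * ‖w i - w j‖ ^ α + a) :
    ∃ F : V d → ℝ, (∀ x y, |F x - F y| ≤ H * ‖x - y‖ ^ α) ∧ ∀ i, |F (w i) - f i| ≤ a := by
  have hsub : ∀ x y z : V d, ‖x - z‖ ^ α ≤ ‖x - y‖ ^ α + ‖y - z‖ ^ α := by
    intro x y z
    have h1 : ‖x - z‖ ≤ ‖x - y‖ + ‖y - z‖ := norm_sub_le_norm_sub_add_norm_sub x y z
    calc ‖x - z‖ ^ α ≤ (‖x - y‖ + ‖y - z‖) ^ α :=
          Real.rpow_le_rpow (norm_nonneg _) h1 hα.le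
      _ ≤ _ := Real.rpow_add_le_add_rpow (norm_nonneg _) (norm_nonneg _) hα.le hα1
  obtain ⟨i0⟩ := (inferInstance : Nonempty ι)
  have hbdd : ∀ x, BddBelow (Set.range fun i => f i + H * ‖x - w i‖ ^ α) := by
    intro x
    refine ⟨f i0 - a - H * ‖x - w i0‖ ^ α, ?_⟩
    rintro _ ⟨i, rfl⟩
    show f i0 - a - H * ‖x - w i0‖ ^ α ≤ f i + H * ‖x - w i‖ ^ α
    have h1 := (abs_le.1 (hf i i0)).1
    have h2 := mul_le_mul_of_nonneg_left (hsub (w i) x (w i0)) hH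
    have h3 : ‖w i - x‖ = ‖x - w i‖ := norm_sub_rev _ _
    rw [h3] at h2
    nlinarith
  have hle : ∀ x y, (⨅ i, (f i + H * ‖x - w i‖ ^ α))
      ≤ (⨅ i, (f i + H * ‖y - w i‖ ^ α)) + H * ‖x - y‖ ^ α := by
    intro x y
    rw [← sub_le_iff_le_add]
    refine le_ciInf fun i => ?_
    have h1 := ciInf_le (hbdd x) i
    have h2 := mul_le_mul_of_nonneg_left (hsub x y (w i)) hH
    have h1' : (⨅ i, (f i + H * ‖x - w i‖ ^ α)) ≤ f i + H * ‖x - w i‖ ^ α := h1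
    nlinarith
  refine ⟨fun x => ⨅ i, (f i + H * ‖x - w i‖ ^ α), ?_, ?_⟩
  · intro x y
    have h1 := hle x y
    have h2 := hle y x
    rw [norm_sub_rev y x] at h2
    show |(⨅ i, (f i + H * ‖x - w i‖ ^ α)) - (⨅ i, (f i + H * ‖y - w i‖ ^ α))| ≤ _
    rw [abs_le]
    constructor <;> linarith
  · intro j
    have h1 : (⨅ i, (f i + H * ‖w j - w i‖ ^ α)) ≤ f j + H * ‖w j - w j‖ ^ α :=
      ciInf_le (hbdd (w j)) j
    rw [sub_self, norm_zero, Real.zero_rpow hα.ne', mul_zero, add_zero] at h1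
    have h2 : f j - a ≤ ⨅ i, (f i + H * ‖w j - w i‖ ^ α) := by
      refine le_ciInf fun i => ?_
      have h3 := (abs_le.1 (hf j i)).2
      linarith
    show |(⨅ i, (f i + H * ‖w j - w i‖ ^ α)) - f j| ≤ a
    rw [abs_le]
    constructor <;> linarith

end Pool.Agent.MPac5134.Lip
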