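import Pool.Agent.Lib.MP_ac5134_an.Lip.Defs

/-! LIP-X2 (mollification).  Est. 0.9 h.

PROOF.  Let `φ` be a smooth bump supported in `closedBall 0 1` with `∫ φ = 1`, `φ ≥ 0`; `C0 = ` a bound of
`∫ |pd φ l|` (all `l`).  `g x = ∫ φ_t(z) f(x - z) dz`, `φ_t(z) = t^(-d) φ(z/t)`
(e.g. Mathlib's `ContDiffBump` with `rOut = t` only gives the first two facts with a constant that depends
on `t`; so scale ONE bump by hand, or take `φ_t = fun z => t^(-d) * φ (t⁻¹ • z)` in
`convolution`; `HasCompactSupport.contDiff_convolution_left`, `f` is continuous (Hoelder), so locally integrable).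
* `|g x - f x| = |∫ φ_t(z) (f(x-z) - f(x)) dz| ≤ H t^α` (`‖z‖ ≤ t ≤ 1` on the support).
* derivative: `g x = ∫ φ_t(x - z) f(z) dz`, `pd g l x = ∫ pd φ_t l (x - z) f(z) dz
  = ∫ pd φ_t l (z) (f(x - z) - f(x)) dz` because `∫ pd φ_t l = 0` (`integral_fderiv_eq_zero`-type fact: use
  `integral_mul_fderiv_eq_neg_fderiv_mul_of_integrable` with the constant `1`).  So
  `|pd g l x| ≤ H t^α ∫ |pd φ_t l| = H t^α t^(-1) ∫ |pd φ l| ≤ C0 H t^(α-1)`.
`C = C0` depends only on `d`.  (`Real.rpow_sub_one`.)  Derivative of the convolution: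
`HasCompactSupport.hasFDerivAt_convolution_left`/`_right`.
A shorter way for the derivative bound: `g(x+v) - g(x) = ∫ (φ_t(x+v-z) - φ_t(x-z)) (f(z) - f(x)) dz`
(the integral of the difference of the translates vanishes). -/

namespace Pool.Agent.MPac5134.Lip

open MeasureTheory
open scoped ENNReal

variable {d : ℕ}

private lemma X2_cont {f : V d → ℝ} {H α : ℝ} (hα : 0 < α)
    (hf : ∀ x y, ‖x - y‖ ≤ 1 → |f x - f y| ≤ H * ‖x - y‖ ^ α) : Continuous f := by
  rw [continuous_iff_continuousAt]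
  intro x
  rw [ContinuousAt, tendsto_iff_dist_tendsto_zero]
  have h1 : Filter.Tendsto (fun y => H * ‖y - x‖ ^ α) (nhds x) (nhds 0) := by
    have h2 : Continuous fun y : V d => H * ‖y - x‖ ^ α :=
      continuous_const.mul (Continuous.rpow_const
        (continuous_norm.comp (continuous_id.sub continuous_const)) fun y => Or.inr hα.le)
    have h := h2.tendsto x
    simpa [Real.zero_rpow hα.ne'] using h
  refine squeeze_zero' (Filter.Eventually.of_forall fun y => dist_nonneg) ?_ h1
  filter_upwards [Metric.closedBall_mem_nhds x one_pos] with y hy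
  rw [Real.dist_eq]
  exact hf y x (by rwa [mem_closedBall_iff_norm] at hy)

/-- the convolution with the unit bump -/
private noncomputable def X2_conv (φ : ContDiffBump (0 : V d)) (f : V d → ℝ) : V d → ℝ :=
  convolution (φ.normed volume) f (ContinuousLinearMap.lsmul ℝ ℝ) volume

private lemma X2_int (φ : ContDiffBump (0 : V d)) {f : V d → ℝ} (hc : Continuous f) (x : V d) :
    Integrable (fun s => φ.normed volume s * f (x - s)) volume :=
  Continuous.integrable_of_hasCompactSupport
    (φ.continuous_normed.mul (hc.comp (continuous_const.sub continuous_id)))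
    (φ.hasCompactSupport_normed.mul_right)

private lemma X2_const (φ : ContDiffBump (0 : V d)) {f : V d → ℝ} (hc : Continuous f) (c : ℝ)
    (x : V d) : X2_conv φ f x = X2_conv φ (fun y => f y - c) x + c := by
  unfold X2_conv
  rw [convolution_def, convolution_def]
  simp only [ContinuousLinearMap.lsmul_apply, smul_eq_mul]
  have h1 : ∫ s, φ.normed volume s * c = c := by
    rw [integral_mul_const, φ.integral_normed, one_mul]
  have h2 : Integrable (fun s => φ.normed volume s * c) volume :=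
    (φ.integrable_normed).mul_const c
  have h3 : ∫ s, φ.normed volume s * (f (x - s) - c) =
      (∫ s, φ.normed volume s * f (x - s)) - ∫ s, φ.normed volume s * c := by
    rw [← integral_sub (X2_int φ hc x) h2]
    refine integral_congr_ae (Filter.Eventually.of_forall fun s => ?_)
    ring
  rw [h3, h1]
  ring

private lemma X2_unit (φ : ContDiffBump (0 : V d)) (hφ : φ.rOut = 1) {f : V d → ℝ}
    (hc : Continuous f) (x₀ : V d) {K : ℝ} (hK : ∀ s, ‖s‖ ≤ 1 → |f (x₀ - s) - f x₀| ≤ K) :
    ‖fderiv ℝ (X2_conv φ f) x₀‖ ≤ K * ∫ s, ‖fderiv ℝ (φ.normed volume) s‖ := by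
  have hc' : Continuous fun y => f y - f x₀ := hc.sub continuous_const
  have h0 : X2_conv φ f = fun x => X2_conv φ (fun y => f y - f x₀) x + f x₀ :=
    funext fun x => X2_const φ hc (f x₀) x
  have h1 := (HasCompactSupport.hasFDerivAt_convolution_left (𝕜 := ℝ) (μ := (volume : Measure (V d)))
    (ContinuousLinearMap.lsmul ℝ ℝ) (φ.hasCompactSupport_normed (μ := (volume : Measure (V d))))
    (φ.contDiff_normed (n := 1)) hc'.locallyIntegrable x₀).add_const (f x₀)
  have h2 : fderiv ℝ (X2_conv φ f) x₀ = convolution (fderiv ℝ (φ.normed volume))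
      (fun y => f y - f x₀) ((ContinuousLinearMap.lsmul ℝ ℝ).precompL (V d)) volume x₀ := by
    rw [h0]
    exact h1.fderiv
  have hI : Integrable (fun s => ‖fderiv ℝ (φ.normed volume) s‖) (volume : Measure (V d)) := by
    refine (Continuous.integrable_of_hasCompactSupport ?_ ?_).norm
    · exact (φ.contDiff_normed (n := 1)).continuous_fderiv one_ne_zero
    · exact φ.hasCompactSupport_normed.fderiv ℝ
  rw [h2, convolution_def, ← integral_const_mul]
  refine norm_integral_le_of_norm_le (hI.const_mul K) (Filter.Eventually.of_forall fun s => ?_)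
  have h3 : ((ContinuousLinearMap.lsmul ℝ ℝ).precompL (V d)) (fderiv ℝ (φ.normed volume) s)
      (f (x₀ - s) - f x₀) = (f (x₀ - s) - f x₀) • fderiv ℝ (φ.normed volume) s := by
    ext v
    simp only [ContinuousLinearMap.precompL_apply, ContinuousLinearMap.lsmul_apply,
      smul_apply, smul_eq_mul]
    ring
  rw [h3, norm_smul]
  by_cases hs : ‖s‖ ≤ 1
  · exact mul_le_mul_of_nonneg_right (hK s hs) (norm_nonneg _)
  · have h4 : fderiv ℝ (φ.normed volume) s = 0 := by
      apply fderiv_of_notMem_tsupport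
      rw [φ.tsupport_normed_eq, hφ, mem_closedBall_iff_norm, sub_zero]
      exact hs
    rw [h4, norm_zero, mul_zero, mul_zero]

theorem mollify (d : ℕ) : ∃ C : ℝ, 0 < C ∧ ∀ (f : V d → ℝ) (H α : ℝ), 0 ≤ H → 0 < α → α ≤ 1 →
    (∀ x y, ‖x - y‖ ≤ 1 → |f x - f y| ≤ H * ‖x - y‖ ^ α) → ∀ t : ℝ, 0 < t → t ≤ 1 →
    ∃ g : V d → ℝ, ContDiff ℝ 2 g ∧ (∀ x, |g x - f x| ≤ H * t ^ α) ∧
      ∀ x l, |pd g l x| ≤ C * H * t ^ (α - 1) := by
  let φ : ContDiffBump (0 : V d) := ⟨1 / 2, 1, by norm_num, by norm_num⟩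
  have hφ : φ.rOut = 1 := rfl
  have hI0 : 0 ≤ ∫ s, ‖fderiv ℝ (φ.normed volume) s‖ :=
    integral_nonneg fun _ => norm_nonneg _
  refine ⟨(∫ s, ‖fderiv ℝ (φ.normed volume) s‖) + 1, by linarith, ?_⟩
  intro f H α hH hα hα1 hf t ht ht1
  have hc : Continuous f := X2_cont hα hf
  have hct : Continuous fun x : V d => f (t • x) := hc.comp (continuous_const_smul t)
  have hinv : ∀ x : V d, t • (t⁻¹ • x) = x := fun x => by
    rw [smul_smul, mul_inv_cancel₀ ht.ne', one_smul]
  have hhol : ∀ x y : V d, ‖x - y‖ ≤ 1 → |f (t • x) - f (t • y)| ≤ H * t ^ α := by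
    intro x y hxy
    have h1 : ‖t • x - t • y‖ ≤ t := by
      rw [← smul_sub, norm_smul, Real.norm_of_nonneg ht.le]
      calc t * ‖x - y‖ ≤ t * 1 := mul_le_mul_of_nonneg_left hxy ht.le
        _ = t := mul_one t
    refine (hf _ _ (h1.trans ht1)).trans ?_
    exact mul_le_mul_of_nonneg_left (Real.rpow_le_rpow (norm_nonneg _) h1 hα.le) hH
  refine ⟨fun x => X2_conv φ (fun x => f (t • x)) (t⁻¹ • x), ?_, ?_, ?_⟩
  · have h1 : ContDiff ℝ 2 (X2_conv φ fun x => f (t • x)) :=
      HasCompactSupport.contDiff_convolution_left (n := 2) _ φ.hasCompactSupport_normed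
        φ.contDiff_normed hct.locallyIntegrable
    exact h1.comp (contDiff_const_smul _)
  · intro x
    have h1 := φ.dist_normed_convolution_le (μ := (volume : Measure (V d)))
      (g := fun x => f (t • x)) (x₀ := t⁻¹ • x) (ε := H * t ^ α) hct.aestronglyMeasurable
      (fun z hz => by
        rw [Real.dist_eq]
        refine hhol _ _ ?_
        rw [Metric.mem_ball, hφ, dist_eq_norm] at hz
        exact hz.le)
    rw [Real.dist_eq, hinv] at h1
    exact h1
  · intro x l
    have h1 : ContDiff ℝ 1 (X2_conv φ fun x => f (t • x)) :=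
      HasCompactSupport.contDiff_convolution_left (n := 1) _ φ.hasCompactSupport_normed
        φ.contDiff_normed hct.locallyIntegrable
    have h2 := (h1.differentiable one_ne_zero (t⁻¹ • x)).hasFDerivAt
    have h3 : HasFDerivAt (fun x : V d => t⁻¹ • x) (t⁻¹ • ContinuousLinearMap.id ℝ (V d)) x :=
      (hasFDerivAt_id x).const_smul t⁻¹
    have h4 := (h2.comp x h3).fderiv
    have h5 : pd (fun x => X2_conv φ (fun x => f (t • x)) (t⁻¹ • x)) l x =
        t⁻¹ * fderiv ℝ (X2_conv φ fun x => f (t • x)) (t⁻¹ • x) (Pi.single l 1) := by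
      unfold pd
      have h6 : (fun x => X2_conv φ (fun x => f (t • x)) (t⁻¹ • x)) =
          (X2_conv φ fun x => f (t • x)) ∘ fun x : V d => t⁻¹ • x := rfl
      rw [h6, h4]
      simp
    have h7 := X2_unit φ hφ hct (t⁻¹ • x) (K := H * t ^ α) fun s hs => hhol _ _ (by
      rw [sub_sub_cancel_left, norm_neg]
      exact hs)
    have h8 : |fderiv ℝ (X2_conv φ fun x => f (t • x)) (t⁻¹ • x) (Pi.single l 1)| ≤
        H * t ^ α * ∫ s, ‖fderiv ℝ (φ.normed volume) s‖ := by
      refine le_trans ?_ h7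
      have h9 := (fderiv ℝ (X2_conv φ fun x => f (t • x)) (t⁻¹ • x)).le_opNorm (Pi.single l 1)
      have h10 : ‖(Pi.single l 1 : V d)‖ = 1 := by
        rw [Pi.norm_single, norm_one]
      rw [h10, mul_one, Real.norm_eq_abs] at h9
      exact h9
    rw [h5, abs_mul, abs_of_pos (inv_pos.2 ht), Real.rpow_sub_one ht.ne']
    have h11 : 0 ≤ t⁻¹ := (inv_pos.2 ht).le
    have h12 : 0 ≤ H * t ^ α := mul_nonneg hH (Real.rpow_nonneg ht.le α)
    calc t⁻¹ * |fderiv ℝ (X2_conv φ fun x => f (t • x)) (t⁻¹ • x) (Pi.single l 1)|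
        ≤ t⁻¹ * (H * t ^ α * ∫ s, ‖fderiv ℝ (φ.normed volume) s‖) :=
          mul_le_mul_of_nonneg_left h8 h11
      _ ≤ t⁻¹ * (H * t ^ α * ((∫ s, ‖fderiv ℝ (φ.normed volume) s‖) + 1)) := by
          refine mul_le_mul_of_nonneg_left (mul_le_mul_of_nonneg_left ?_ h12) h11
          linarith
      _ = ((∫ s, ‖fderiv ℝ (φ.normed volume) s‖) + 1) * H * (t ^ α / t) := by
          rw [div_eq_mul_inv]
          ring

end Pool.Agent.MPac5134.Lip
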