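import Pool.Agent.Lib.MP_ac5134_an.Lip.N5
import Pool.Agent.Lib.MP_ac5134_an.Lip.X2

/-! LIP-Y2 (telescoping over the scales; several variable Young integral). -/

namespace Pool.Agent.MPac5134.Lip

open MeasureTheory
open scoped ENNReal

variable {d : ℕ}

private lemma y2_pow {t a : ℝ} (ht : 0 < t) (n : ℕ) : (t ^ a) ^ n = t ^ (a * n) := by
  rw [Real.rpow_mul ht.le, Real.rpow_natCast]

/-- first algebraic identity -/
private lemma y2_LP (hd : 2 ≤ d) {α β C1 H t B1 : ℝ} (hH : 1 ≤ H) (ht : 0 < t) :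
    (C1 * H * t ^ (α - 1)) ^ (d - 1) * (B1 * H ^ β * t ^ (α * β)) =
      C1 ^ (d - 1) * (B1 * H ^ (β + (d : ℝ) - 1) * t ^ (α * β + (α - 1) * ((d : ℝ) - 1))) := by
  have hH0 : 0 < H := by linarith
  have hc : ((d - 1 : ℕ) : ℝ) = (d : ℝ) - 1 := by
    rw [Nat.cast_sub (by omega)]; norm_num
  have h1 : H ^ (β + (d : ℝ) - 1) = H ^ β * H ^ (d - 1 : ℕ) := by
    rw [← Real.rpow_natCast H (d - 1), ← Real.rpow_add hH0, hc]
    congr 1; ring
  have h2 : t ^ (α * β + (α - 1) * ((d : ℝ) - 1)) = t ^ (α * β) * (t ^ (α - 1)) ^ (d - 1 : ℕ) := by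
    rw [y2_pow ht, ← Real.rpow_add ht, hc]
  rw [h1, h2, mul_pow, mul_pow]
  ring

/-- second algebraic identity -/
private lemma y2_LQ (hd : 2 ≤ d) {α β C1 H t B1 Cm : ℝ} (hH : 1 ≤ H) (ht : 0 < t) :
    (Cm * (B1 * H ^ β) * (2 * t ^ (α * β - 1))) * (2 * (C1 * H * t ^ (α - 1))) ^ (d - 2) *
      (2 * H * t ^ α) =
      Cm * 4 * 2 ^ (d - 2) * C1 ^ (d - 2) *
        (B1 * H ^ (β + (d : ℝ) - 1) * t ^ (α * β + (α - 1) * ((d : ℝ) - 1))) := by
  have hH0 : 0 < H := by linarith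
  have hc : ((d - 2 : ℕ) : ℝ) = (d : ℝ) - 2 := by
    rw [Nat.cast_sub (by omega)]; norm_num
  have h1 : H ^ (β + (d : ℝ) - 1) = H ^ β * H ^ (d - 2 : ℕ) * H := by
    nth_rewrite 4 [← Real.rpow_one H]
    rw [← Real.rpow_natCast H (d - 2), ← Real.rpow_add hH0, ← Real.rpow_add hH0, hc]
    congr 1; ring
  have h2 : t ^ (α * β + (α - 1) * ((d : ℝ) - 1)) =
      t ^ (α * β - 1) * (t ^ (α - 1)) ^ (d - 2 : ℕ) * t ^ α := by
    rw [y2_pow ht, ← Real.rpow_add ht, ← Real.rpow_add ht, hc]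
    congr 1; ring
  rw [h1, h2, mul_pow, mul_pow, mul_pow]
  ring

theorem telescope (hd : 2 ≤ d) {α β C1 : ℝ} (hα : 0 < α) (hα1 : α ≤ 1) (hβ0 : 0 ≤ β)
    (hβ1 : β ≤ 1) (hC1 : 1 ≤ C1) (he : 0 < α * β + (α - 1) * ((d : ℝ) - 1)) :
    ∃ C : ℝ, 0 < C ∧ ∀ (H M r t0 B0 B1 : ℝ) (x0 : V d), 1 ≤ H → 0 ≤ M → 0 < r → 0 < t0 →
      t0 ≤ 1 → 0 ≤ B0 → 0 ≤ B1 →
      ∀ χ : V d → ℝ, ContDiff ℝ 2 χ → tsupport χ ⊆ Metric.closedBall x0 r →
      (∀ x l, |pd χ l x| ≤ M) →
      ∀ G : Fin d → V d → ℝ, (∀ x y, ‖x - y‖ ≤ 1 → ∀ i, |G i x - G i y| ≤ H * ‖x - y‖ ^ α) →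
      ∀ Gk : ℕ → Fin d → V d → ℝ, (∀ k i, ContDiff ℝ 2 (Gk k i)) →
      (∀ k i x, |Gk k i x - G i x| ≤ H * (t0 / 2 ^ k) ^ α) →
      (∀ k i x l, |pd (Gk k i) l x| ≤ C1 * H * (t0 / 2 ^ k) ^ (α - 1)) →
      ∀ ψ : Fin d → V d → ℝ, (∀ i, Continuous (ψ i)) → (∀ i y, |ψ i y| ≤ B0) →
      (∀ i y y', |ψ i y - ψ i y'| ≤ B1 * ‖y - y'‖ ^ β) →
      ∀ k, |Iint χ (Gk k) (fun j x => ψ j (fun l => Gk k l x))| ≤
        C * M * r ^ d * (B0 * (H * t0 ^ (α - 1)) ^ (d - 1) +
          B1 * H ^ (β + (d : ℝ) - 1) * t0 ^ (α * β + (α - 1) * ((d : ℝ) - 1))) := by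
  obtain ⟨Cm, hCm, hmol⟩ := mollify d
  set e : ℝ := α * β + (α - 1) * ((d : ℝ) - 1) with hedef
  have hd1 : (2 : ℝ) ≤ d := by exact_mod_cast hd
  have hαβ : 0 < α * β := by nlinarith [mul_nonneg (sub_nonneg.mpr hα1) (by linarith : (0:ℝ) ≤ (d:ℝ) - 1)]
  have hαβ1 : α * β ≤ 1 := by nlinarith
  set q : ℝ := (1 / 2 : ℝ) ^ e with hq
  have hq0 : 0 < q := Real.rpow_pos_of_pos (by norm_num) _
  have hq1 : q < 1 := Real.rpow_lt_one (by norm_num) (by norm_num) he
  set c1 : ℝ := d * d.factorial * 2 ^ d * C1 ^ (d - 1) with hc1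
  set c3 : ℝ := d ^ 2 * d.factorial * 2 ^ d * (Cm * 4 * 2 ^ (d - 2) * C1 ^ (d - 2)) with hc3
  have hf0 : (0:ℝ) < d.factorial := by exact_mod_cast d.factorial_pos
  have hc1pos : 0 < c1 := by positivity
  have hc3pos : 0 < c3 := by positivity
  have h1q : 0 < 1 - q := by linarith
  refine ⟨c1 + (2 * c1 + c3) / (1 - q) + 2 * c1, by positivity, ?_⟩
  intro H M r t0 B0 B1 x0 hH hM hr ht0 ht01 hB0 hB1 χ hχ hsupp hχM G hG Gk hGk hGkG hGkd ψ hψc
    hψB hψH k
  have hH0 : 0 < H := by linarith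
  -- scales
  set t : ℕ → ℝ := fun k => t0 / 2 ^ k with htdef
  have htpos : ∀ k, 0 < t k := fun k => by positivity
  have ht1 : ∀ k, t k ≤ 1 := by
    intro k
    simp only [htdef]
    rw [div_le_one (by positivity)]
    exact ht01.trans (one_le_pow₀ (by norm_num))
  have hts : ∀ k, t (k + 1) = t k / 2 := by
    intro k; simp only [htdef]; rw [pow_succ]; field_simp
  have hte : ∀ k, (t k) ^ e = t0 ^ e * q ^ k := by
    intro k
    have h2 : t k = t0 * (1 / 2) ^ k := by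
      simp only [htdef]; rw [div_eq_mul_inv, one_div, inv_pow]
    rw [h2, Real.mul_rpow ht0.le (by positivity)]
    congr 1
    rw [hq, ← Real.rpow_natCast, ← Real.rpow_natCast, ← Real.rpow_mul (by norm_num),
      ← Real.rpow_mul (by norm_num), mul_comm]
  -- mollified second factors
  have hψG : ∀ j, ∀ x y, ‖x - y‖ ≤ 1 →
      |ψ j (fun l => G l x) - ψ j (fun l => G l y)| ≤ (B1 * H ^ β) * ‖x - y‖ ^ (α * β) := by
    intro j x y hxy
    have h1 := hψH j (fun l => G l x) (fun l => G l y)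
    have h2 : ‖(fun l => G l x) - (fun l => G l y)‖ ≤ H * ‖x - y‖ ^ α := by
      rw [pi_norm_le_iff_of_nonneg (by positivity)]
      intro i
      exact hG x y hxy i
    have h3 : ‖(fun l => G l x) - (fun l => G l y)‖ ^ β ≤ H ^ β * ‖x - y‖ ^ (α * β) := by
      calc ‖(fun l => G l x) - (fun l => G l y)‖ ^ β ≤ (H * ‖x - y‖ ^ α) ^ β :=
            Real.rpow_le_rpow (norm_nonneg _) h2 hβ0
        _ = _ := by
            rw [Real.mul_rpow hH0.le (by positivity), ← Real.rpow_mul (norm_nonneg _)]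
    calc _ ≤ B1 * ‖(fun l => G l x) - (fun l => G l y)‖ ^ β := h1
      _ ≤ B1 * (H ^ β * ‖x - y‖ ^ (α * β)) := by gcongr
      _ = _ := by ring
  have hw : ∀ k j, ∃ g : V d → ℝ, ContDiff ℝ 2 g ∧
      (∀ x, |g x - ψ j (fun l => G l x)| ≤ (B1 * H ^ β) * (t k) ^ (α * β)) ∧
      ∀ x l, |pd g l x| ≤ Cm * (B1 * H ^ β) * (t k) ^ (α * β - 1) := by
    intro k j
    exact hmol (fun x => ψ j (fun l => G l x)) (B1 * H ^ β) (α * β) (by positivity) hαβ hαβ1
      (hψG j) (t k) (htpos k) (ht1 k)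
  choose w hwC hwG hwd using hw
  set X : ℝ := B1 * H ^ (β + (d : ℝ) - 1) with hX
  have hX0 : 0 ≤ X := by positivity
  -- step (1)
  have hIz : ∀ u : Fin d → V d → ℝ, Iint χ u (fun _ _ => 0) = 0 := by
    intro u; simp [Iint]
  have step1 : |Iint χ (Gk 0) (w 0)| ≤
      c1 * M * r ^ d * (B0 * (H * t0 ^ (α - 1)) ^ (d - 1) + X * t0 ^ e) := by
    have h := Iint_sub_w χ hχ x0 (r := r) (M := M) (Λ := C1 * H * (t 0) ^ (α - 1))
      (δ := B0 + B1 * H ^ β * (t 0) ^ (α * β)) hr (by have := htpos 0; positivity) hM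
      (by have := htpos 0; positivity) hsupp hχM (Gk 0) (hGk 0)
      (fun x _ i l => hGkd 0 i x l) (w 0) (fun _ _ => 0) (fun i => (hwC 0 i).continuous)
      (fun i => continuous_const) (by
        intro x _ i
        have h1 := hwG 0 i x
        have h2 := hψB i (fun l => G l x)
        rw [sub_zero]
        calc |w 0 i x| = |(w 0 i x - ψ i (fun l => G l x)) + ψ i (fun l => G l x)| := by ring_nf
          _ ≤ |w 0 i x - ψ i (fun l => G l x)| + |ψ i (fun l => G l x)| := abs_add_le _ _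
          _ ≤ _ := by linarith)
    rw [hIz, sub_zero] at h
    refine h.trans (le_of_eq ?_)
    have ht00 : t 0 = t0 := by simp [htdef]
    rw [ht00]
    have h3 := y2_LP (d := d) hd (α := α) (β := β) (C1 := C1) (B1 := B1) hH ht0
    rw [← hedef, ← hX] at h3
    have h4 : (C1 * H * t0 ^ (α - 1)) ^ (d - 1) = C1 ^ (d - 1) * (H * t0 ^ (α - 1)) ^ (d - 1) := by
      rw [mul_assoc, mul_pow]
    calc (d : ℝ) * d.factorial * M * (C1 * H * t0 ^ (α - 1)) ^ (d - 1) *
          (B0 + B1 * H ^ β * t0 ^ (α * β)) * (2 * r) ^ d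
        = (d : ℝ) * d.factorial * M * (2 * r) ^ d * ((C1 * H * t0 ^ (α - 1)) ^ (d - 1) * B0 +
          (C1 * H * t0 ^ (α - 1)) ^ (d - 1) * (B1 * H ^ β * t0 ^ (α * β))) := by ring
      _ = _ := by
          rw [h3, h4, hc1, mul_pow]
          ring
  -- step (2)
  have step2 : ∀ k, |Iint χ (Gk k) (w k) - Iint χ (Gk k) (w (k + 1))| ≤
      2 * c1 * M * r ^ d * (X * (t k) ^ e) := by
    intro k
    have hP : (t (k + 1)) ^ (α * β) ≤ (t k) ^ (α * β) := by
      apply Real.rpow_le_rpow (htpos _).le _ hαβ.le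
      rw [hts]; have := htpos k; linarith
    have h := Iint_sub_w χ hχ x0 (r := r) (M := M) (Λ := C1 * H * (t k) ^ (α - 1))
      (δ := 2 * (B1 * H ^ β * (t k) ^ (α * β))) hr (by have := htpos k; positivity) hM
      (by have := htpos k; positivity) hsupp hχM (Gk k) (hGk k)
      (fun x _ i l => hGkd k i x l) (w k) (w (k + 1)) (fun i => (hwC k i).continuous)
      (fun i => (hwC (k + 1) i).continuous) (by
        intro x _ i
        have h1 := hwG k i x
        have h2 := hwG (k + 1) i x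
        have h3 : (B1 * H ^ β) * (t (k + 1)) ^ (α * β) ≤ (B1 * H ^ β) * (t k) ^ (α * β) := by
          gcongr
        rw [abs_le] at *
        constructor <;> linarith [h1.1, h1.2, h2.1, h2.2])
    refine h.trans (le_of_eq ?_)
    have h3 := y2_LP (d := d) hd (α := α) (β := β) (C1 := C1) (B1 := B1) hH (htpos k)
    rw [← hedef, ← hX] at h3
    calc (d : ℝ) * d.factorial * M * (C1 * H * (t k) ^ (α - 1)) ^ (d - 1) *
          (2 * (B1 * H ^ β * (t k) ^ (α * β))) * (2 * r) ^ d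
        = 2 * ((d : ℝ) * d.factorial) * M * (2 * r) ^ d *
          ((C1 * H * (t k) ^ (α - 1)) ^ (d - 1) * (B1 * H ^ β * (t k) ^ (α * β))) := by ring
      _ = _ := by
          rw [h3, hc1, mul_pow]
          ring
  -- step (3)
  have step3 : ∀ k, |Iint χ (Gk k) (w (k + 1)) - Iint χ (Gk (k + 1)) (w (k + 1))| ≤
      c3 * M * r ^ d * (X * (t k) ^ e) := by
    intro k
    have htk := htpos k
    have hΛ : (t (k + 1)) ^ (α - 1) ≤ 2 * (t k) ^ (α - 1) := by
      rw [hts, Real.div_rpow htk.le (by norm_num), div_eq_mul_inv, ← Real.rpow_neg (by norm_num),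
        mul_comm]
      have : (2:ℝ) ^ (-(α - 1)) ≤ 2 := by
        calc (2:ℝ) ^ (-(α - 1)) ≤ 2 ^ (1:ℝ) :=
              Real.rpow_le_rpow_of_exponent_le (by norm_num) (by linarith)
          _ = 2 := Real.rpow_one 2
      gcongr
    have hW : (t (k + 1)) ^ (α * β - 1) ≤ 2 * (t k) ^ (α * β - 1) := by
      rw [hts, Real.div_rpow htk.le (by norm_num), div_eq_mul_inv, ← Real.rpow_neg (by norm_num),
        mul_comm]
      have : (2:ℝ) ^ (-(α * β - 1)) ≤ 2 := by
        calc (2:ℝ) ^ (-(α * β - 1)) ≤ 2 ^ (1:ℝ) :=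
              Real.rpow_le_rpow_of_exponent_le (by norm_num) (by linarith)
          _ = 2 := Real.rpow_one 2
      gcongr
    have hδ' : (t (k + 1)) ^ α ≤ (t k) ^ α := by
      apply Real.rpow_le_rpow (htpos _).le _ hα.le
      rw [hts]; linarith
    have h := Iint_sub_u χ hχ x0 (r := r) (M := M) (Λ := 2 * (C1 * H * (t k) ^ (α - 1)))
      (δ := 2 * H * (t k) ^ α) (W := Cm * (B1 * H ^ β) * (2 * (t k) ^ (α * β - 1))) hr
      (by positivity) hM (by positivity) (by positivity) hsupp hχM (Gk k) (Gk (k + 1)) (hGk k)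
      (hGk (k + 1))
      (fun x _ i l => (hGkd k i x l).trans (by
        have : 0 ≤ C1 * H * (t k) ^ (α - 1) := by positivity
        show C1 * H * (t k) ^ (α - 1) ≤ _
        linarith))
      (fun x _ i l => (hGkd (k + 1) i x l).trans (by
        show C1 * H * (t (k + 1)) ^ (α - 1) ≤ _
        calc C1 * H * (t (k + 1)) ^ (α - 1) ≤ C1 * H * (2 * (t k) ^ (α - 1)) := by gcongr
          _ = _ := by ring))
      (by
        intro x _ i
        have h1 := hGkG k i x
        have h2 := hGkG (k + 1) i x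
        have h3 : H * (t (k + 1)) ^ α ≤ H * (t k) ^ α := by gcongr
        have h1' : |Gk k i x - G i x| ≤ H * (t k) ^ α := h1
        have h2' : |Gk (k + 1) i x - G i x| ≤ H * (t (k + 1)) ^ α := h2
        rw [abs_le] at *
        constructor <;> linarith [h1'.1, h1'.2, h2'.1, h2'.2])
      (w (k + 1)) (fun i => (hwC (k + 1) i).of_le (by norm_num))
      (by
        intro x _ i l
        refine (hwd (k + 1) i x l).trans ?_
        gcongr)
    refine h.trans (le_of_eq ?_)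
    have h3 := y2_LQ (d := d) hd (α := α) (β := β) (C1 := C1) (B1 := B1) (Cm := Cm) hH htk
    rw [← hedef, ← hX] at h3
    calc (d : ℝ) ^ 2 * d.factorial * M * (Cm * (B1 * H ^ β) * (2 * (t k) ^ (α * β - 1))) *
          (2 * (C1 * H * (t k) ^ (α - 1))) ^ (d - 2) * (2 * H * (t k) ^ α) * (2 * r) ^ d
        = (d : ℝ) ^ 2 * d.factorial * M * (2 * r) ^ d *
          ((Cm * (B1 * H ^ β) * (2 * (t k) ^ (α * β - 1))) *
            (2 * (C1 * H * (t k) ^ (α - 1))) ^ (d - 2) * (2 * H * (t k) ^ α)) := by ring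
      _ = _ := by
          rw [h3, hc3, mul_pow]
          ring
  -- sum of the increments
  have hsum : ∀ k, |Iint χ (Gk k) (w k)| ≤
      |Iint χ (Gk 0) (w 0)| + (2 * c1 + c3) * M * r ^ d * (X * t0 ^ e) *
        ∑ i ∈ Finset.range k, q ^ i := by
    intro k
    induction k with
    | zero => simp
    | succ k ih =>
      have h2 := step2 k
      have h3 := step3 k
      rw [hte k] at h2 h3
      rw [Finset.sum_range_succ]
      have h4 : |Iint χ (Gk (k + 1)) (w (k + 1))| ≤ |Iint χ (Gk k) (w k)| +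
          |Iint χ (Gk k) (w k) - Iint χ (Gk k) (w (k + 1))| +
          |Iint χ (Gk k) (w (k + 1)) - Iint χ (Gk (k + 1)) (w (k + 1))| := by
        have h5 : Iint χ (Gk (k + 1)) (w (k + 1)) = Iint χ (Gk k) (w k) -
            (Iint χ (Gk k) (w k) - Iint χ (Gk k) (w (k + 1))) -
            (Iint χ (Gk k) (w (k + 1)) - Iint χ (Gk (k + 1)) (w (k + 1))) := by ring
        rw [h5]
        refine (abs_sub _ _).trans ?_
        have h6 := abs_sub (Iint χ (Gk k) (w k)) (Iint χ (Gk k) (w k) - Iint χ (Gk k) (w (k + 1)))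
        ring_nf at h6 ⊢
        linarith
      calc |Iint χ (Gk (k + 1)) (w (k + 1))| ≤ _ := h4
        _ ≤ (|Iint χ (Gk 0) (w 0)| + (2 * c1 + c3) * M * r ^ d * (X * t0 ^ e) *
              ∑ i ∈ Finset.range k, q ^ i) + 2 * c1 * M * r ^ d * (X * (t0 ^ e * q ^ k)) +
              c3 * M * r ^ d * (X * (t0 ^ e * q ^ k)) := by gcongr
        _ = _ := by ring
  have hgeom : ∑ i ∈ Finset.range k, q ^ i ≤ 1 / (1 - q) := by
    rw [geom_sum_eq hq1.ne, le_div_iff₀ h1q]
    have h1 : (q ^ k - 1) / (q - 1) * (1 - q) = 1 - q ^ k := by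
      have : q - 1 ≠ 0 := by linarith
      field_simp
      ring
    rw [h1]
    have : 0 < q ^ k := by positivity
    linarith
  -- step (5)
  have step5 : |Iint χ (Gk k) (fun j x => ψ j (fun l => Gk k l x)) - Iint χ (Gk k) (w k)| ≤
      2 * c1 * M * r ^ d * (X * t0 ^ e) := by
    have h := Iint_sub_w χ hχ x0 (r := r) (M := M) (Λ := C1 * H * (t k) ^ (α - 1))
      (δ := 2 * (B1 * H ^ β * (t k) ^ (α * β))) hr (by have := htpos k; positivity) hM
      (by have := htpos k; positivity) hsupp hχM (Gk k) (hGk k)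
      (fun x _ i l => hGkd k i x l) (fun j x => ψ j (fun l => Gk k l x)) (w k)
      (fun i => (hψc i).comp (continuous_pi (fun l => (hGk k l).continuous)))
      (fun i => (hwC k i).continuous) (by
        intro x _ i
        have h1 := hwG k i x
        have h2 := hψH i (fun l => Gk k l x) (fun l => G l x)
        have h3 : ‖(fun l => Gk k l x) - (fun l => G l x)‖ ≤ H * (t k) ^ α := by
          have := htpos k
          rw [pi_norm_le_iff_of_nonneg (by positivity)]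
          intro l
          exact hGkG k l x
        have h4 : ‖(fun l => Gk k l x) - (fun l => G l x)‖ ^ β ≤ H ^ β * (t k) ^ (α * β) := by
          calc ‖(fun l => Gk k l x) - (fun l => G l x)‖ ^ β ≤ (H * (t k) ^ α) ^ β :=
                Real.rpow_le_rpow (norm_nonneg _) h3 hβ0
            _ = _ := by
                rw [Real.mul_rpow hH0.le (by have := htpos k; positivity),
                  ← Real.rpow_mul (htpos k).le]
        have h5 : |ψ i (fun l => Gk k l x) - ψ i (fun l => G l x)| ≤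
            B1 * H ^ β * (t k) ^ (α * β) := by
          calc _ ≤ B1 * ‖(fun l => Gk k l x) - (fun l => G l x)‖ ^ β := h2
            _ ≤ B1 * (H ^ β * (t k) ^ (α * β)) := by gcongr
            _ = _ := by ring
        rw [abs_le] at *
        constructor <;> linarith [h1.1, h1.2, h5.1, h5.2])
    refine h.trans ?_
    have h3 := y2_LP (d := d) hd (α := α) (β := β) (C1 := C1) (B1 := B1) hH (htpos k)
    rw [← hedef, ← hX] at h3
    calc (d : ℝ) * d.factorial * M * (C1 * H * (t k) ^ (α - 1)) ^ (d - 1) *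
          (2 * (B1 * H ^ β * (t k) ^ (α * β))) * (2 * r) ^ d
        = 2 * ((d : ℝ) * d.factorial) * M * (2 * r) ^ d *
          ((C1 * H * (t k) ^ (α - 1)) ^ (d - 1) * (B1 * H ^ β * (t k) ^ (α * β))) := by ring
      _ = 2 * c1 * M * r ^ d * (X * (t k) ^ e) := by
          rw [h3, hc1, mul_pow]
          ring
      _ ≤ 2 * c1 * M * r ^ d * (X * t0 ^ e) := by
          have : (t k) ^ e ≤ t0 ^ e := by
            apply Real.rpow_le_rpow (htpos k).le _ he.le
            simp only [htdef]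
            exact div_le_self ht0.le (one_le_pow₀ (by norm_num))
          gcongr
  have hY : 0 ≤ M * r ^ d * (X * t0 ^ e) := by positivity
  have hB : 0 ≤ M * r ^ d * (B0 * (H * t0 ^ (α - 1)) ^ (d - 1)) := by positivity
  calc |Iint χ (Gk k) (fun j x => ψ j (fun l => Gk k l x))|
      ≤ |Iint χ (Gk k) (fun j x => ψ j (fun l => Gk k l x)) - Iint χ (Gk k) (w k)| +
        |Iint χ (Gk k) (w k)| := by
        have := abs_add_le (Iint χ (Gk k) (fun j x => ψ j (fun l => Gk k l x)) - Iint χ (Gk k) (w k))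
          (Iint χ (Gk k) (w k))
        rwa [sub_add_cancel] at this
    _ ≤ 2 * c1 * M * r ^ d * (X * t0 ^ e) + (c1 * M * r ^ d *
        (B0 * (H * t0 ^ (α - 1)) ^ (d - 1) + X * t0 ^ e) +
        (2 * c1 + c3) * M * r ^ d * (X * t0 ^ e) * (1 / (1 - q))) := by
        refine add_le_add step5 ((hsum k).trans (add_le_add step1 ?_))
        gcongr
    _ ≤ _ := by
        have h1 : 0 ≤ ((2 * c1 + c3) / (1 - q) + 2 * c1) *
            (M * r ^ d * (B0 * (H * t0 ^ (α - 1)) ^ (d - 1))) := by positivity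
        have h2 : (c1 + (2 * c1 + c3) / (1 - q) + 2 * c1) * M * r ^ d *
            (B0 * (H * t0 ^ (α - 1)) ^ (d - 1) + X * t0 ^ e) =
            2 * c1 * M * r ^ d * (X * t0 ^ e) + (c1 * M * r ^ d *
            (B0 * (H * t0 ^ (α - 1)) ^ (d - 1) + X * t0 ^ e) +
            (2 * c1 + c3) * M * r ^ d * (X * t0 ^ e) * (1 / (1 - q))) +
            ((2 * c1 + c3) / (1 - q) + 2 * c1) *
            (M * r ^ d * (B0 * (H * t0 ^ (α - 1)) ^ (d - 1))) := by ring
        rw [h2]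
        linarith

end Pool.Agent.MPac5134.Lip
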