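import Pool.Agent.Lib.MP_ac5134_an.Lip.N4
import Pool.Agent.Lib.MP_ac5134_an.Lip.K5
import Pool.Agent.Lib.MP_ac5134_an.Lip.K6
import Pool.Agent.Lib.MP_ac5134_an.Lip.P1
import Pool.Agent.Lib.MP_ac5134_an.Lip.Y2

/-! LIP-Y3 (a small slice makes the Jacobian integral small). -/

namespace Pool.Agent.MPac5134.Lip

open MeasureTheory
open scoped ENNReal

variable {d : ℕ}

/-- the two exponent identities -/
private lemma y3_exp (hd : 2 ≤ d) {α β H v : ℝ} (hα : 0 < α) (hH : 0 < H) (hv : 0 < v) :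
    v ^ (1 / (d : ℝ)) * (H * ((v ^ (1 / (d : ℝ)) / H) ^ (1 / α)) ^ (α - 1)) ^ (d - 1) =
      v ^ ((d * α - d + 1) / (d * α)) * H ^ (((d : ℝ) - 1) / α) ∧
    v ^ ((1 - β) / d) * H ^ (β + (d : ℝ) - 1) *
      ((v ^ (1 / (d : ℝ)) / H) ^ (1 / α)) ^ (α * β + (α - 1) * ((d : ℝ) - 1)) =
      v ^ ((d * α - d + 1) / (d * α)) * H ^ (((d : ℝ) - 1) / α) := by
  have hd0 : (0:ℝ) < d := by exact_mod_cast (by omega : 0 < d)
  set a : ℝ := v ^ (1 / (d : ℝ)) / H with ha
  have ha0 : 0 < a := by positivity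
  have hva : v = (a * H) ^ (d : ℝ) := by
    rw [ha, div_mul_cancel₀ _ hH.ne', ← Real.rpow_mul hv.le, one_div,
      inv_mul_cancel₀ hd0.ne', Real.rpow_one]
  have hv1 : ∀ s : ℝ, v ^ s = a ^ (d * s) * H ^ (d * s) := by
    intro s
    rw [hva, ← Real.rpow_mul (by positivity), Real.mul_rpow ha0.le hH.le]
  have hv2 : v ^ (1 / (d : ℝ)) = a * H := by
    rw [ha, div_mul_cancel₀ _ hH.ne']
  have hW : v ^ ((d * α - d + 1) / (d * α)) * H ^ (((d : ℝ) - 1) / α) =
      a ^ ((d * α - d + 1) / α) * H ^ (d : ℝ) := by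
    rw [hv1, mul_assoc, ← Real.rpow_add hH]
    congr 2
    · field_simp
    · field_simp; ring
  have hc : ((d - 1 : ℕ) : ℝ) = (d : ℝ) - 1 := by
    rw [Nat.cast_sub (by omega)]; norm_num
  constructor
  · rw [hW, hv2, ← Real.rpow_natCast _ (d - 1), hc, ← Real.rpow_mul ha0.le,
      Real.mul_rpow hH.le (by positivity), ← Real.rpow_mul ha0.le]
    have h1 : a * H * (H ^ ((d : ℝ) - 1) * a ^ (1 / α * (α - 1) * ((d : ℝ) - 1))) =
        (a ^ (1 : ℝ) * a ^ (1 / α * (α - 1) * ((d : ℝ) - 1))) * (H ^ (1 : ℝ) * H ^ ((d : ℝ) - 1)) := by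
      rw [Real.rpow_one, Real.rpow_one]; ring
    rw [h1, ← Real.rpow_add ha0, ← Real.rpow_add hH]
    congr 2
    · field_simp; ring
    · ring
  · rw [hW, hv1, ← Real.rpow_mul ha0.le]
    have h1 : a ^ ((d : ℝ) * ((1 - β) / d)) * H ^ ((d : ℝ) * ((1 - β) / d)) *
        H ^ (β + (d : ℝ) - 1) * a ^ (1 / α * (α * β + (α - 1) * ((d : ℝ) - 1))) =
        (a ^ ((d : ℝ) * ((1 - β) / d)) * a ^ (1 / α * (α * β + (α - 1) * ((d : ℝ) - 1)))) *
        (H ^ ((d : ℝ) * ((1 - β) / d)) * H ^ (β + (d : ℝ) - 1)) := by ring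
    rw [h1, ← Real.rpow_add ha0, ← Real.rpow_add hH]
    congr 2
    · field_simp; ring
    · field_simp; ring

private lemma y3_jdet_cont {u : Fin d → V d → ℝ} (hu : ∀ i, ContDiff ℝ 2 (u i)) :
    Continuous (jdet u) := by
  unfold jdet jmat
  refine Continuous.matrix_det ?_
  refine continuous_matrix fun i j => ?_
  have h := (hu i).continuous_fderiv (by norm_num)
  exact h.clm_apply continuous_const

theorem slice_small (hd : 2 ≤ d) {α C1 : ℝ} (hα : ((d : ℝ) - 1) / d < α) (hα1 : α ≤ 1)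
    (hC1 : 1 ≤ C1) :
    ∃ C : ℝ, 0 < C ∧ ∀ (H M r v s : ℝ) (x0 : V d), 1 ≤ H → 0 ≤ M → 0 < r → 0 < v → v ≤ 1 →
      |s| ≤ 1 →
      ∀ χ : V d → ℝ, ContDiff ℝ 2 χ → HasCompactSupport χ →
      tsupport χ ⊆ Metric.closedBall x0 r → (∀ x, |χ x| ≤ 1) → (∀ x l, |pd χ l x| ≤ M) →
      ∀ F : Fin d → V d → ℝ, (∀ x y i, |F i x - F i y| ≤ H * ‖x - y‖ ^ α) →
      ∀ Fk : ℕ → Fin d → V d → ℝ, (∀ k i, ContDiff ℝ 2 (Fk k i)) →
      (∀ k i x, |Fk k i x - F i x| ≤ H * ((v ^ (1 / (d : ℝ)) / H) ^ (1 / α) / 2 ^ k) ^ α) →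
      (∀ k i x l, |pd (Fk k i) l x| ≤
        C1 * H * ((v ^ (1 / (d : ℝ)) / H) ^ (1 / α) / 2 ^ k) ^ (α - 1)) →
      ∀ E : Set (V d), IsCompact E → volume E < ENNReal.ofReal v →
      (∀ x ∈ Metric.closedBall x0 r, (fun i => F i x - s * x i) ∈ E) →
      ∀ ε : ℝ, 0 < ε → ∃ k0 : ℕ, ∀ k ≥ k0,
        |∫ x, χ x * jdet (shf (Fk k) s) x| ≤ ε + C * M * r ^ d *
          (v ^ ((d * α - d + 1) / (d * α)) * H ^ (((d : ℝ) - 1) / α)) := by
  have hd2 : (2:ℝ) ≤ d := by exact_mod_cast hd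
  have hd0 : (0:ℝ) < d := by linarith
  have hdα : (d:ℝ) - 1 < α * d := by
    rwa [div_lt_iff₀ hd0] at hα
  have hα0 : 0 < α := lt_of_le_of_lt (div_nonneg (by linarith) hd0.le) hα
  set β : ℝ := (1 + ((d:ℝ) - 1) * (1 - α) / α) / 2 with hβdef
  have hαβ : α * β = (α + ((d:ℝ) - 1) * (1 - α)) / 2 := by
    rw [hβdef]; field_simp
  have hnn : 0 ≤ ((d:ℝ) - 1) * (1 - α) := mul_nonneg (by linarith) (by linarith)
  have hβ0 : 0 ≤ β := by
    rw [hβdef]; positivity
  have hβ1 : β < 1 := by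
    have : α * β < α * 1 := by rw [hαβ]; linarith
    exact lt_of_mul_lt_mul_left this hα0.le
  have he : 0 < α * β + (α - 1) * ((d:ℝ) - 1) := by
    rw [hαβ]; linarith
  obtain ⟨Ct, hCt, hT⟩ := telescope hd (C1 := C1 + 1) hα0 hα1 hβ0 hβ1.le (by linarith) he
  obtain ⟨Cf, hCf, hFb⟩ := fld_bounds hd hβ0 hβ1
  have hκ : 0 < kap d := kap_pos (by omega)
  refine ⟨Ct * Cf * (2 ^ (d - 1) + 2 ^ (β + (d:ℝ) - 1)) / kap d, by positivity, ?_⟩
  intro H M r v s x0 hH hM hr hv hv1 hs χ hχ hχc hsupp hχ1 hχM F hF Fk hFk hFkF hFkd E hE hEv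
    hFE ε hε
  have hH0 : 0 < H := by linarith
  set t0 : ℝ := (v ^ (1 / (d : ℝ)) / H) ^ (1 / α) with ht0def
  have hvd1 : v ^ (1 / (d : ℝ)) ≤ 1 := Real.rpow_le_one hv.le hv1 (by positivity)
  have hvd0 : 0 < v ^ (1 / (d : ℝ)) := Real.rpow_pos_of_pos hv _
  have ht0 : 0 < t0 := by rw [ht0def]; positivity
  have ht01 : t0 ≤ 1 := by
    rw [ht0def]
    refine Real.rpow_le_one (by positivity) ?_ (by positivity)
    rw [div_le_one hH0]; linarith
  have htk0 : ∀ k : ℕ, 0 < t0 / 2 ^ k := fun k => by positivity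
  have htk1 : ∀ k : ℕ, t0 / 2 ^ k ≤ 1 := by
    intro k
    rw [div_le_one (by positivity)]
    exact ht01.trans (one_le_pow₀ (by norm_num))
  -- the neighbourhood E'
  obtain ⟨R0, hR0E, hR0⟩ : ∃ R0 : ℝ, volume (Metric.cthickening R0 E) < ENNReal.ofReal v ∧
      0 < R0 := by
    have h1 := (tendsto_measure_cthickening_of_isCompact (μ := (volume : Measure (V d))) hE)
    have h2 : ∀ᶠ R in nhdsWithin (0:ℝ) (Set.Ioi 0),
        volume (Metric.cthickening R E) < ENNReal.ofReal v :=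
      (h1.mono_left nhdsWithin_le_nhds).eventually (gt_mem_nhds hEv)
    obtain ⟨R0, h3, h4⟩ := (h2.and self_mem_nhdsWithin).exists
    exact ⟨R0, h3, h4⟩
  set E' : Set (V d) := Metric.cthickening R0 E with hE'
  have hE'm : MeasurableSet E' := Metric.isClosed_cthickening.measurableSet
  have hE'f : volume E' ≠ ⊤ := (hR0E.trans_le le_top).ne
  have hE'v : (volume E').toReal ≤ v := by
    have := (ENNReal.toReal_mono ENNReal.ofReal_ne_top hR0E.le)
    rwa [ENNReal.toReal_ofReal hv.le] at this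
  -- large k
  obtain ⟨k0, hk0⟩ : ∃ k0 : ℕ, ∀ k ≥ k0, H * (t0 / 2 ^ k) ^ α ≤ R0 / 2 := by
    have h2 : Filter.Tendsto (fun k : ℕ => t0 / 2 ^ k) Filter.atTop (nhds 0) := by
      have h3 : Filter.Tendsto (fun k : ℕ => t0 * (1 / 2 : ℝ) ^ k) Filter.atTop (nhds (t0 * 0)) :=
        (tendsto_pow_atTop_nhds_zero_of_lt_one (by norm_num) (by norm_num)).const_mul t0
      rw [mul_zero] at h3
      refine h3.congr (fun k => ?_)
      rw [one_div, inv_pow, div_eq_mul_inv]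
    have h3 : Filter.Tendsto (fun k : ℕ => (t0 / 2 ^ k) ^ α) Filter.atTop (nhds (0 ^ α)) :=
      h2.rpow_const (Or.inr hα0.le)
    rw [Real.zero_rpow hα0.ne'] at h3
    have h4 := h3.const_mul H
    rw [mul_zero] at h4
    have h5 := h4.eventually (ge_mem_nhds (half_pos hR0))
    exact Filter.eventually_atTop.mp h5
  refine ⟨k0, fun k hk => ?_⟩
  have hkk := hk0 k hk
  set Gk : ℕ → Fin d → V d → ℝ := fun k => shf (Fk k) s with hGkdef
  set G : Fin d → V d → ℝ := shf F s with hGdef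
  have hGkC : ∀ k i, ContDiff ℝ 2 (Gk k i) := fun k i => shf_contDiff (hFk k) s i
  have hGkG : ∀ k i x, |Gk k i x - G i x| ≤ H * (t0 / 2 ^ k) ^ α := by
    intro k i x
    have : Gk k i x - G i x = Fk k i x - F i x := by
      simp only [hGkdef, hGdef, shf]; ring
    rw [this]; exact hFkF k i x
  have hGkd : ∀ k i x l, |pd (Gk k i) l x| ≤ (C1 + 1) * (2 * H) * (t0 / 2 ^ k) ^ (α - 1) := by
    intro k i x l
    have h1 : pd (Gk k i) l x = pd (Fk k i) l x - s * (if i = l then 1 else 0) :=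
      pd_shf x i (((hFk k i).differentiable (by norm_num)) x) s l
    have h2 : |s * (if i = l then (1:ℝ) else 0)| ≤ 1 := by
      split_ifs
      · simpa using hs
      · simp
    have h3 : 1 ≤ (t0 / 2 ^ k) ^ (α - 1) :=
      Real.one_le_rpow_of_pos_of_le_one_of_nonpos (htk0 k) (htk1 k) (by linarith)
    have h4 := hFkd k i x l
    rw [h1]
    have h5 : |pd (Fk k i) l x - s * (if i = l then (1:ℝ) else 0)| ≤
        |pd (Fk k i) l x| + |s * (if i = l then (1:ℝ) else 0)| := abs_sub _ _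
    have h6 : C1 * H * (t0 / 2 ^ k) ^ (α - 1) + 1 ≤
        (C1 + 1) * (2 * H) * (t0 / 2 ^ k) ^ (α - 1) := by
      have h7 : (1:ℝ) ≤ H * (t0 / 2 ^ k) ^ (α - 1) := by nlinarith
      have h8 : 0 ≤ C1 * (H * (t0 / 2 ^ k) ^ (α - 1)) := by positivity
      nlinarith
    linarith
  set Λ : ℝ := (C1 + 1) * (2 * H) * (t0 / 2 ^ k) ^ (α - 1) with hΛ
  have hΛ0 : 0 < Λ := by have := htk0 k; positivity
  have hf0 : (0:ℝ) < d.factorial := by exact_mod_cast d.factorial_pos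
  set Q : ℝ := d.factorial * Λ ^ d * (2 * r) ^ d with hQ
  have hQ0 : 0 < Q := by positivity
  obtain ⟨ρ, hρ, hρt⟩ := dker_tail (d := d) (R := R0 / 2) (ε := kap d * ε / Q) (by linarith)
    (by positivity)
  set ψ : Fin d → V d → ℝ := fun j => fld ρ E' j with hψ
  have hψC : ∀ i, ContDiff ℝ 1 (ψ i) := fun i => fld_contDiff (by omega) hρ hE'm hE'f i
  have hcore := core_identity χ (hχ.of_le (by norm_num)) hχc (Gk k) (hGkC k) ψ hψC
  set Dv : V d → ℝ := fun x => ∑ j, pd (ψ j) j (fun l => Gk k l x) with hDv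
  have hGcont : Continuous (fun x : V d => (fun l => Gk k l x : V d)) :=
    continuous_pi (fun l => (hGkC k l).continuous)
  have hDvc : Continuous Dv := by
    refine continuous_finsetSum _ (fun j _ => ?_)
    have h := (hψC j).continuous_fderiv (by norm_num)
    exact (h.comp hGcont).clm_apply continuous_const
  have hjc : Continuous (jdet (Gk k)) := y3_jdet_cont (hGkC k)
  have hball : ∀ x ∈ Metric.closedBall x0 r,
      Metric.closedBall (fun l => Gk k l x : V d) (R0 / 2) ⊆ E' := by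
    intro x hx y hy
    rw [hE']
    refine Metric.mem_cthickening_of_dist_le y (fun i => F i x - s * x i) R0 E (hFE x hx) ?_
    have h1 : dist (fun l => Gk k l x : V d) (fun i => F i x - s * x i) ≤ R0 / 2 := by
      rw [dist_eq_norm, pi_norm_le_iff_of_nonneg (by linarith)]
      intro i
      exact (hGkG k i x).trans hkk
    have h2 : dist y (fun l => Gk k l x : V d) ≤ R0 / 2 := hy
    calc dist y (fun i => F i x - s * x i) ≤ _ := dist_triangle _ (fun l => Gk k l x : V d) _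
      _ ≤ R0 := by linarith
  have hDv1 : ∀ x ∈ Metric.closedBall x0 r, |kap d - Dv x| ≤ kap d * ε / Q := by
    intro x hx
    have h1 : Dv x = ∫ z in E', dker ρ ((fun l => Gk k l x : V d) - z) :=
      fld_div (by omega) hρ hE'm hE'f _
    have h2 := fld_div_le hρ E' (fun l => Gk k l x : V d)
    have h3 := le_fld_div hρ hE'm (fun l => Gk k l x : V d) (hball x hx)
    rw [h1, abs_of_nonneg (by linarith)]
    linarith
  have hjb : ∀ x, |jdet (Gk k) x| ≤ d.factorial * Λ ^ d := by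
    intro x
    have := abs_jdet_le (Gk k) x (fun _ => Λ) (fun i j => hGkd k i x j)
    simpa using this
  have hχ0 : ∀ x, x ∉ Metric.closedBall x0 r → χ x = 0 := by
    intro x hx
    by_contra hne
    exact hx (hsupp (subset_tsupport _ hne))
  have hi1 : Integrable (fun x => χ x * jdet (Gk k) x) :=
    (hχ.continuous.mul hjc).integrable_of_hasCompactSupport hχc.mul_right
  have hi2 : Integrable (fun x => χ x * (Dv x * jdet (Gk k) x)) :=
    (hχ.continuous.mul (hDvc.mul hjc)).integrable_of_hasCompactSupport hχc.mul_right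
  have hvol : volume.real (Metric.closedBall x0 r) = (2 * r) ^ d := by
    rw [Measure.real, Real.volume_pi_closedBall x0 hr.le, ENNReal.toReal_ofReal (by positivity)]
    simp
  have hdiff : |kap d * (∫ x, χ x * jdet (Gk k) x) - ∫ x, χ x * (Dv x * jdet (Gk k) x)| ≤
      kap d * ε := by
    rw [← integral_const_mul, ← integral_sub (hi1.const_mul _) hi2,
      ← setIntegral_eq_integral_of_forall_compl_eq_zero (s := Metric.closedBall x0 r)
        (by intro x hx; rw [hχ0 x hx]; ring), ← Real.norm_eq_abs]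
    have hb : ∀ x ∈ Metric.closedBall x0 r,
        ‖kap d * (χ x * jdet (Gk k) x) - χ x * (Dv x * jdet (Gk k) x)‖ ≤
          kap d * ε / Q * (d.factorial * Λ ^ d) := by
      intro x hx
      have h1 : kap d * (χ x * jdet (Gk k) x) - χ x * (Dv x * jdet (Gk k) x) =
          χ x * ((kap d - Dv x) * jdet (Gk k) x) := by ring
      rw [h1, Real.norm_eq_abs, abs_mul, abs_mul]
      have h2 := hDv1 x hx
      have h3 := hjb x
      have h4 := hχ1 x
      calc |χ x| * (|kap d - Dv x| * |jdet (Gk k) x|)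
          ≤ 1 * (kap d * ε / Q * (d.factorial * Λ ^ d)) := by gcongr
        _ = _ := one_mul _
    refine (norm_setIntegral_le_of_norm_le_const (measure_closedBall_lt_top) hb).trans ?_
    rw [hvol]
    have h5 : kap d * ε / Q * (d.factorial * Λ ^ d) * (2 * r) ^ d = kap d * ε := by
      rw [mul_assoc, ← hQ]
      field_simp
    rw [h5]
  -- the bound of Iint by the telescoping
  have hB0 : ∀ i y, |ψ i y| ≤ Cf * v ^ (1 / (d:ℝ)) := by
    intro i y
    refine ((hFb ρ hρ E' hE'm hE'f i).1 y).trans ?_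
    gcongr
  have hB1 : ∀ i y y', |ψ i y - ψ i y'| ≤ (Cf * v ^ ((1 - β) / d)) * ‖y - y'‖ ^ β := by
    intro i y y'
    refine ((hFb ρ hρ E' hE'm hE'f i).2 y y').trans ?_
    have : (0:ℝ) ≤ (1 - β) / d := div_nonneg (by linarith) hd0.le
    gcongr
  have hGH : ∀ x y, ‖x - y‖ ≤ 1 → ∀ i, |G i x - G i y| ≤ 2 * H * ‖x - y‖ ^ α := by
    intro x y hxy i
    have h1 : G i x - G i y = (F i x - F i y) - s * (x i - y i) := by
      simp only [hGdef, shf]; ring
    have h2 : |x i - y i| ≤ ‖x - y‖ := by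
      have := norm_le_pi_norm (x - y) i
      simpa using this
    have h3 : ‖x - y‖ ≤ ‖x - y‖ ^ α := by
      calc ‖x - y‖ = ‖x - y‖ ^ (1:ℝ) := (Real.rpow_one _).symm
        _ ≤ ‖x - y‖ ^ α :=
          Real.rpow_le_rpow_of_exponent_ge' (norm_nonneg _) hxy hα0.le hα1
    have h4 : |s * (x i - y i)| ≤ ‖x - y‖ := by
      rw [abs_mul]
      nlinarith [abs_nonneg s, abs_nonneg (x i - y i)]
    rw [h1]
    have h5 := abs_sub (F i x - F i y) (s * (x i - y i))
    have h6 := hF x y i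
    have h7 : 0 ≤ ‖x - y‖ ^ α := by positivity
    nlinarith
  have htel := hT (2 * H) M r t0 (Cf * v ^ (1 / (d:ℝ))) (Cf * v ^ ((1 - β) / d)) x0 (by linarith)
    hM hr ht0 ht01 (by positivity) (by positivity) χ hχ hsupp hχM G hGH Gk hGkC
    (fun k i x => (hGkG k i x).trans (by
      have := htk0 k
      have h8 : 0 ≤ H * (t0 / 2 ^ k) ^ α := by positivity
      linarith)) hGkd ψ (fun i => (hψC i).continuous) hB0 hB1 k
  obtain ⟨hx1, hx2⟩ := y3_exp (d := d) hd (β := β) hα0 hH0 hv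
  rw [← ht0def] at hx1 hx2
  set W : ℝ := v ^ ((d * α - d + 1) / (d * α)) * H ^ (((d : ℝ) - 1) / α) with hW
  have hval : Cf * v ^ (1 / (d:ℝ)) * (2 * H * t0 ^ (α - 1)) ^ (d - 1) +
      Cf * v ^ ((1 - β) / d) * (2 * H) ^ (β + (d:ℝ) - 1) *
        t0 ^ (α * β + (α - 1) * ((d:ℝ) - 1)) =
      Cf * (2 ^ (d - 1) + 2 ^ (β + (d:ℝ) - 1)) * W := by
    have h1 : (2 * H * t0 ^ (α - 1)) ^ (d - 1) = 2 ^ (d - 1) * (H * t0 ^ (α - 1)) ^ (d - 1) := by
      rw [mul_assoc, mul_pow]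
    have h2 : (2 * H) ^ (β + (d:ℝ) - 1) = 2 ^ (β + (d:ℝ) - 1) * H ^ (β + (d:ℝ) - 1) :=
      Real.mul_rpow (by norm_num) hH0.le
    rw [h1, h2]
    calc _ = Cf * (2 ^ (d - 1) * (v ^ (1 / (d : ℝ)) * (H * t0 ^ (α - 1)) ^ (d - 1)) +
          2 ^ (β + (d:ℝ) - 1) * (v ^ ((1 - β) / d) * H ^ (β + (d : ℝ) - 1) *
            t0 ^ (α * β + (α - 1) * ((d : ℝ) - 1)))) := by ring
      _ = _ := by rw [hx1, hx2]; ring
  rw [hval] at htel
  have hfin : kap d * |∫ x, χ x * jdet (Gk k) x| ≤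
      kap d * ε + Ct * M * r ^ d * (Cf * (2 ^ (d - 1) + 2 ^ (β + (d:ℝ) - 1)) * W) := by
    have h1 : kap d * |∫ x, χ x * jdet (Gk k) x| = |kap d * ∫ x, χ x * jdet (Gk k) x| := by
      rw [abs_mul, abs_of_pos hκ]
    rw [h1]
    have h2 : kap d * (∫ x, χ x * jdet (Gk k) x) =
        (kap d * (∫ x, χ x * jdet (Gk k) x) - ∫ x, χ x * (Dv x * jdet (Gk k) x)) +
          (-Iint χ (Gk k) (fun j x => ψ j (fun l => Gk k l x))) := by
      rw [← hcore]; ring
    rw [h2]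
    refine (abs_add_le _ _).trans (add_le_add hdiff ?_)
    rw [abs_neg]
    exact htel
  have h3 : |∫ x, χ x * jdet (Gk k) x| ≤
      (kap d * ε + Ct * M * r ^ d * (Cf * (2 ^ (d - 1) + 2 ^ (β + (d:ℝ) - 1)) * W)) / kap d := by
    rw [le_div_iff₀ hκ, mul_comm]; exact hfin
  refine h3.trans (le_of_eq ?_)
  field_simp

end Pool.Agent.MPac5134.Lip
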