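import Pool.Agent.Lib.MP_ac5134_an.Lip.Y3
import Pool.Agent.Lib.MP_ac5134_an.Lip.B1
import Pool.Agent.Lib.MP_ac5134_an.Lip.X2

/-! LIP-Y4 (one of `d+1` slices is large).  Est. 0.8 h.  Uses Y3, B1, P1 (`mass_le`), X2 (`mollify`).

PROOF.  Let `h = 1/(2(d+1))`, `Cb` the constant of B1, `Cm` that of `mollify` (enlarged to `C1 = max Cm 1`), `C` that of Y3
for this `C1`.  Let `v = c (r H^(-(d-1)/α))^(dα/(dα-d+1))` with `0 < c ≤ 1` to be chosen; `0 < v ≤ 1`.  Suppose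
`volume (E i) < v` for all `i ≤ d`.  Take `χ` from B1 (`M = Cb/r`), and `Fk k i` := mollification of `F i` at the scale
`t_k = (v^(1/d)/H)^(1/α)/2^k ≤ 1`.  Y3 with `s = s0 + i h ∈ [0,1]`, `ε = h^d r^d/2^(d+2)` gives a `k` that works for all `i ≤ d`
(maximum of the `k0`'s), and `mass_le` gives
`h^d r^d ≤ h^d ∫ χ ≤ 2^d (ε + C (Cb/r) r^d v^((dα-d+1)/(dα)) H^((d-1)/α)) = h^d r^d/4 + 2^d C Cb r^d c^((dα-d+1)/(dα))`,
because `v^((dα-d+1)/(dα)) = c^(..) r H^(-(d-1)/α)`.  With `c` so small that `2^d C Cb c^((dα-d+1)/(dα)) ≤ h^d/4`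
this is `≤ h^d r^d/2`, a contradiction.  (`dα-d+1 > 0`.) -/

namespace Pool.Agent.MPac5134.Lip

open MeasureTheory
open scoped ENNReal

variable {d : ℕ}

theorem exists_slice (hd : 2 ≤ d) {α : ℝ} (hα : ((d : ℝ) - 1) / d < α) (hα1 : α ≤ 1) :
    ∃ c : ℝ, 0 < c ∧ ∀ (H r s0 : ℝ) (x0 : V d), 1 ≤ H → 0 < r → r ≤ 1 → 0 ≤ s0 → s0 ≤ 1 / 2 →
      ∀ F : Fin d → V d → ℝ, (∀ x y i, |F i x - F i y| ≤ H * ‖x - y‖ ^ α) →
      ∀ E : ℕ → Set (V d), (∀ i, IsCompact (E i)) →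
      (∀ i ≤ d, ∀ x ∈ Metric.closedBall x0 r,
        (fun l => F l x - (s0 + i * (1 / (2 * ((d : ℝ) + 1)))) * x l) ∈ E i) →
      ∃ i ≤ d, ENNReal.ofReal (c * (r * H ^ (-((d : ℝ) - 1) / α)) ^ (d * α / (d * α - d + 1))) ≤
        volume (E i) := by
  have hd0 : (2 : ℝ) ≤ d := by exact_mod_cast hd
  have hdpos : (0 : ℝ) < d := by linarith
  have hα0 : 0 < α := lt_of_le_of_lt (div_nonneg (by linarith) hdpos.le) hα
  have hγ : 0 < (d : ℝ) * α - d + 1 := by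
    rw [div_lt_iff₀ hdpos] at hα
    linarith
  have hdα : 0 < (d : ℝ) * α := by positivity
  obtain ⟨Cb, hCb, hbump⟩ := exists_bump d
  obtain ⟨C0, hC0, hmol⟩ := mollify d
  obtain ⟨C, hC, hslice⟩ := slice_small hd (C1 := max C0 1) hα hα1 (le_max_right _ _)
  set h : ℝ := 1 / (2 * ((d : ℝ) + 1)) with hh
  have hhpos : 0 < h := by positivity
  set γ : ℝ := (d : ℝ) * α - d + 1 with hγdef
  set q : ℝ := h ^ d / (4 * 2 ^ d * C * Cb) with hq
  have hqpos : 0 < q := by positivity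
  obtain ⟨c, hc0, hc1, hcq⟩ : ∃ c : ℝ, 0 < c ∧ c ≤ 1 ∧ c ^ (γ / (d * α)) ≤ q := by
    refine ⟨min 1 (q ^ (d * α / γ)), by positivity, min_le_left _ _, ?_⟩
    calc (min 1 (q ^ (d * α / γ))) ^ (γ / (d * α)) ≤ (q ^ (d * α / γ)) ^ (γ / (d * α)) :=
          Real.rpow_le_rpow (by positivity) (min_le_right _ _) (by positivity)
      _ = q := by
          rw [← Real.rpow_mul hqpos.le]
          have : (d * α / γ) * (γ / (d * α)) = 1 := by field_simp
          rw [this, Real.rpow_one]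
  refine ⟨c, hc0, fun H r s0 x0 hH hr hr1 hs0 hs1 F hF E hE hmem => ?_⟩
  have hH0 : 0 < H := by linarith
  set w : ℝ := r * H ^ (-((d : ℝ) - 1) / α) with hw
  have hw0 : 0 < w := by positivity
  have hw1 : w ≤ 1 := by
    have h1 : H ^ (-((d : ℝ) - 1) / α) ≤ 1 :=
      Real.rpow_le_one_of_one_le_of_nonpos hH (div_nonpos_of_nonpos_of_nonneg (by linarith) hα0.le)
    calc w ≤ 1 * 1 := mul_le_mul hr1 h1 (by positivity) (by norm_num)
      _ = 1 := by norm_num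
  set v : ℝ := c * w ^ (d * α / γ) with hv
  have hv0 : 0 < v := by positivity
  have hv1 : v ≤ 1 := by
    have h1 : w ^ (d * α / γ) ≤ 1 := Real.rpow_le_one hw0.le hw1 (by positivity)
    calc v ≤ 1 * 1 := mul_le_mul hc1 h1 (by positivity) (by norm_num)
      _ = 1 := by norm_num
  by_contra hcon
  push Not at hcon
  -- the scales
  set t0 : ℝ := (v ^ (1 / (d : ℝ)) / H) ^ (1 / α) with ht0
  have ht0pos : 0 < t0 := by positivity
  have ht01 : t0 ≤ 1 := by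
    refine Real.rpow_le_one (by positivity) ?_ (by positivity)
    rw [div_le_one hH0]
    exact (Real.rpow_le_one hv0.le hv1 (by positivity)).trans hH
  have htk : ∀ k : ℕ, 0 < t0 / 2 ^ k ∧ t0 / 2 ^ k ≤ 1 := by
    intro k
    refine ⟨by positivity, ?_⟩
    rw [div_le_one (by positivity)]
    exact ht01.trans (one_le_pow₀ (by norm_num))
  choose Fk hFk1 hFk2 hFk3 using fun (k : ℕ) (i : Fin d) =>
    hmol (F i) H α hH0.le hα0 hα1 (fun x y _ => hF x y i) (t0 / 2 ^ k) (htk k).1 (htk k).2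
  obtain ⟨χ, hχ1, hχ2, hχ3, hχ4, hχ5, hχ6, hχ7⟩ := hbump x0 r hr
  have hχabs : ∀ x, |χ x| ≤ 1 := fun x => by
    rw [abs_of_nonneg (hχ4 x)]
    exact hχ5 x
  have hsi : ∀ i : ℕ, i ≤ d → |s0 + i * h| ≤ 1 := by
    intro i hi
    have hi' : (i : ℝ) ≤ d := by exact_mod_cast hi
    have h1 : (i : ℝ) * h ≤ 1 / 2 := by
      rw [hh, mul_one_div, div_le_iff₀ (by positivity)]
      linarith
    have h2 : 0 ≤ (i : ℝ) * h := by positivity
    rw [abs_of_nonneg (by linarith)]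
    linarith
  set ε : ℝ := h ^ d * r ^ d / 2 ^ (d + 2) with hε
  have hεpos : 0 < ε := by positivity
  have hFk3' : ∀ k i x l, |pd (Fk k i) l x| ≤ max C0 1 * H * (t0 / 2 ^ k) ^ (α - 1) := by
    intro k i x l
    have h1 : (0 : ℝ) ≤ H * (t0 / 2 ^ k) ^ (α - 1) :=
      mul_nonneg hH0.le (Real.rpow_nonneg (htk k).1.le _)
    calc |pd (Fk k i) l x| ≤ C0 * H * (t0 / 2 ^ k) ^ (α - 1) := hFk3 k i x l
      _ = C0 * (H * (t0 / 2 ^ k) ^ (α - 1)) := by ring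
      _ ≤ max C0 1 * (H * (t0 / 2 ^ k) ^ (α - 1)) :=
          mul_le_mul_of_nonneg_right (le_max_left _ _) h1
      _ = _ := by ring
  have hk0 : ∀ i : ℕ, ∃ k0 : ℕ, i ≤ d → ∀ k ≥ k0,
      |∫ x, χ x * jdet (shf (Fk k) (s0 + i * h)) x| ≤ ε + C * (Cb / r) * r ^ d *
          (v ^ ((d * α - d + 1) / (d * α)) * H ^ (((d : ℝ) - 1) / α)) := by
    intro i
    by_cases hi : i ≤ d
    · obtain ⟨k0, hk0⟩ := hslice H (Cb / r) r v (s0 + i * h) x0 hH (by positivity) hr hv0 hv1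
        (hsi i hi) χ hχ1 hχ2 hχ3 hχabs hχ6 F hF Fk hFk1 (fun k i x => hFk2 k i x)
        hFk3' (E i) (hE i) (hcon i hi) (hmem i hi) ε hεpos
      exact ⟨k0, fun _ => hk0⟩
    · exact ⟨0, fun hi' => absurd hi' hi⟩
  choose k0 hk0 using hk0
  set k : ℕ := (Finset.range (d + 1)).sup k0 with hk
  have hτ := mass_le χ hχ1.continuous hχ2 (Fk k) (fun i => (hFk1 k i).of_le (by norm_num))
    (s0 := s0) (h := h) (τ := ε + C * (Cb / r) * r ^ d *
          (v ^ ((d * α - d + 1) / (d * α)) * H ^ (((d : ℝ) - 1) / α))) hhpos.le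
    (fun i hi => hk0 i hi k (Finset.le_sup (f := k0) (Finset.mem_range.mpr (by omega))))
  have hvpow : v ^ ((d * α - d + 1) / (d * α)) * H ^ (((d : ℝ) - 1) / α) =
      c ^ (γ / (d * α)) * r := by
    rw [← hγdef, hv, Real.mul_rpow hc0.le (by positivity), ← Real.rpow_mul hw0.le]
    have h1 : (d * α / γ) * (γ / (d * α)) = 1 := by field_simp
    rw [h1, Real.rpow_one, hw]
    have h2 : H ^ (-((d : ℝ) - 1) / α) * H ^ (((d : ℝ) - 1) / α) = 1 := by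
      rw [← Real.rpow_add hH0]
      have : -((d : ℝ) - 1) / α + ((d : ℝ) - 1) / α = 0 := by ring
      rw [this, Real.rpow_zero]
    calc c ^ (γ / (d * α)) * (r * H ^ (-((d : ℝ) - 1) / α)) * H ^ (((d : ℝ) - 1) / α) =
        c ^ (γ / (d * α)) * r * (H ^ (-((d : ℝ) - 1) / α) * H ^ (((d : ℝ) - 1) / α)) := by ring
      _ = _ := by rw [h2, mul_one]
  rw [hvpow, abs_of_nonneg (le_trans (by positivity) hχ7)] at hτ
  have h1 : h ^ d * r ^ d ≤ h ^ d * ∫ x, χ x := mul_le_mul_of_nonneg_left hχ7 (by positivity)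
  have h2 : (2 : ℝ) ^ d * ε = h ^ d * r ^ d / 4 := by
    rw [hε, pow_add]
    field_simp
    norm_num
  have h3 : C * (Cb / r) * r ^ d * (c ^ (γ / (d * α)) * r) =
      C * Cb * r ^ d * c ^ (γ / (d * α)) := by
    field_simp
  have h4 : (2 : ℝ) ^ d * (C * Cb * r ^ d * c ^ (γ / (d * α))) ≤ h ^ d * r ^ d / 4 := by
    calc (2 : ℝ) ^ d * (C * Cb * r ^ d * c ^ (γ / (d * α))) ≤
        (2 : ℝ) ^ d * (C * Cb * r ^ d * q) := by gcongr
      _ = h ^ d * r ^ d / 4 := by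
          rw [hq]
          field_simp
  rw [h3, mul_add, h2] at hτ
  have h5 : 0 < h ^ d * r ^ d := by positivity
  linarith

end Pool.Agent.MPac5134.Lip
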