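import Pool.Agent.Lib.MP_ac5134_an.Lip.Y4

/-! LIP-Y5 (integration over the height).  Est. 0.6 h.  Uses Y4.

PROOF.  Let `h = 1/(2(d+1))`, `K_s = {y | (y, s) ∈ K}` (compact: closed and bounded; or the preimage under the closed
embedding `y ↦ (y, s)`).  For `s0 ∈ [1/4, 1/4+h)` all `s0 + i h`, `i ≤ d`, are in `[1/4, 3/4]`, so Y4 with `E i = K_{s0+ih}`
(for `i > d` take `E i = ∅`) gives `v ≤ ∑_{i ≤ d} volume (K_{s0+ih})`.  Integrate over `s0 ∈ [1/4, 1/4+h)`:
`h v ≤ ∑_{i≤d} ∫_{[1/4+ih, 1/4+(i+1)h)} volume(K_s) ds ≤ ∫ volume (K_s) ds = volume K`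
(`MeasureTheory.Measure.prod_apply_symm` or `volume_eq_prod` + `lintegral_prod_symm`; the intervals are disjoint;
translation invariance `lintegral_add_right_eq_self`/`setLIntegral` substitution; measurability of `s ↦ volume (K_s)`:
`measurable_measure_prodMk_right`).  So `c := h c_(Y4)`. -/

namespace Pool.Agent.MPac5134.Lip

open MeasureTheory
open scoped ENNReal

variable {d : ℕ}

private theorem shift_int (f : ℝ → ℝ≥0∞) (a h t : ℝ) :
    ∫⁻ s in Set.Ico a (a + h), f (s + t) = ∫⁻ s in Set.Ico (a + t) (a + t + h), f s := by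
  rw [← lintegral_indicator measurableSet_Ico, ← lintegral_indicator measurableSet_Ico]
  rw [← lintegral_add_right_eq_self
    (fun s => (Set.Ico (a + t) (a + t + h)).indicator (fun s => f s) s) t]
  refine lintegral_congr fun s => ?_
  by_cases hs : s ∈ Set.Ico a (a + h)
  · rw [Set.indicator_of_mem hs, Set.indicator_of_mem]
    rw [Set.mem_Ico] at hs ⊢
    constructor <;> linarith [hs.1, hs.2]
  · rw [Set.indicator_of_notMem hs, Set.indicator_of_notMem]
    rw [Set.mem_Ico] at hs ⊢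
    intro h'
    exact hs ⟨by linarith [h'.1], by linarith [h'.2]⟩

theorem compact_volume (hd : 2 ≤ d) {α : ℝ} (hα : ((d : ℝ) - 1) / d < α) (hα1 : α ≤ 1) :
    ∃ c : ℝ, 0 < c ∧ ∀ (H r : ℝ) (x0 : V d), 1 ≤ H → 0 < r → r ≤ 1 →
      ∀ F : Fin d → V d → ℝ, (∀ x y i, |F i x - F i y| ≤ H * ‖x - y‖ ^ α) →
      ∀ K : Set (V d × ℝ), IsCompact K →
      (∀ x ∈ Metric.closedBall x0 r, ∀ s ∈ Set.Icc (1 / 4 : ℝ) (3 / 4),
        ((fun i => F i x - s * x i), s) ∈ K) →
      ENNReal.ofReal (c * (r * H ^ (-((d : ℝ) - 1) / α)) ^ (d * α / (d * α - d + 1))) ≤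
        volume K := by
  obtain ⟨c, hc, hslice⟩ := exists_slice hd hα hα1
  have hd0 : (2 : ℝ) ≤ d := by exact_mod_cast hd
  set h : ℝ := 1 / (2 * ((d : ℝ) + 1)) with hh
  have hhpos : 0 < h := by positivity
  have hdh : ((d : ℝ) + 1) * h = 1 / 2 := by rw [hh]; field_simp
  refine ⟨h * c, by positivity, fun H r x0 hH hr hr1 F hF K hK hmem => ?_⟩
  set v : ℝ := c * (r * H ^ (-((d : ℝ) - 1) / α)) ^ (d * α / (d * α - d + 1)) with hv
  have hv0 : 0 ≤ v := by
    have : 0 < H := by linarith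
    positivity
  set f : ℝ → ℝ≥0∞ := fun s => volume ((fun y : V d => (y, s)) ⁻¹' K) with hf
  have hfm : Measurable f := measurable_measure_prodMk_right hK.measurableSet
  have hvolK : volume K = ∫⁻ s, f s := by
    rw [Measure.volume_eq_prod, Measure.prod_apply_symm hK.measurableSet]
  have hcomp : ∀ s : ℝ, IsCompact ((fun y : V d => (y, s)) ⁻¹' K) := by
    intro s
    have h1 : (fun y : V d => (y, s)) ⁻¹' K = Prod.fst '' (K ∩ Prod.snd ⁻¹' {s}) := by
      ext y
      simp only [Set.mem_preimage, Set.mem_image, Set.mem_inter_iff, Set.mem_singleton_iff,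
        Prod.exists, exists_and_right, exists_eq_right]
    rw [h1]
    exact (hK.inter_right (isClosed_singleton.preimage continuous_snd)).image continuous_fst
  -- pointwise
  have hpt : ∀ s0 ∈ Set.Ico (1 / 4 : ℝ) (1 / 4 + h),
      ENNReal.ofReal v ≤ ∑ i ∈ Finset.range (d + 1), f (s0 + i * h) := by
    intro s0 hs0
    rw [Set.mem_Ico] at hs0
    have hh3 : h ≤ 1 / 4 := by nlinarith
    obtain ⟨i, hi, hle⟩ := hslice H r s0 x0 hH hr hr1 (by linarith [hs0.1]) (by linarith [hs0.2]) F hF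
      (fun i => (fun y : V d => (y, s0 + i * h)) ⁻¹' K) (fun i => hcomp _) (fun i hi x hx => by
        refine hmem x hx _ ?_
        have hi' : (i : ℝ) ≤ d := by exact_mod_cast hi
        have h1 : (i : ℝ) * h ≤ d * h := mul_le_mul_of_nonneg_right hi' hhpos.le
        have h2 : 0 ≤ (i : ℝ) * h := by positivity
        rw [Set.mem_Icc]
        constructor
        · linarith [hs0.1]
        · have := hs0.2
          linarith)
    refine hle.trans ?_
    exact Finset.single_le_sum (f := fun i : ℕ => f (s0 + i * h)) (fun _ _ => zero_le)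
      (Finset.mem_range.mpr (by omega))
  have h1 : ENNReal.ofReal v * ENNReal.ofReal h ≤
      ∑ i ∈ Finset.range (d + 1), ∫⁻ s in Set.Ico (1 / 4 : ℝ) (1 / 4 + h), f (s + i * h) := by
    rw [← lintegral_finsetSum]
    · calc ENNReal.ofReal v * ENNReal.ofReal h =
          ∫⁻ _ in Set.Ico (1 / 4 : ℝ) (1 / 4 + h), ENNReal.ofReal v := by
            rw [setLIntegral_const, Real.volume_Ico]
            congr 2
            ring
        _ ≤ _ := setLIntegral_mono' measurableSet_Ico hpt
    · intro i _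
      exact hfm.comp (measurable_id.add_const _)
  have h2 : ∑ i ∈ Finset.range (d + 1), ∫⁻ s in Set.Ico (1 / 4 : ℝ) (1 / 4 + h), f (s + i * h) =
      ∫⁻ s in ⋃ i ∈ Finset.range (d + 1), Set.Ico (1 / 4 + (i : ℝ) * h) (1 / 4 + i * h + h), f s := by
    rw [lintegral_biUnion_finset]
    · exact Finset.sum_congr rfl fun i _ => shift_int f _ _ _
    · intro i _ j _ hij
      show Disjoint (Set.Ico (1 / 4 + (i : ℝ) * h) (1 / 4 + i * h + h))
        (Set.Ico (1 / 4 + (j : ℝ) * h) (1 / 4 + j * h + h))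
      rw [Set.disjoint_left]
      intro x hx hx'
      rw [Set.mem_Ico] at hx hx'
      rcases lt_or_gt_of_ne hij with hlt | hlt
      · have h3 : ((i : ℝ) + 1) ≤ j := by exact_mod_cast hlt
        have h4 := mul_le_mul_of_nonneg_right h3 hhpos.le
        linarith [hx.2, hx'.1]
      · have h3 : ((j : ℝ) + 1) ≤ i := by exact_mod_cast hlt
        have h4 := mul_le_mul_of_nonneg_right h3 hhpos.le
        linarith [hx.1, hx'.2]
    · intro i _
      exact measurableSet_Ico
  have h3 : h * c * (r * H ^ (-((d : ℝ) - 1) / α)) ^ (d * α / (d * α - d + 1)) = v * h := by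
    rw [hv]
    ring
  rw [h3, ENNReal.ofReal_mul hv0, hvolK]
  refine h1.trans ?_
  rw [h2]
  exact setLIntegral_le_lintegral _ _

end Pool.Agent.MPac5134.Lip
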