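import Pool.Agent.Lib.MP_ac5134_an.Lip.T3
import Pool.Agent.Lib.MP_ac5134_an.Lip.X1
import Pool.Agent.Lib.MP_ac5134_an.Lip.Y5

/-! LIP-Y6 (the theorem for sets).  Est. 1.2 h.  Uses T3, X1, Y5.

PROOF.  Put `r = R (8H)^(-1/α) ≤ R`; then `H r^α = R^α/8 ≤ 1/8` and `r ≤ 1/8`.  On `B = closedBall x0 r` let
`F x = a x + (b x - b x0) x`.  For `x, y ∈ B`, componentwise,
`|F x - F y| ≤ |a x - a y| + |b x - b y| |x_i| + |b y - b x0| |x_i - y_i| ≤ H‖x-y‖^α + 2 H‖x-y‖^α + (1/8)‖x-y‖ ≤ 4H ‖x-y‖^α`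
(`‖x‖ ≤ ‖x0‖ + r ≤ 2`, `‖x-y‖ ≤ 2r ≤ 1`, `α ≤ 1`, `H ≥ 1`).  Extend each component by `mcshane` (X1, index type `B`, error `0`)
to `F̃ : Fin d → V d → ℝ`, globally `4H`-Hoelder, `F̃ = F` on `B`.
The set `K = {(y, s) | s ∈ [1/4, 3/4], ∃ x ∈ B, y = F̃ x - s x}` is compact (image of `B × [1/4,3/4]` under a continuous map;
`F̃` is continuous, being Hoelder) and `(y,s) ∈ K` implies `pt (y, b x0 + s) ∈ E`: with `t = s + b x0 - b x ∈ [1/8, 7/8]`,
`a x - t x = F x - s x` and `b x + t = b x0 + s`.  So, `K' = {(y, s + b x0) | (y,s) ∈ K}` (a translate of `K`, same volume) satisfies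
`pt '' K' ⊆ E`, and `volume E ≥ volume (pt '' K') = volume K' = volume K` (T3 `volume_eq_prod_pt` for the compact set
`pt '' K'`; `pt` is injective), and Y5 with `4H` gives
`volume K ≥ c (r (4H)^(-(d-1)/α))^(dα/(dα-d+1))`, `r (4H)^(-(d-1)/α) = const R H^(-d/α)`, whose power is
`const (R^α H^(-d))^(d/(dα-d+1))`. -/

namespace Pool.Agent.MPac5134.Lip

open MeasureTheory
open scoped ENNReal

variable {d : ℕ}

private theorem y6_continuous {F : V d → ℝ} {α H : ℝ} (hα : 0 < α)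
    (h : ∀ x y, |F x - F y| ≤ H * ‖x - y‖ ^ α) : Continuous F := by
  rw [continuous_iff_continuousAt]
  intro x
  rw [ContinuousAt, tendsto_iff_norm_sub_tendsto_zero]
  have h1 : Continuous fun y : V d => H * ‖y - x‖ ^ α :=
    continuous_const.mul (((continuous_id.sub continuous_const).norm).rpow_const
      fun _ => Or.inr hα.le)
  have h2 := h1.tendsto x
  rw [sub_self, norm_zero, Real.zero_rpow hα.ne', mul_zero] at h2
  refine squeeze_zero (fun y => norm_nonneg _) (fun y => ?_) h2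
  rw [Real.norm_eq_abs]
  exact h y x

private theorem y6_arith {α e R H k : ℝ} (hα : 0 < α) (hR : 0 < R) (hH : 1 ≤ H) :
    ((8 : ℝ)⁻¹ * 4 ^ (-(k - 1))) ^ e * (R ^ α * H ^ (-k)) ^ e =
      (R * (8 * H) ^ (-1 / α) * (4 * H) ^ (-(k - 1) / α)) ^ (α * e) := by
  have hH0 : 0 < H := by linarith
  have h8 : 0 < 8 * H := by positivity
  have h4 : 0 < 4 * H := by positivity
  rw [← Real.mul_rpow (by positivity) (by positivity), Real.rpow_mul (by positivity)]
  congr 1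
  rw [Real.mul_rpow (by positivity) (by positivity), Real.mul_rpow (by positivity) (by positivity),
    ← Real.rpow_mul h8.le, ← Real.rpow_mul h4.le, div_mul_cancel₀ _ hα.ne',
    div_mul_cancel₀ _ hα.ne', Real.mul_rpow (by norm_num) hH0.le,
    Real.mul_rpow (by norm_num) hH0.le, Real.rpow_neg_one 8]
  have h1 : H ^ (-k) = H ^ (-1 : ℝ) * H ^ (-(k - 1)) := by
    rw [← Real.rpow_add hH0]
    congr 1
    ring
  rw [h1]
  ring

theorem holder_sets (hd : 2 ≤ d) {α : ℝ} (hα : ((d : ℝ) - 1) / d < α) (hα1 : α ≤ 1) :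
    ∃ c : ℝ, 0 < c ∧ ∀ (H R : ℝ) (x0 : V d), 1 ≤ H → 0 < R → R ≤ 1 → ‖x0‖ ≤ 1 →
      ∀ (a : V d → V d) (b : V d → ℝ),
      (∀ x ∈ Metric.closedBall x0 R, ∀ y ∈ Metric.closedBall x0 R,
        ‖a x - a y‖ ≤ H * ‖x - y‖ ^ α) →
      (∀ x ∈ Metric.closedBall x0 R, ∀ y ∈ Metric.closedBall x0 R,
        |b x - b y| ≤ H * ‖x - y‖ ^ α) →
      ∀ E : Set (Sp d), (∀ x ∈ Metric.closedBall x0 R, ∀ t ∈ Set.Icc (0 : ℝ) 1,
        pt (a x - t • x, b x + t) ∈ E) →
      ENNReal.ofReal (c * (R ^ α * H ^ (-(d : ℝ))) ^ (d / (d * α - d + 1))) ≤ volume E := by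
  have hd0 : (0 : ℝ) < d := by
    have : 0 < d := by omega
    exact_mod_cast this
  have hα0 : 0 < α := by
    refine lt_of_le_of_lt ?_ hα
    have h1 : (2 : ℝ) ≤ d := by exact_mod_cast hd
    have h2 : (0 : ℝ) ≤ (d : ℝ) - 1 := by linarith
    exact div_nonneg h2 hd0.le
  obtain ⟨c, hc, hmain⟩ := compact_volume hd hα hα1
  refine ⟨c * ((8 : ℝ)⁻¹ * 4 ^ (-((d : ℝ) - 1))) ^ ((d : ℝ) / (d * α - d + 1)), by positivity, ?_⟩
  intro H R x0 hH hR hR1 hx0 a b ha hb E hE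
  have hH0 : 0 < H := by linarith
  have h8 : 0 < 8 * H := by positivity
  obtain ⟨r, hr⟩ : ∃ r, r = R * (8 * H) ^ (-1 / α) := ⟨_, rfl⟩
  have hr0 : 0 < r := by rw [hr]; positivity
  have h8le : (8 * H) ^ (-1 / α) ≤ 1 / 8 := by
    have h1 : (8 * H) ^ (-1 / α) ≤ (8 * H) ^ (-1 : ℝ) := by
      refine Real.rpow_le_rpow_of_exponent_le (by linarith) ?_
      rw [div_le_iff₀ hα0]
      linarith
    refine h1.trans ?_
    rw [Real.rpow_neg_one, one_div]
    exact inv_anti₀ (by norm_num) (by linarith)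
  have hrR : r ≤ R := by
    rw [hr]
    calc R * (8 * H) ^ (-1 / α) ≤ R * 1 := by
          refine mul_le_mul_of_nonneg_left (h8le.trans (by norm_num)) hR.le
      _ = R := mul_one R
  have hr8 : r ≤ 1 / 8 := by
    rw [hr]
    calc R * (8 * H) ^ (-1 / α) ≤ 1 * (1 / 8) := by
          refine mul_le_mul hR1 h8le (by positivity) (by norm_num)
      _ = 1 / 8 := by norm_num
  have hHr : H * r ^ α ≤ 1 / 8 := by
    rw [hr, Real.mul_rpow hR.le (by positivity), ← Real.rpow_mul h8.le, div_mul_cancel₀ _ hα0.ne',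
      Real.rpow_neg_one]
    have h1 : R ^ α ≤ 1 := Real.rpow_le_one hR.le hR1 hα0.le
    have h2 : H * (R ^ α * (8 * H)⁻¹) = R ^ α / 8 := by
      field_simp
    rw [h2]
    linarith
  have hBR : ∀ x ∈ Metric.closedBall x0 r, x ∈ Metric.closedBall x0 R := fun x hx =>
    Metric.closedBall_subset_closedBall hrR hx
  have hx0R : x0 ∈ Metric.closedBall x0 R := Metric.mem_closedBall_self hR.le
  have hb0 : ∀ x ∈ Metric.closedBall x0 r, |b x - b x0| ≤ 1 / 8 := by
    intro x hx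
    refine (hb x (hBR x hx) x0 hx0R).trans (le_trans ?_ hHr)
    refine mul_le_mul_of_nonneg_left ?_ hH0.le
    refine Real.rpow_le_rpow (norm_nonneg _) ?_ hα0.le
    rw [← dist_eq_norm]
    exact hx
  have hf : ∀ i : Fin d, ∀ x y : {x // x ∈ Metric.closedBall x0 r},
      |(a x i + (b x - b x0) * x.1 i) - (a y i + (b y - b x0) * y.1 i)| ≤
        (4 * H) * ‖x.1 - y.1‖ ^ α + 0 := by
    intro i x y
    have h1 : |a x i - a y i| ≤ H * ‖x.1 - y.1‖ ^ α := by
      refine le_trans ?_ (ha x (hBR x x.2) y (hBR y y.2))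
      have := norm_le_pi_norm (a x - a y) i
      simpa using this
    have h2 : |b x - b y| ≤ H * ‖x.1 - y.1‖ ^ α := hb x (hBR x x.2) y (hBR y y.2)
    have h3 : |x.1 i| ≤ 2 := by
      have h4 : |x.1 i| ≤ ‖x.1‖ := by
        have := norm_le_pi_norm x.1 i
        simpa using this
      have h5 : ‖x.1‖ ≤ ‖x0‖ + ‖x.1 - x0‖ := by
        have := norm_add_le x0 (x.1 - x0)
        simpa using this
      have h6 : ‖x.1 - x0‖ ≤ r := by
        rw [← dist_eq_norm]
        exact x.2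
      linarith
    have h4 : |x.1 i - y.1 i| ≤ ‖x.1 - y.1‖ := by
      have := norm_le_pi_norm (x.1 - y.1) i
      simpa using this
    have h5 : ‖x.1 - y.1‖ ≤ 1 := by
      have h6 : ‖x.1 - y.1‖ ≤ ‖x.1 - x0‖ + ‖y.1 - x0‖ := by
        have := norm_sub_le (x.1 - x0) (y.1 - x0)
        simpa using this
      have h7 : ‖x.1 - x0‖ ≤ r := by
        rw [← dist_eq_norm]
        exact x.2
      have h8 : ‖y.1 - x0‖ ≤ r := by
        rw [← dist_eq_norm]
        exact y.2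
      linarith
    have h6 : ‖x.1 - y.1‖ ≤ ‖x.1 - y.1‖ ^ α := by
      have := Real.rpow_le_rpow_of_exponent_ge' (norm_nonneg (x.1 - y.1)) h5 hα0.le hα1
      rwa [Real.rpow_one] at this
    have h7 : (0 : ℝ) ≤ ‖x.1 - y.1‖ ^ α := by positivity
    have h8 := hb0 y y.2
    have h9 : (a x i + (b x - b x0) * x.1 i) - (a y i + (b y - b x0) * y.1 i) =
        (a x i - a y i) + ((b x - b y) * x.1 i + (b y - b x0) * (x.1 i - y.1 i)) := by ring
    rw [h9]
    have h10 : |(b x - b y) * x.1 i| ≤ (H * ‖x.1 - y.1‖ ^ α) * 2 := by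
      rw [abs_mul]
      exact mul_le_mul h2 h3 (abs_nonneg _) (by positivity)
    have h11 : |(b y - b x0) * (x.1 i - y.1 i)| ≤ 1 / 8 * ‖x.1 - y.1‖ ^ α := by
      rw [abs_mul]
      exact mul_le_mul h8 (h4.trans h6) (abs_nonneg _) (by norm_num)
    have h12 : 1 / 8 * ‖x.1 - y.1‖ ^ α ≤ H * ‖x.1 - y.1‖ ^ α :=
      mul_le_mul_of_nonneg_right (by linarith) h7
    have h13 := abs_add_le (a x i - a y i) ((b x - b y) * x.1 i + (b y - b x0) * (x.1 i - y.1 i))
    have h14 := abs_add_le ((b x - b y) * x.1 i) ((b y - b x0) * (x.1 i - y.1 i))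
    linarith
  have : Nonempty {x // x ∈ Metric.closedBall x0 r} := ⟨⟨x0, Metric.mem_closedBall_self hr0.le⟩⟩
  have hex : ∀ i : Fin d, ∃ F : V d → ℝ, (∀ x y, |F x - F y| ≤ (4 * H) * ‖x - y‖ ^ α) ∧
      ∀ x : {x // x ∈ Metric.closedBall x0 r}, |F x.1 - (a x i + (b x - b x0) * x.1 i)| ≤ 0 :=
    fun i => mcshane hα0 hα1 (by positivity) le_rfl
      (fun x : {x // x ∈ Metric.closedBall x0 r} => x.1)
      (fun x => a x i + (b x - b x0) * x.1 i) (hf i)
  choose F hF1 hF2 using hex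
  have hF2' : ∀ i, ∀ x ∈ Metric.closedBall x0 r, F i x = a x i + (b x - b x0) * x i := by
    intro i x hx
    have h1 := hF2 i ⟨x, hx⟩
    have h2 := abs_nonpos_iff.1 h1
    exact sub_eq_zero.1 h2
  obtain ⟨K, hKdef⟩ : ∃ K : Set (V d × ℝ), K =
      (fun p : V d × ℝ => ((fun i => F i p.1 - p.2 * p.1 i : V d), p.2)) ''
        (Metric.closedBall x0 r ×ˢ Set.Icc (1 / 4 : ℝ) (3 / 4)) := ⟨_, rfl⟩
  have hKc : IsCompact K := by
    rw [hKdef]
    refine ((isCompact_closedBall x0 r).prod isCompact_Icc).image ?_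
    refine Continuous.prodMk (continuous_pi fun i => ?_) continuous_snd
    exact ((y6_continuous hα0 (hF1 i)).comp continuous_fst).sub
      (continuous_snd.mul ((continuous_apply i).comp continuous_fst))
  have hvol := hmain (4 * H) r x0 (by linarith) hr0 (by linarith) F (fun x y i => hF1 i x y) K hKc
    (fun x hx s hs => by
      rw [hKdef]
      exact ⟨(x, s), ⟨hx, hs⟩, rfl⟩)
  have harith : c * ((8 : ℝ)⁻¹ * 4 ^ (-((d : ℝ) - 1))) ^ ((d : ℝ) / (d * α - d + 1)) *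
      (R ^ α * H ^ (-(d : ℝ))) ^ ((d : ℝ) / (d * α - d + 1)) =
      c * (r * (4 * H) ^ (-((d : ℝ) - 1) / α)) ^ ((d : ℝ) * α / (d * α - d + 1)) := by
    have h1 : (d : ℝ) * α / (d * α - d + 1) = α * ((d : ℝ) / (d * α - d + 1)) := by ring
    rw [h1, hr, ← y6_arith hα0 hR hH, mul_assoc]
  rw [harith]
  refine hvol.trans ?_
  -- the translated set
  obtain ⟨g, hg⟩ : ∃ g : V d × ℝ, g = (0, b x0) := ⟨_, rfl⟩
  obtain ⟨K', hK'⟩ : ∃ K' : Set (V d × ℝ), K' = (fun p => p + g) '' K := ⟨_, rfl⟩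
  have hK'c : IsCompact K' := by
    rw [hK']
    exact hKc.image (continuous_id.add continuous_const)
  have h1 : volume K ≤ volume K' := by
    have hinv : (volume : Measure (V d × ℝ)).IsAddRightInvariant := by
      rw [Measure.volume_eq_prod]
      infer_instance
    rw [← measure_preimage_add_right volume g K']
    refine measure_mono ?_
    intro p hp
    rw [hK']
    exact ⟨p, hp, rfl⟩
  have h2 : MeasurableSet (pt '' K') := (hK'c.image continuous_pt).measurableSet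
  have h3 : volume K' ≤ volume (pt '' K') := by
    rw [volume_eq_prod_pt _ h2]
    exact measure_mono (Set.subset_preimage_image _ _)
  refine h1.trans (h3.trans (measure_mono ?_))
  rintro _ ⟨q, hq, rfl⟩
  rw [hK'] at hq
  obtain ⟨p, hp, rfl⟩ := hq
  rw [hKdef] at hp
  obtain ⟨⟨x, s⟩, ⟨hx, hs⟩, rfl⟩ := hp
  simp only at hx hs
  have h4 := abs_le.1 (hb0 x hx)
  have h5 := hE x (hBR x hx) (s + b x0 - b x) ⟨by linarith [hs.1, h4.2], by linarith [hs.2, h4.1]⟩
  have h6 : (((fun i => F i x - s * x i : V d), s) : V d × ℝ) + g =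
      (a x - (s + b x0 - b x) • x, b x + (s + b x0 - b x)) := by
    rw [hg]
    refine Prod.ext ?_ ?_
    · funext i
      simp only [Prod.fst_add, Pi.add_apply, Pi.zero_apply, Pi.sub_apply, Pi.smul_apply,
        smul_eq_mul, hF2' i x hx]
      ring
    · simp only [Prod.snd_add]
      ring
  rw [← h6] at h5
  exact h5

end Pool.Agent.MPac5134.Lip
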