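import Pool.Agent.Lib.MP_ac5134_an.Lip.T1
import Pool.Agent.Lib.MP_ac5134_an.Lip.T2
import Pool.Agent.Lib.MP_ac5134_an.Lip.T3

/-! LIP-Z1 (the extended family is covered by the thickened tubes).  Est. 1.3 h.  Uses T1, T2, T3, Geom (`measurableSet_tube`).

Data: `Φ_k` (`k : Fin (d+1)`) globally `L`-Hoelder, `|Φ_k(foot_i) - c_{i,k}/N²| ≤ A/N`, full family.  Let
`D = 1 + A`, `P_i(τ) := c_i'/N² - 2 (τ - c_{i,n}/N²) foot_i` (`τ` = height divided by `N²`).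

PROOF.  Let `E` be the set of the points in the statement; `E = pt '' (image of the compact set closedBall 0 (1/d) × [0,1] under a
continuous map)`, so compact, measurable.
(1) Let `pt (y, h) ∈ E`: `y = 10 Φ'(x/2) + (1/2 - t) x`, `h = 10 Φ_n(x/2) - 1/2 + t`, `x ∈ closedBall 0 (1/d)`.  `ω = x/2` has
`∑ ω_k² ≤ d (1/(2d))² ≤ 1`; take `i` with `|foot_i - ω| ≤ A/N` (full).  Put `τ = h/10`, `σ = τ - Φ_n(ω) = (t - 1/2)/10`, `|σ| ≤ 1/20`,
`y/10 = Φ'(ω) - 2 σ ω`.  Since `(A/N)^α ≤ D N^(-α)` and `A/N ≤ A N^(-α)`,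
`|Φ_k(ω) - c_{i,k}/N²| ≤ L (A/N)^α + A/N ≤ 2 D L N^(-α)` for all `k`, so
`|y/10 - P_i(τ)| ≤ |Φ'(ω) - c_i'/N²| + 2|σ||ω - foot_i| + 2 |foot_i| |σ - (τ - c_{i,n}/N²)| ≤ 2DLN^(-α) + (1/10) D N^(-α) + 4 D L N^(-α)
 ≤ 7 D L N^(-α)` (componentwise, `|foot_i,k| ≤ 1`), and `|τ - c_{i,n}/N²| ≤ 1/20 + 2 D L N^(-α) ≤ 1/10` by the hypothesis `40 D L ≤ N^α`.
(2) Let `S_τ = {P_i(τ) : i with |τ - c_{i,n}/N²| ≤ 1/10}`.  So `{y | pt (y,h) ∈ E} ⊆ 10 · ⋃_{X ∈ S_τ} closedBall X (7DLN^(-α))`, hence by T1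
`|{y | pt(y,h) ∈ E}| ≤ 10^d (28 d D L N^(1-α) + 1)^d |⋃_{X∈S_τ} closedBall X (1/(4dN))|`.
(3) By T2, `N² · ⋃_{X∈S_τ} closedBall X (1/(4dN)) ⊆ {y | pt (y, N² τ) ∈ ⋃ tubes}`, so
`|⋃_{X∈S_τ} closedBall X (1/(4dN))| ≤ N^(-2d) |{y | pt (y, N² h/10) ∈ ⋃ tubes}|` (scaling of Lebesgue measure,
`Measure.addHaar_smul`).
(4) Integrate over `h` (T3 `volume_eq_lintegral_pt`; substitution `h ↦ N² h/10`: `lintegral_comp_mul_left`-type lemma or
`Measure.addHaar_preimage_smul` / `Real.map_volume_mul_left`):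
`|E| ≤ 10^d (28 d D L N^(1-α) + 1)^d N^(-2d) (10/N²) |⋃ tubes|`, and `28 d D L N^(1-α) + 1 ≤ 29 d D L N^(1-α)`. -/

namespace Pool.Agent.MPac5134.Lip

open MeasureTheory
open scoped ENNReal

variable {d : ℕ}

private theorem z1_cont {L α : ℝ} (hα : 0 < α) (f : V d → ℝ)
    (h : ∀ x y, |f x - f y| ≤ L * ‖x - y‖ ^ α) : Continuous f := by
  rw [continuous_iff_continuousAt]
  intro x
  have h0 : Filter.Tendsto (fun y : V d => L * ‖y - x‖ ^ α) (nhds x) (nhds 0) := by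
    have h1 : Continuous (fun y : V d => L * ‖y - x‖ ^ α) :=
      continuous_const.mul ((continuous_id.sub continuous_const).norm.rpow_const
        (fun _ => Or.inr hα.le))
    have h2 := h1.tendsto x
    simpa [Real.zero_rpow hα.ne'] using h2
  exact tendsto_iff_norm_sub_tendsto_zero.mpr
    (squeeze_zero (fun _ => norm_nonneg _) (fun y => by
      rw [Real.norm_eq_abs]; exact h y x) h0)

private theorem z1_foot_le (θ : Cap d) (k : Fin d) : |θ.foot k| ≤ 1 := by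
  have h := θ.foot_mem
  have h1 : θ.foot k ^ 2 ≤ ∑ i, θ.foot i ^ 2 :=
    Finset.single_le_sum (f := fun i => θ.foot i ^ 2) (fun i _ => sq_nonneg _) (Finset.mem_univ k)
  rw [← sq_le_one_iff_abs_le_one]
  linarith

/-- the point `P_i(τ)` -/
private noncomputable def z1P (N : ℝ) (θ : Cap d) (c : Sp d) (τ : ℝ) : V d :=
  fun k => c k.castSucc / N ^ 2 - 2 * (τ - c (Fin.last d) / N ^ 2) * θ.foot k

private theorem z1_tube (hd : 1 ≤ d) {N : ℝ} (hN : 1 ≤ N) (θ : Cap d) (c : Sp d) (τ : ℝ)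
    (hτ : |τ - c (Fin.last d) / N ^ 2| ≤ 1 / 10) (Y : V d)
    (hY : Y ∈ Metric.closedBall (z1P N θ c τ) (1 / (4 * d * N))) :
    pt (N ^ 2 • Y, N ^ 2 * τ) ∈ tube N θ c := by
  have hN0 : 0 < N := by linarith
  have hN2 : 0 < N ^ 2 := by positivity
  have hd0 : (0 : ℝ) < d := by exact_mod_cast hd
  apply section_mem hd hN
  · have h1 : N ^ 2 * τ - c (Fin.last d) = N ^ 2 * (τ - c (Fin.last d) / N ^ 2) := by
      field_simp
    rw [h1, abs_mul, abs_of_pos hN2]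
    calc N ^ 2 * |τ - c (Fin.last d) / N ^ 2| ≤ N ^ 2 * (1 / 10) :=
          mul_le_mul_of_nonneg_left hτ hN2.le
      _ = N ^ 2 / 10 := by ring
  · intro k
    have h2 : |Y k - z1P N θ c τ k| ≤ 1 / (4 * d * N) := by
      have h3 : dist Y (z1P N θ c τ) ≤ 1 / (4 * d * N) := hY
      have h4 := (dist_le_pi_dist Y (z1P N θ c τ) k).trans h3
      rwa [Real.dist_eq] at h4
    have h5 : (N ^ 2 • Y) k - (c k.castSucc - 2 * (N ^ 2 * τ - c (Fin.last d)) * θ.foot k) =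
        N ^ 2 * (Y k - z1P N θ c τ k) := by
      simp only [Pi.smul_apply, smul_eq_mul, z1P]
      field_simp
    rw [h5, abs_mul, abs_of_pos hN2]
    calc N ^ 2 * |Y k - z1P N θ c τ k| ≤ N ^ 2 * (1 / (4 * d * N)) :=
          mul_le_mul_of_nonneg_left h2 hN2.le
      _ = N / (4 * d) := by field_simp

private theorem z1_scale (r : ℝ) (hr : 0 < r) (s : Set (V d)) :
    volume {y : V d | r • y ∈ s} = ENNReal.ofReal ((r ^ d)⁻¹) * volume s := by
  have h := Measure.addHaar_preimage_smul (volume : Measure (V d)) hr.ne' s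
  have h2 : {y : V d | r • y ∈ s} = (r • ·) ⁻¹' s := rfl
  rw [h2, h]
  congr 2
  rw [Module.finrank_fin_fun, abs_of_pos (by positivity)]

private theorem z1_rpow {A α N : ℝ} (hA : 0 ≤ A) (hα : 0 < α) (hα1 : α ≤ 1) (hN : 1 ≤ N) :
    (A / N) ^ α ≤ (1 + A) * N ^ (-α) ∧ A / N ≤ A * N ^ (-α) := by
  have hN0 : 0 < N := by linarith
  constructor
  · rw [Real.div_rpow hA hN0.le, Real.rpow_neg hN0.le, div_eq_mul_inv]
    apply mul_le_mul_of_nonneg_right _ (by positivity)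
    rcases le_total A 1 with h | h
    · exact (Real.rpow_le_one hA h hα.le).trans (by linarith)
    · calc A ^ α ≤ A ^ (1 : ℝ) := Real.rpow_le_rpow_of_exponent_le h hα1
        _ = A := Real.rpow_one A
        _ ≤ 1 + A := by linarith
  · rw [div_eq_mul_inv]
    apply mul_le_mul_of_nonneg_left _ hA
    rw [← Real.rpow_neg_one]
    exact Real.rpow_le_rpow_of_exponent_le hN (by linarith)

private theorem z1_point {A α L N : ℝ} (hd : 1 ≤ d) (hA : 0 ≤ A) (hα : 0 < α) (hα1 : α ≤ 1)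
    (hL : 1 ≤ L) (hN : 1 ≤ N) (hNL : 40 * (1 + A) * L ≤ N ^ α)
    {ι : Type} [Fintype ι] (θ : ι → Cap d) (c : ι → Sp d)
    (hfull : ∀ ω : Fin d → ℝ, ∑ k, ω k ^ 2 ≤ 1 → ∃ i, ∀ k, |(θ i).foot k - ω k| ≤ A / N)
    (Φ : Fin (d + 1) → V d → ℝ) (hΦ : ∀ k x y, |Φ k x - Φ k y| ≤ L * ‖x - y‖ ^ α)
    (hc : ∀ i k, |Φ k (θ i).foot - c i k / N ^ 2| ≤ A / N)
    (x : V d) (hx : x ∈ Metric.closedBall (0 : V d) (1 / d)) (t : ℝ)
    (ht : t ∈ Set.Icc (0 : ℝ) 1) (y : V d) (h : ℝ)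
    (hy : y = fun k => 10 * Φ k.castSucc ((1 / 2 : ℝ) • x) + (1 / 2 - t) * x k)
    (hh : h = 10 * Φ (Fin.last d) ((1 / 2 : ℝ) • x) - 1 / 2 + t) :
    ∃ i, |h / 10 - c i (Fin.last d) / N ^ 2| ≤ 1 / 10 ∧
      (1 / 10 : ℝ) • y ∈ Metric.closedBall (z1P N (θ i) (c i) (h / 10))
        (7 * (1 + A) * L * N ^ (-α)) := by
  have hN0 : 0 < N := by linarith
  have hd0 : (0 : ℝ) < d := by exact_mod_cast hd
  have hd1 : (1 : ℝ) ≤ d := by exact_mod_cast hd
  obtain ⟨hr1, hr2⟩ := z1_rpow hA hα hα1 hN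
  have hpos : 0 < N ^ (-α) := Real.rpow_pos_of_pos hN0 _
  have hprod : N ^ α * N ^ (-α) = 1 := by
    rw [← Real.rpow_add hN0]; simp
  have hsmall : (1 + A) * L * N ^ (-α) ≤ 1 / 40 := by
    have := mul_le_mul_of_nonneg_right hNL hpos.le
    rw [hprod] at this
    linarith
  have hxk : ∀ k, |x k| ≤ 1 / d := by
    intro k
    have h1 : ‖x‖ ≤ 1 / d := by simpa using hx
    have h2 := (norm_le_pi_norm x k).trans h1
    rwa [Real.norm_eq_abs] at h2
  have hω : ∑ k, ((1 / 2 : ℝ) • x) k ^ 2 ≤ 1 := by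
    have h1 : ∀ k ∈ (Finset.univ : Finset (Fin d)), ((1 / 2 : ℝ) • x) k ^ 2 ≤ 1 / d := by
      intro k _
      have h2 : ((1 / 2 : ℝ) • x) k = x k / 2 := by
        simp only [Pi.smul_apply, smul_eq_mul]; ring
      rw [h2]
      have h3 : x k ^ 2 ≤ (1 / d) ^ 2 := sq_le_sq' (abs_le.1 (hxk k)).1 (abs_le.1 (hxk k)).2
      have h4 : (1 / (d : ℝ)) ^ 2 ≤ 1 / d := by
        have h5 : 1 / (d : ℝ) ≤ 1 := by rw [div_le_one hd0]; exact hd1
        have h6 : 0 ≤ 1 / (d : ℝ) := by positivity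
        nlinarith
      have h7 : 0 ≤ 1 / (d : ℝ) := by positivity
      nlinarith
    have h2 := Finset.sum_le_sum h1
    rw [Finset.sum_const, Finset.card_univ, Fintype.card_fin, nsmul_eq_mul] at h2
    have h3 : (d : ℝ) * (1 / d) = 1 := by field_simp
    linarith
  obtain ⟨i, hi⟩ := hfull _ hω
  have hnorm : ‖(1 / 2 : ℝ) • x - (θ i).foot‖ ≤ A / N := by
    rw [pi_norm_le_iff_of_nonneg (by positivity)]
    intro k
    rw [Real.norm_eq_abs, Pi.sub_apply, abs_sub_comm]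
    exact hi k
  have hδ : ∀ k, |Φ k ((1 / 2 : ℝ) • x) - c i k / N ^ 2| ≤ 2 * (1 + A) * L * N ^ (-α) := by
    intro k
    have h1 := hΦ k ((1 / 2 : ℝ) • x) (θ i).foot
    have h2 := hc i k
    have h3 : ‖(1 / 2 : ℝ) • x - (θ i).foot‖ ^ α ≤ (A / N) ^ α :=
      Real.rpow_le_rpow (norm_nonneg _) hnorm hα.le
    have h4 : L * ‖(1 / 2 : ℝ) • x - (θ i).foot‖ ^ α ≤ L * ((1 + A) * N ^ (-α)) :=
      mul_le_mul_of_nonneg_left (h3.trans hr1) (by linarith)
    have h5 : A / N ≤ L * ((1 + A) * N ^ (-α)) := by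
      refine hr2.trans ?_
      have h6 : A * N ^ (-α) ≤ (1 + A) * N ^ (-α) :=
        mul_le_mul_of_nonneg_right (by linarith) hpos.le
      have h7 : 0 ≤ (1 + A) * N ^ (-α) := by positivity
      nlinarith
    calc |Φ k ((1 / 2 : ℝ) • x) - c i k / N ^ 2|
        = |(Φ k ((1 / 2 : ℝ) • x) - Φ k (θ i).foot) + (Φ k (θ i).foot - c i k / N ^ 2)| := by
          congr 1; ring
      _ ≤ |Φ k ((1 / 2 : ℝ) • x) - Φ k (θ i).foot| + |Φ k (θ i).foot - c i k / N ^ 2| :=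
          abs_add_le _ _
      _ ≤ 2 * (1 + A) * L * N ^ (-α) := by linarith
  have hσ : |(t - 1 / 2) / 10| ≤ 1 / 20 := by
    rw [abs_le]
    constructor <;> linarith [ht.1, ht.2]
  have hτ : h / 10 - c i (Fin.last d) / N ^ 2 = (t - 1 / 2) / 10 +
      (Φ (Fin.last d) ((1 / 2 : ℝ) • x) - c i (Fin.last d) / N ^ 2) := by
    rw [hh]; ring
  refine ⟨i, ?_, ?_⟩
  · rw [hτ]
    have h1 := abs_add_le ((t - 1 / 2) / 10)
      (Φ (Fin.last d) ((1 / 2 : ℝ) • x) - c i (Fin.last d) / N ^ 2)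
    have h2 := hδ (Fin.last d)
    linarith
  · rw [Metric.mem_closedBall, dist_pi_le_iff (by positivity)]
    intro k
    rw [Real.dist_eq]
    have h1 : ((1 / 10 : ℝ) • y) k - z1P N (θ i) (c i) (h / 10) k =
        (Φ k.castSucc ((1 / 2 : ℝ) • x) - c i k.castSucc / N ^ 2) +
        (2 * ((t - 1 / 2) / 10) * ((θ i).foot k - ((1 / 2 : ℝ) • x) k) +
        2 * (Φ (Fin.last d) ((1 / 2 : ℝ) • x) - c i (Fin.last d) / N ^ 2) * (θ i).foot k) := by
      simp only [z1P, hτ]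
      rw [hy]
      simp only [Pi.smul_apply, smul_eq_mul]
      ring
    rw [h1]
    have hf := z1_foot_le (θ i) k
    have h2 : |2 * ((t - 1 / 2) / 10) * ((θ i).foot k - ((1 / 2 : ℝ) • x) k)| ≤
        2 * (1 / 20) * (A * N ^ (-α)) := by
      rw [abs_mul, abs_mul, abs_two]
      exact mul_le_mul (mul_le_mul_of_nonneg_left hσ (by norm_num)) ((hi k).trans hr2)
        (abs_nonneg _) (by norm_num)
    have h3 : |2 * (Φ (Fin.last d) ((1 / 2 : ℝ) • x) - c i (Fin.last d) / N ^ 2) *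
        (θ i).foot k| ≤ 2 * (2 * (1 + A) * L * N ^ (-α)) * 1 := by
      rw [abs_mul, abs_mul, abs_two]
      exact mul_le_mul (mul_le_mul_of_nonneg_left (hδ _) (by norm_num)) hf
        (abs_nonneg _) (by positivity)
    have h4 := hδ k.castSucc
    have h5 : A * N ^ (-α) ≤ (1 + A) * L * N ^ (-α) := by
      apply mul_le_mul_of_nonneg_right _ hpos.le
      nlinarith
    have h6 := abs_add_le (Φ k.castSucc ((1 / 2 : ℝ) • x) - c i k.castSucc / N ^ 2)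
      (2 * ((t - 1 / 2) / 10) * ((θ i).foot k - ((1 / 2 : ℝ) • x) k) +
        2 * (Φ (Fin.last d) ((1 / 2 : ℝ) • x) - c i (Fin.last d) / N ^ 2) * (θ i).foot k)
    have h7 := abs_add_le (2 * ((t - 1 / 2) / 10) * ((θ i).foot k - ((1 / 2 : ℝ) • x) k))
      (2 * (Φ (Fin.last d) ((1 / 2 : ℝ) • x) - c i (Fin.last d) / N ^ 2) * (θ i).foot k)
    have h8 : 0 ≤ (1 + A) * L * N ^ (-α) := by positivity
    linarith

private theorem z1_lint {a : ℝ} (ha : 0 < a) (g : ℝ → ENNReal) (hg : Measurable g) :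
    ∫⁻ h : ℝ, g (a * h) = ENNReal.ofReal a⁻¹ * ∫⁻ h : ℝ, g h := by
  have h1 := Real.map_volume_mul_left ha.ne'
  have h2 : ∫⁻ h : ℝ, g (a * h) = ∫⁻ y : ℝ, g y ∂(Measure.map (a * ·) volume) :=
    (lintegral_map hg (measurable_const_mul a)).symm
  rw [h2, h1, lintegral_smul_measure, abs_of_pos (by positivity), smul_eq_mul]

theorem tubes_vs_ext (hd : 1 ≤ d) {A : ℝ} (hA : 0 ≤ A) : ∃ C : ℝ, 0 < C ∧
    ∀ (α L N : ℝ), 0 < α → α ≤ 1 → 1 ≤ L → 1 ≤ N → 40 * (1 + A) * L ≤ N ^ α →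
    ∀ (ι : Type) [Fintype ι] (θ : ι → Cap d) (c : ι → Sp d),
    (∀ ω : Fin d → ℝ, ∑ k, ω k ^ 2 ≤ 1 → ∃ i, ∀ k, |(θ i).foot k - ω k| ≤ A / N) →
    ∀ Φ : Fin (d + 1) → V d → ℝ, (∀ k x y, |Φ k x - Φ k y| ≤ L * ‖x - y‖ ^ α) →
    (∀ i k, |Φ k (θ i).foot - c i k / N ^ 2| ≤ A / N) →
    volume {p : Sp d | ∃ x ∈ Metric.closedBall (0 : V d) (1 / d), ∃ t ∈ Set.Icc (0 : ℝ) 1,
      p = pt ((fun k => 10 * Φ k.castSucc ((1 / 2 : ℝ) • x) + (1 / 2 - t) * x k),
        10 * Φ (Fin.last d) ((1 / 2 : ℝ) • x) - 1 / 2 + t)} ≤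
      ENNReal.ofReal (C * (L * N ^ (1 - α)) ^ d / N ^ (2 * d + 2)) *
        volume (⋃ i, tube N (θ i) (c i)) := by
  refine ⟨10 * (10 ^ d * (29 * d * (1 + A)) ^ d), by
    have : (0 : ℝ) < d := by exact_mod_cast hd
    positivity, ?_⟩
  intro α L N hα hα1 hL hN hNL ι _ θ c hfull Φ hΦ hc
  have hN0 : 0 < N := by linarith
  have hd0 : (0 : ℝ) < d := by exact_mod_cast hd
  have hd1 : (1 : ℝ) ≤ d := by exact_mod_cast hd
  set E : Set (Sp d) := {p : Sp d | ∃ x ∈ Metric.closedBall (0 : V d) (1 / d),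
      ∃ t ∈ Set.Icc (0 : ℝ) 1,
      p = pt ((fun k => 10 * Φ k.castSucc ((1 / 2 : ℝ) • x) + (1 / 2 - t) * x k),
        10 * Φ (Fin.last d) ((1 / 2 : ℝ) • x) - 1 / 2 + t)} with hE
  have hEm : MeasurableSet E := by
    have hcont : ∀ k, Continuous (Φ k) := fun k => z1_cont hα (Φ k) (hΦ k)
    have hF : Continuous (fun q : V d × ℝ =>
        pt ((fun k => 10 * Φ k.castSucc ((1 / 2 : ℝ) • q.1) + (1 / 2 - q.2) * q.1 k),
        10 * Φ (Fin.last d) ((1 / 2 : ℝ) • q.1) - 1 / 2 + q.2)) := by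
      apply continuous_pt.comp
      refine Continuous.prodMk ?_ ?_
      · apply continuous_pi
        intro k
        have h1 : Continuous (fun q : V d × ℝ => Φ k.castSucc ((1 / 2 : ℝ) • q.1)) :=
          (hcont k.castSucc).comp (by fun_prop)
        have h2 : Continuous (fun q : V d × ℝ => q.1 k) :=
          (continuous_apply k).comp continuous_fst
        exact (continuous_const.mul h1).add ((continuous_const.sub continuous_snd).mul h2)
      · have h1 : Continuous (fun q : V d × ℝ => Φ (Fin.last d) ((1 / 2 : ℝ) • q.1)) :=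
          (hcont (Fin.last d)).comp (by fun_prop)
        exact ((continuous_const.mul h1).sub continuous_const).add continuous_snd
    have hcomp : IsCompact ((Metric.closedBall (0 : V d) (1 / d)) ×ˢ (Set.Icc (0 : ℝ) 1)) :=
      (isCompact_closedBall _ _).prod isCompact_Icc
    have hEeq : E = (fun q : V d × ℝ =>
        pt ((fun k => 10 * Φ k.castSucc ((1 / 2 : ℝ) • q.1) + (1 / 2 - q.2) * q.1 k),
        10 * Φ (Fin.last d) ((1 / 2 : ℝ) • q.1) - 1 / 2 + q.2)) ''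
        ((Metric.closedBall (0 : V d) (1 / d)) ×ˢ (Set.Icc (0 : ℝ) 1)) := by
      ext p
      constructor
      · rintro ⟨x, hx, t, ht, rfl⟩
        exact ⟨(x, t), ⟨hx, ht⟩, rfl⟩
      · rintro ⟨⟨x, t⟩, ⟨hx, ht⟩, rfl⟩
        exact ⟨x, hx, t, ht, rfl⟩
    rw [hEeq]
    exact (hcomp.image hF).measurableSet
  have hUm : MeasurableSet (⋃ i, tube N (θ i) (c i)) :=
    MeasurableSet.iUnion fun i => measurableSet_tube N (θ i) (c i)
  have hsec : ∀ h : ℝ, volume {y : V d | pt (y, h) ∈ E} ≤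
      ENNReal.ofReal (10 ^ d * (29 * d * (1 + A) * (L * N ^ (1 - α))) ^ d * (N ^ (2 * d))⁻¹) *
        volume {y : V d | pt (y, N ^ 2 / 10 * h) ∈ ⋃ i, tube N (θ i) (c i)} := by
    intro h
    set S : Set (V d) := {X | ∃ i, |h / 10 - c i (Fin.last d) / N ^ 2| ≤ 1 / 10 ∧
      X = z1P N (θ i) (c i) (h / 10)} with hS
    have h1 : {y : V d | pt (y, h) ∈ E} ⊆ {y : V d | (1 / 10 : ℝ) • y ∈
        ⋃ X ∈ S, Metric.closedBall X (7 * (1 + A) * L * N ^ (-α))} := by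
      rintro y ⟨x, hx, t, ht, hp⟩
      have hinj : y = (fun k => 10 * Φ k.castSucc ((1 / 2 : ℝ) • x) + (1 / 2 - t) * x k) ∧
          h = 10 * Φ (Fin.last d) ((1 / 2 : ℝ) • x) - 1 / 2 + t := by
        have h2 := congrArg (WithLp.ofLp) hp
        simp only [pt] at h2
        constructor
        · funext k
          have h3 := congrFun h2 k.castSucc
          simpa using h3
        · have h3 := congrFun h2 (Fin.last d)
          simpa using h3
      obtain ⟨i, hi1, hi2⟩ := z1_point hd hA hα hα1 hL hN hNL θ c hfull Φ hΦ hc x hx t ht y h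
        hinj.1 hinj.2
      simp only [Set.mem_ofPred_eq, Set.mem_iUnion]
      exact ⟨z1P N (θ i) (c i) (h / 10), ⟨i, hi1, rfl⟩, hi2⟩
    have hr : (0 : ℝ) < 1 / (4 * d * N) := by positivity
    have hR : 0 ≤ 7 * (1 + A) * L * N ^ (-α) := by positivity
    have h2 := thicken S hr hR
    have h3 : (⋃ X ∈ S, Metric.closedBall X (1 / (4 * d * N))) ⊆ {Y : V d | N ^ 2 • Y ∈
        {y : V d | pt (y, N ^ 2 / 10 * h) ∈ ⋃ i, tube N (θ i) (c i)}} := by
      intro Y hY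
      simp only [Set.mem_iUnion] at hY
      obtain ⟨X, ⟨i, hi, rfl⟩, hY2⟩ := hY
      have h4 := z1_tube hd hN (θ i) (c i) (h / 10) hi Y hY2
      have h5 : N ^ 2 * (h / 10) = N ^ 2 / 10 * h := by ring
      rw [h5] at h4
      simp only [Set.mem_ofPred_eq, Set.mem_iUnion]
      exact ⟨i, h4⟩
    have hRr : 7 * (1 + A) * L * N ^ (-α) / (1 / (4 * d * N)) + 1 ≤
        29 * d * (1 + A) * (L * N ^ (1 - α)) := by
      have h4 : N ^ (1 - α) = N * N ^ (-α) := by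
        rw [sub_eq_add_neg, Real.rpow_add hN0, Real.rpow_one]
      have h5 : 7 * (1 + A) * L * N ^ (-α) / (1 / (4 * d * N)) =
          28 * (d * (1 + A) * (L * N ^ (1 - α))) := by
        rw [h4]; field_simp; ring
      have h6 : 1 ≤ N ^ (1 - α) := Real.one_le_rpow hN (by linarith)
      have h7 : 1 ≤ L * N ^ (1 - α) := one_le_mul_of_one_le_of_one_le hL h6
      have h8 : 1 ≤ (d : ℝ) * (1 + A) := one_le_mul_of_one_le_of_one_le hd1 (by linarith)
      have h9 : 1 ≤ (d : ℝ) * (1 + A) * (L * N ^ (1 - α)) :=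
        one_le_mul_of_one_le_of_one_le h8 h7
      rw [h5]; linarith
    calc volume {y : V d | pt (y, h) ∈ E}
        ≤ volume {y : V d | (1 / 10 : ℝ) • y ∈
            ⋃ X ∈ S, Metric.closedBall X (7 * (1 + A) * L * N ^ (-α))} := measure_mono h1
      _ = ENNReal.ofReal (((1 / 10 : ℝ) ^ d)⁻¹) *
          volume (⋃ X ∈ S, Metric.closedBall X (7 * (1 + A) * L * N ^ (-α))) :=
          z1_scale _ (by norm_num) _
      _ ≤ ENNReal.ofReal (((1 / 10 : ℝ) ^ d)⁻¹) *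
          (ENNReal.ofReal ((7 * (1 + A) * L * N ^ (-α) / (1 / (4 * d * N)) + 1) ^ d) *
          volume (⋃ X ∈ S, Metric.closedBall X (1 / (4 * d * N)))) := by gcongr
      _ ≤ ENNReal.ofReal (((1 / 10 : ℝ) ^ d)⁻¹) *
          (ENNReal.ofReal ((29 * d * (1 + A) * (L * N ^ (1 - α))) ^ d) *
          (ENNReal.ofReal (((N ^ 2) ^ d)⁻¹) *
          volume {y : V d | pt (y, N ^ 2 / 10 * h) ∈ ⋃ i, tube N (θ i) (c i)})) := by
          gcongr
          rw [← z1_scale (N ^ 2) (by positivity)]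
          exact measure_mono h3
      _ = ENNReal.ofReal (10 ^ d * (29 * d * (1 + A) * (L * N ^ (1 - α))) ^ d *
          (N ^ (2 * d))⁻¹) *
          volume {y : V d | pt (y, N ^ 2 / 10 * h) ∈ ⋃ i, tube N (θ i) (c i)} := by
          rw [← mul_assoc, ← mul_assoc, ← ENNReal.ofReal_mul (by positivity),
            ← ENNReal.ofReal_mul (by positivity)]
          congr 2
          rw [one_div, inv_pow, inv_inv, ← pow_mul]
  rw [volume_eq_lintegral_pt E hEm]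
  calc ∫⁻ h : ℝ, volume {y : V d | pt (y, h) ∈ E}
      ≤ ∫⁻ h : ℝ, ENNReal.ofReal (10 ^ d * (29 * d * (1 + A) * (L * N ^ (1 - α))) ^ d *
          (N ^ (2 * d))⁻¹) *
        volume {y : V d | pt (y, N ^ 2 / 10 * h) ∈ ⋃ i, tube N (θ i) (c i)} :=
        lintegral_mono hsec
    _ = ENNReal.ofReal (10 ^ d * (29 * d * (1 + A) * (L * N ^ (1 - α))) ^ d *
          (N ^ (2 * d))⁻¹) *
        ∫⁻ h : ℝ, volume {y : V d | pt (y, N ^ 2 / 10 * h) ∈ ⋃ i, tube N (θ i) (c i)} :=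
        lintegral_const_mul' _ _ ENNReal.ofReal_ne_top
    _ = ENNReal.ofReal (10 ^ d * (29 * d * (1 + A) * (L * N ^ (1 - α))) ^ d *
          (N ^ (2 * d))⁻¹) *
        (ENNReal.ofReal (N ^ 2 / 10)⁻¹ * volume (⋃ i, tube N (θ i) (c i))) := by
        rw [z1_lint (a := N ^ 2 / 10) (by positivity)
          (fun h => volume {y : V d | pt (y, h) ∈ ⋃ i, tube N (θ i) (c i)})
          (measurable_section _ hUm), ← volume_eq_lintegral_pt _ hUm]
    _ = ENNReal.ofReal (10 * (10 ^ d * (29 * d * (1 + A)) ^ d) * (L * N ^ (1 - α)) ^ d /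
          N ^ (2 * d + 2)) * volume (⋃ i, tube N (θ i) (c i)) := by
        rw [← mul_assoc, ← ENNReal.ofReal_mul (by positivity)]
        congr 2
        rw [mul_pow (29 * d * (1 + A)) (L * N ^ (1 - α)) d, pow_add]
        field_simp

end Pool.Agent.MPac5134.Lip
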