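import Pool.Agent.Lib.MP_ac5134_an.Lip.T4
import Pool.Agent.Lib.MP_ac5134_an.Lip.X1
import Pool.Agent.Lib.MP_ac5134_an.Lip.Y6
import Pool.Agent.Lib.MP_ac5134_an.Lip.Z1

/-! LIP-Z2 (the theorem for tubes).  Est. 0.9 h.  Uses T4, X1, Y6, Z1.

PROOF.  `ι` is nonempty (full with `ω = 0`).
Trivial case `N^α < 40(1+A)L`: `∑|T| ≤ K 4^d N^(2d+2)` (T4), one tube has volume `N^(d+2)` (Geom `volume_tube`), so
`∑|T| ≤ K 4^d N^d |⋃T|`, `N^d = N^(d(1-α)) (N^α)^d ≤ N^(d(1-α)) (40(1+A)L)^d`, and `L^d ≤ L^(d + d²/(dα-d+1))`.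
Main case `40(1+A)L ≤ N^α`: apply `mcshane` (X1) for every `k : Fin (d+1)` to `w i = foot_i`, `f i = c_{i,k}/N²`, `H = L`, `a = A/N`
(hypothesis divided by `N²`) and get `Φ_k`.  Z1 bounds the volume of the set `E` there.  `E` contains `pt (a x - t • x, b x + t)` for
`x ∈ closedBall 0 (1/d)`, `t ∈ [0,1]`, with `a x = fun k => 10 Φ_k(x/2) + x_k/2`, `b x = 10 Φ_n(x/2) - 1/2`;
`‖a x - a y‖ ≤ 10 L ‖(x-y)/2‖^α + ‖x-y‖/2 ≤ 11 L ‖x-y‖^α` for `x, y ∈ closedBall 0 (1/d)` (`‖x-y‖ ≤ 2/d ≤ 1`), the same for `b`.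
Y6 with `H = 11 L`, `R = 1/d`, `x0 = 0` gives `|E| ≥ c' L^(-d²/(dα-d+1))`.  Hence
`c' L^(-d²/(dα-d+1)) ≤ C (L N^(1-α))^d N^(-2d-2) |⋃T|`, i.e. `N^(2d+2) ≤ (C/c') L^(d + d²/(dα-d+1)) N^(d(1-α)) |⋃T|`, and
`∑|T| ≤ K 4^d N^(2d+2)` (T4). -/

namespace Pool.Agent.MPac5134.Lip

open MeasureTheory
open scoped ENNReal

variable {d : ℕ}

private theorem Z2_half (Φ : V d → ℝ) {α L : ℝ} (hα0 : 0 < α) (hL : 0 ≤ L)
    (hΦ : ∀ x y, |Φ x - Φ y| ≤ L * ‖x - y‖ ^ α) (x y : V d) :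
    |Φ ((1 / 2 : ℝ) • x) - Φ ((1 / 2 : ℝ) • y)| ≤ L * ‖x - y‖ ^ α := by
  refine (hΦ _ _).trans (mul_le_mul_of_nonneg_left ?_ hL)
  refine Real.rpow_le_rpow (norm_nonneg _) ?_ hα0.le
  rw [← smul_sub, norm_smul, Real.norm_eq_abs]
  have : |(1 / 2 : ℝ)| = 1 / 2 := abs_of_pos (by norm_num)
  rw [this]
  have := norm_nonneg (x - y)
  linarith

theorem holder_tubes (hd : 2 ≤ d) {α : ℝ} (hα : ((d : ℝ) - 1) / d < α) (hα1 : α ≤ 1)
    (K : ℕ) {A : ℝ} (hA : 0 ≤ A) :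
    ∃ C : ℝ, 0 < C ∧ ∀ (L N : ℝ), 1 ≤ L → 1 ≤ N →
      ∀ (ι : Type) [Fintype ι] (θ : ι → Cap d) (c : ι → Sp d),
      (∀ z : Fin d → ℤ, ∀ s : Finset ι, (∀ i ∈ s, cell N (θ i) = z) → s.card ≤ K) →
      (∀ ω : Fin d → ℝ, ∑ k, ω k ^ 2 ≤ 1 → ∃ i, ∀ k, |(θ i).foot k - ω k| ≤ A / N) →
      (∀ i j, ∀ k : Fin (d + 1),
        |c i k - c j k| ≤ L * N ^ 2 * ‖(θ i).foot - (θ j).foot‖ ^ α + A * N) →
      ∑ i, volume (tube N (θ i) (c i)) ≤
        ENNReal.ofReal (C * L ^ (d + d ^ 2 / (d * α - d + 1)) * N ^ (d * (1 - α))) *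
          volume (⋃ i, tube N (θ i) (c i)) := by
  have hd0 : (2 : ℝ) ≤ d := by exact_mod_cast hd
  have hdpos : (0 : ℝ) < d := by linarith
  have hα0 : 0 < α := lt_of_le_of_lt (div_nonneg (by linarith) hdpos.le) hα
  have hγ : 0 < (d : ℝ) * α - d + 1 := by
    rw [div_lt_iff₀ hdpos] at hα
    linarith
  obtain ⟨c', hc', hsets⟩ := holder_sets hd hα hα1
  obtain ⟨CZ, hCZ, hext⟩ := tubes_vs_ext (d := d) (by omega) hA
  set γ : ℝ := (d : ℝ) * α - d + 1 with hγdef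
  set q : ℝ := ((d : ℝ) ^ α * 11 ^ (d : ℝ)) ^ (d / γ) with hq
  have hqpos : 0 < q := by positivity
  set C1 : ℝ := K * 4 ^ d * (40 * (1 + A)) ^ d with hC1
  set C2 : ℝ := K * 4 ^ d * CZ / c' * q with hC2
  have hC1n : 0 ≤ C1 := by positivity
  have hC2n : 0 ≤ C2 := by positivity
  refine ⟨C1 + C2 + 1, by positivity, fun L N hL hN ι _ θ c hov hfull hhol => ?_⟩
  have hL0 : 0 < L := by linarith
  have hN0 : 0 < N := by linarith
  obtain ⟨i0, _⟩ := hfull 0 (by simp)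
  have : Nonempty ι := ⟨i0⟩
  have hsum := sum_volume_le hN θ c hov
  have hLe : L ^ d ≤ L ^ ((d : ℝ) + d ^ 2 / γ) := by
    rw [← Real.rpow_natCast]
    exact Real.rpow_le_rpow_of_exponent_le hL (by
      have : 0 ≤ (d : ℝ) ^ 2 / γ := by positivity
      linarith)
  set Le : ℝ := L ^ ((d : ℝ) + d ^ 2 / γ) with hLedef
  have hLe0 : 0 < Le := by positivity
  set Ne : ℝ := N ^ ((d : ℝ) * (1 - α)) with hNedef
  have hNe0 : 0 < Ne := by positivity
  rcases lt_or_ge (N ^ α) (40 * (1 + A) * L) with hcase | hcase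
  · -- trivial case
    have h1 : ENNReal.ofReal (N ^ (d + 2)) ≤ volume (⋃ i, tube N (θ i) (c i)) := by
      rw [← volume_tube hN0.le (θ i0) (c i0)]
      exact measure_mono (Set.subset_iUnion (fun i => tube N (θ i) (c i)) i0)
    have hNd : N ^ d ≤ Ne * ((40 * (1 + A)) ^ d * Le) := by
      have e1 : N ^ d = Ne * (N ^ α) ^ d := by
        rw [hNedef, ← Real.rpow_natCast (N ^ α) d, ← Real.rpow_mul hN0.le, ← Real.rpow_add hN0,
          ← Real.rpow_natCast N d]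
        congr 1
        ring
      rw [e1]
      refine mul_le_mul_of_nonneg_left ?_ hNe0.le
      calc (N ^ α) ^ d ≤ (40 * (1 + A) * L) ^ d := pow_le_pow_left₀ (by positivity) hcase.le d
        _ = (40 * (1 + A)) ^ d * L ^ d := mul_pow _ _ _
        _ ≤ (40 * (1 + A)) ^ d * Le := mul_le_mul_of_nonneg_left hLe (by positivity)
    calc ∑ i, volume (tube N (θ i) (c i)) ≤ ENNReal.ofReal (K * 4 ^ d * N ^ (2 * d + 2)) := hsum
      _ ≤ ENNReal.ofReal ((C1 + C2 + 1) * Le * Ne * N ^ (d + 2)) := by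
          refine ENNReal.ofReal_le_ofReal ?_
          have e2 : N ^ (2 * d + 2) = N ^ d * N ^ (d + 2) := by rw [← pow_add]; congr 1; ring
          rw [e2]
          calc (K : ℝ) * 4 ^ d * (N ^ d * N ^ (d + 2)) =
              K * 4 ^ d * N ^ d * N ^ (d + 2) := by ring
            _ ≤ K * 4 ^ d * (Ne * ((40 * (1 + A)) ^ d * Le)) * N ^ (d + 2) := by gcongr
            _ = C1 * Le * Ne * N ^ (d + 2) := by rw [hC1]; ring
            _ ≤ (C1 + C2 + 1) * Le * Ne * N ^ (d + 2) := by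
                have : C1 ≤ C1 + C2 + 1 := by linarith
                gcongr
      _ = ENNReal.ofReal ((C1 + C2 + 1) * Le * Ne) * ENNReal.ofReal (N ^ (d + 2)) := by
          rw [ENNReal.ofReal_mul (by positivity)]
      _ ≤ _ := mul_le_mul_right h1 _
  · -- main case
    have hmc : ∀ k : Fin (d + 1), ∃ F : V d → ℝ, (∀ x y, |F x - F y| ≤ L * ‖x - y‖ ^ α) ∧
        ∀ i, |F (θ i).foot - c i k / N ^ 2| ≤ A / N := by
      intro k
      refine mcshane hα0 hα1 hL0.le (by positivity) (fun i => (θ i).foot) (fun i => c i k / N ^ 2)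
        fun i j => ?_
      have h1 := hhol i j k
      have e1 : c i k / N ^ 2 - c j k / N ^ 2 = (c i k - c j k) / N ^ 2 := by ring
      rw [e1, abs_div, abs_of_pos (by positivity : (0 : ℝ) < N ^ 2), div_le_iff₀ (by positivity)]
      refine h1.trans (le_of_eq ?_)
      field_simp
    choose Φ hΦ1 hΦ2 using hmc
    have hE := hext α L N hα0 hα1 hL hN hcase ι θ c hfull Φ hΦ1 (fun i k => hΦ2 k i)
    set E : Set (Sp d) := {p : Sp d | ∃ x ∈ Metric.closedBall (0 : V d) (1 / d),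
      ∃ t ∈ Set.Icc (0 : ℝ) 1,
      p = pt ((fun k => 10 * Φ k.castSucc ((1 / 2 : ℝ) • x) + (1 / 2 - t) * x k),
        10 * Φ (Fin.last d) ((1 / 2 : ℝ) • x) - 1 / 2 + t)} with hEdef
    have hsmall : ∀ x ∈ Metric.closedBall (0 : V d) (1 / d), ∀ y ∈ Metric.closedBall (0 : V d) (1 / d),
        ‖x - y‖ ≤ ‖x - y‖ ^ α := by
      intro x hx y hy
      rw [mem_closedBall_zero_iff] at hx hy
      have h1 : ‖x - y‖ ≤ 1 := by
        refine (norm_sub_le x y).trans ?_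
        have h2 : (1 : ℝ) / d ≤ 1 / 2 := one_div_le_one_div_of_le (by norm_num) hd0
        linarith
      rcases (norm_nonneg (x - y)).eq_or_lt with h0 | h0
      · rw [← h0, Real.zero_rpow hα0.ne']
      · calc ‖x - y‖ = ‖x - y‖ ^ (1 : ℝ) := (Real.rpow_one _).symm
          _ ≤ ‖x - y‖ ^ α := Real.rpow_le_rpow_of_exponent_ge h0 h1 hα1
    have hS := hsets (11 * L) (1 / d) 0 (by linarith) (by positivity)
      (by rw [div_le_one hdpos]; linarith) (by simp)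
      (fun x => fun k : Fin d => 10 * Φ k.castSucc ((1 / 2 : ℝ) • x) + (1 / 2) * x k)
      (fun x => 10 * Φ (Fin.last d) ((1 / 2 : ℝ) • x) - 1 / 2) ?_ ?_ E ?_
    · -- conclusion
      set S : ℝ := c' * ((1 / (d : ℝ)) ^ α * (11 * L) ^ (-(d : ℝ))) ^ (d / γ) with hSdef
      have hSpos : 0 < S := by positivity
      have hSeq : S = c' * (q⁻¹ * L ^ (-((d : ℝ) ^ 2 / γ))) := by
        rw [hSdef]
        congr 1
        have e1 : (1 / (d : ℝ)) ^ α = ((d : ℝ) ^ α)⁻¹ := by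
          rw [one_div, Real.inv_rpow hdpos.le]
        have e2 : (11 * L) ^ (-(d : ℝ)) = ((11 : ℝ) ^ (d : ℝ))⁻¹ * L ^ (-(d : ℝ)) := by
          rw [Real.mul_rpow (by norm_num) hL0.le, Real.rpow_neg (by norm_num)]
        have e3 : ((1 : ℝ) / d) ^ α * (11 * L) ^ (-(d : ℝ)) =
            ((d : ℝ) ^ α * 11 ^ (d : ℝ))⁻¹ * L ^ (-(d : ℝ)) := by
          rw [e1, e2, mul_inv]
          ring
        rw [e3, Real.mul_rpow (by positivity) (by positivity), Real.inv_rpow (by positivity), ← hq,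
          ← Real.rpow_mul hL0.le]
        congr 2
        ring
      have hLprod : L ^ (-((d : ℝ) ^ 2 / γ)) * Le = L ^ d := by
        rw [hLedef, ← Real.rpow_add hL0, ← Real.rpow_natCast L d]
        congr 1
        ring
      have hNprod : (L * N ^ (1 - α)) ^ d = L ^ d * Ne := by
        rw [mul_pow, hNedef, ← Real.rpow_natCast (N ^ (1 - α)) d, ← Real.rpow_mul hN0.le]
        congr 2
        ring
      have hK : (K : ℝ) * 4 ^ d * N ^ (2 * d + 2) / S *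
          (CZ * (L * N ^ (1 - α)) ^ d / N ^ (2 * d + 2)) ≤ (C1 + C2 + 1) * Le * Ne := by
        have e1 : (K : ℝ) * 4 ^ d * N ^ (2 * d + 2) / S *
            (CZ * (L * N ^ (1 - α)) ^ d / N ^ (2 * d + 2)) =
            K * 4 ^ d * CZ * (L * N ^ (1 - α)) ^ d / S := by
          field_simp
        have e2 : K * 4 ^ d * CZ * (L * N ^ (1 - α)) ^ d / S = C2 * Le * Ne := by
          rw [div_eq_iff hSpos.ne', hNprod, ← hLprod, hSeq, hC2]
          field_simp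
        rw [e1, e2]
        have : C2 ≤ C1 + C2 + 1 := by linarith
        gcongr
      calc ∑ i, volume (tube N (θ i) (c i)) ≤ ENNReal.ofReal (K * 4 ^ d * N ^ (2 * d + 2)) := hsum
        _ = ENNReal.ofReal (K * 4 ^ d * N ^ (2 * d + 2) / S) * ENNReal.ofReal S := by
            rw [← ENNReal.ofReal_mul (by positivity)]
            congr 1
            field_simp
        _ ≤ ENNReal.ofReal (K * 4 ^ d * N ^ (2 * d + 2) / S) *
            (ENNReal.ofReal (CZ * (L * N ^ (1 - α)) ^ d / N ^ (2 * d + 2)) *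
              volume (⋃ i, tube N (θ i) (c i))) := mul_le_mul_right (hS.trans hE) _
        _ = ENNReal.ofReal (K * 4 ^ d * N ^ (2 * d + 2) / S *
            (CZ * (L * N ^ (1 - α)) ^ d / N ^ (2 * d + 2))) *
              volume (⋃ i, tube N (θ i) (c i)) := by
            rw [← mul_assoc, ← ENNReal.ofReal_mul (by positivity)]
        _ ≤ _ := mul_le_mul_left (ENNReal.ofReal_le_ofReal hK) _
    · -- `a`
      intro x hx y hy
      have h1 := hsmall x hx y hy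
      have h0 : 0 ≤ ‖x - y‖ ^ α := Real.rpow_nonneg (norm_nonneg _) _
      rw [pi_norm_le_iff_of_nonneg (by positivity)]
      intro k
      rw [Real.norm_eq_abs, Pi.sub_apply]
      have h2 := Z2_half (Φ k.castSucc) hα0 hL0.le (hΦ1 k.castSucc) x y
      have h3 : |x k - y k| ≤ ‖x - y‖ := by
        have := norm_le_pi_norm (x - y) k
        rwa [Real.norm_eq_abs, Pi.sub_apply] at this
      have e1 : 10 * Φ k.castSucc ((1 / 2 : ℝ) • x) + 1 / 2 * x k -
          (10 * Φ k.castSucc ((1 / 2 : ℝ) • y) + 1 / 2 * y k) =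
          10 * (Φ k.castSucc ((1 / 2 : ℝ) • x) - Φ k.castSucc ((1 / 2 : ℝ) • y)) +
            1 / 2 * (x k - y k) := by ring
      rw [e1]
      refine (abs_add_le _ _).trans ?_
      rw [abs_mul, abs_mul, abs_of_pos (by norm_num : (0 : ℝ) < 10),
        abs_of_pos (by norm_num : (0 : ℝ) < 1 / 2)]
      have h4 : ‖x - y‖ ^ α ≤ L * ‖x - y‖ ^ α := by nlinarith
      nlinarith
    · -- `b`
      intro x hx y hy
      have h0 : 0 ≤ ‖x - y‖ ^ α := Real.rpow_nonneg (norm_nonneg _) _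
      have h2 := Z2_half (Φ (Fin.last d)) hα0 hL0.le (hΦ1 (Fin.last d)) x y
      have e1 : 10 * Φ (Fin.last d) ((1 / 2 : ℝ) • x) - 1 / 2 -
          (10 * Φ (Fin.last d) ((1 / 2 : ℝ) • y) - 1 / 2) =
          10 * (Φ (Fin.last d) ((1 / 2 : ℝ) • x) - Φ (Fin.last d) ((1 / 2 : ℝ) • y)) := by ring
      rw [e1, abs_mul, abs_of_pos (by norm_num : (0 : ℝ) < 10)]
      have h4 : 0 ≤ L * ‖x - y‖ ^ α := by positivity
      linarith
    · intro x hx t ht
      refine ⟨x, hx, t, ht, ?_⟩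
      congr 2
      funext k
      simp only [Pi.sub_apply, Pi.smul_apply, smul_eq_mul]
      ring

end Pool.Agent.MPac5134.Lip
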